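import Pool.Agent.LadderTree.Press
import Pool.Agent.Forcing.RO

/-!
# Truth values of statements of the ground model
-/

namespace Pool.Agent.LadderTree

open Classical Pool.Agent.Forcing

set_option linter.unusedSectionVars false

section

variable {Ω B : Type} [LinearOrder Ω] [CompleteBooleanAlgebra B]

/-- truth value of a statement of the ground model -/
noncomputable def tv (p : Prop) : B := ⨆ _ : p, ⊤

theorem tv_true {p : Prop} (h : p) : (tv p : B) = ⊤ := by simp [tv, h]

theorem tv_false {p : Prop} (h : ¬ p) : (tv p : B) = ⊥ := by simp [tv, h]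

theorem forc_tv {P : Type} [Preorder P] {p : P} {q : Prop} : Forc p (tv q : RO P) ↔ q := by
  by_cases h : q
  · rw [tv_true h]; exact ⟨fun _ => h, fun _ => forc_top⟩
  · rw [tv_false h]; exact ⟨fun h' => absurd h' forc_bot, fun h' => absurd h' h⟩

end

end Pool.Agent.LadderTree
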