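import Pool.Agent.LadderTree.Good

/-!
# The generic colourings form a bad family
-/

namespace Pool.Agent.LadderTree

open Classical Pool.Agent.Forcing

set_option linter.unusedSectionVars false
set_option linter.unusedVariables false
set_option maxHeartbeats 2000000

section

variable {Ω : Type} [LinearOrder Ω] [WellFoundedLT Ω] [Omega1 Ω]

/-- a ladder system -/
theorem exists_ladder : ∃ C : Ω → ℕ → Ω, ∀ α, IsLim α → (∀ k, C α k < α) ∧
    (∀ k, C α k < C α (k + 1)) ∧ ∀ γ, γ < α → ∃ k, γ < C α k := by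
  have h : ∀ α : Ω, IsLim α → ∃ C : ℕ → Ω, (∀ k, C k < α) ∧ (∀ k, C k < C (k + 1)) ∧
      ∀ γ, γ < α → ∃ k, γ < C k := by
    intro α hα
    obtain ⟨x0, hx0⟩ := hα.1
    have hne : (Set.Iio α).Nonempty := ⟨x0, hx0⟩
    obtain ⟨e, he⟩ := (Omega1.countable_Iio α).exists_eq_range hne
    have he' : ∀ n, e n < α := fun n => by
      have : e n ∈ Set.Iio α := by rw [he]; exact ⟨n, rfl⟩
      exact this
    have hnext : ∀ (x : Set.Iio α) (n : ℕ), ∃ y : Set.Iio α, x.1 < y.1 ∧ e n < y.1 := by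
      intro x n
      obtain ⟨y, hy, hy'⟩ := hα.2 _ (max_lt x.2 (he' n))
      exact ⟨⟨y, hy'⟩, (le_max_left _ _).trans_lt hy, (le_max_right _ _).trans_lt hy⟩
    choose nx h1 h2 using hnext
    let C : ℕ → Set.Iio α := fun n => Nat.rec ⟨x0, hx0⟩ (fun n x => nx x n) n
    have hC : ∀ n, C (n + 1) = nx (C n) n := fun n => rfl
    refine ⟨fun n => (C n).1, fun k => (C k).2, fun k => ?_, fun γ hγ => ?_⟩
    · show (C k).1 < (C (k + 1)).1
      rw [hC]; exact h1 _ _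
    · have : γ ∈ Set.range e := by rw [← he]; exact hγ
      obtain ⟨n, rfl⟩ := this
      refine ⟨n + 1, ?_⟩
      show e n < (C (n + 1)).1
      rw [hC]; exact h2 _ _
  choose! C hC using h
  exact ⟨C, hC⟩

/-- an increasing enumeration without repetition -/
theorem ladder_mono {C : ℕ → Ω} (h : ∀ k, C k < C (k + 1)) : StrictMono C :=
  strictMono_nat_of_lt_succ h

variable {I : Type} [LinearOrder I] [WellFoundedLT I]

/-- the generic colouring at stage `i`: the value at the `k`-th point of the ladder at `α` -/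
noncomputable def CH (i : I) (α : Ω) (k c : ℕ) : RO (PP Ω I) := fact i (.coh α k c)

theorem PP.add_coh' (q : PP Ω I) (i : I) (α : Ω) (k : ℕ) :
    ∃ r, r ≤ q ∧ ∃ c, (i, Atom.coh α k c) ∈ r.1 := by
  by_cases h : ∃ c, (i, Atom.coh α k c) ∈ q.1
  · exact ⟨q, le_rfl, h⟩
  · push Not at h
    exact ⟨⟨_, q.2.add_coh i α k 0 h⟩, PP.le_iff.2 (subset_addS _ _ _), 0,
      mem_addS.2 (Or.inr ⟨rfl, Finset.mem_singleton_self _⟩)⟩

theorem CH_tot (i : I) (α : Ω) (k : ℕ) : ⨆ c, CH i α k c = (⊤ : RO (PP Ω I)) := by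
  rw [eq_top_iff_forc]
  intro p
  rw [forc_iSup]
  intro q hq
  obtain ⟨r, hr, c, hc⟩ := q.add_coh' i α k
  exact ⟨r, hr, c, forc_fact_of_mem hc⟩

theorem CH_fun (i : I) (α : Ω) (k : ℕ) (r r' : ℕ) :
    CH i α k r ⊓ CH i α k r' ≤ (tv (r = r') : RO (PP Ω I)) := by
  rw [forc_le_iff]
  intro p hp
  rw [forc_inf] at hp
  rw [forc_tv]
  obtain ⟨q, hq, h1⟩ := forc_fact_ex hp.1
  obtain ⟨q', hq', h2⟩ := forc_fact.1 hp.2 q hq
  exact (q'.vOK i).coh_uniq _ _ _ _ (PP.mem_mono hq' h1) h2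

/-- no tree whose values only depend on the stages before `i` uniformizes the generic colouring
at stage `i` -/
theorem bad_coh {C : Ω → ℕ → Ω} (hC : ∀ α, IsLim α → (∀ k, C α k < α) ∧
    (∀ k, C α k < C α (k + 1)) ∧ ∀ γ, γ < α → ∃ k, γ < C α k) (i : I)
    (N : Ω → ℕ → RO (PP Ω I)) (L : Ω → ℕ → Ω → ℕ → RO (PP Ω I))
    (hL : ∀ ξ m α n, Meas i (L ξ m α n)) (φ : Ω → ℕ → ℕ → RO (PP Ω I)) (p0 : PP Ω I)
    (h1 : ∀ α, Forc p0 (⨆ n, N α n))
    (h2 : ∀ α n ξ, ξ < α → Forc p0 (N α n ⇨ ⨆ m, L ξ m α n))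
    (h3 : ∀ ξ m c c', Forc p0 (φ ξ m c ⇨ (φ ξ m c' ⇨ tv (c = c'))))
    (h4 : ∀ α, IsLim α → ∀ n, Forc p0 (N α n ⇨ ⨆ γ : Set.Iio α, ⨅ k, tv (γ.1 < C α k) ⇨
      ⨅ c, CH i α k c ⇨ ⨅ m, L (C α k) m α n ⇨ φ (C α k) m c)) : False := by
  -- a condition with a fact at stage `i`
  obtain ⟨γ₀⟩ : Nonempty Ω := by
    by_contra h
    rw [not_nonempty_iff] at h
    exact Omega1.uncountable (Ω := Ω) (Set.countable_univ_iff.2 inferInstance)
  let p : PP Ω I := ⟨addS p0.1 i {.node (γ₀, 0)}, p0.2.add_node i _⟩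
  have hp0 : p ≤ p0 := PP.le_iff.2 (subset_addS _ _ _)
  have hpi : (i, Atom.node (γ₀, 0)) ∈ p.1 :=
    mem_addS.2 (Or.inr ⟨rfl, Finset.mem_singleton_self _⟩)
  have a1 := fun α => (h1 α).mono hp0
  have a2 := fun α n ξ h => (h2 α n ξ h).mono hp0
  have a3 := fun ξ m c c' => (h3 ξ m c c').mono hp0
  have a4 := fun α h n => (h4 α h n).mono hp0
  simp only [forc_iInf, forc_iSup, forc_himp, forc_tv] at a1 a2 a3 a4
  -- the data at a limit level
  have key : ∀ α : Ω, ∃ (r : PP Ω I) (n : ℕ) (k m : ℕ), r ≤ p ∧ (IsLim α →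
      Forc r (N α n) ∧ (∀ c, (i, Atom.coh α k c) ∉ r.1) ∧
      Forc r (L (C α k) m α n) ∧ ∀ s, s ≤ r → ∀ c, Forc s (CH i α k c) →
        ∀ t, t ≤ s → Forc t (L (C α k) m α n) → Forc t (φ (C α k) m c)) := by
    intro α
    by_cases hα : IsLim α
    swap
    · exact ⟨p, 0, 0, 0, le_rfl, fun h => absurd h hα⟩
    obtain ⟨hC1, hC2, hC3⟩ := hC α hα
    have hmono := ladder_mono hC2
    obtain ⟨p1, hp1, n, hn⟩ := a1 α p le_rfl
    obtain ⟨p2, hp2, ⟨γ, hγ⟩, hg⟩ := a4 α hα n p1 hp1 hn p1 le_rfl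
    -- a free place on the ladder
    obtain ⟨k, hk, hfree⟩ : ∃ k, γ < C α k ∧ ∀ c, (i, Atom.coh α k c) ∉ p2.1 := by
      obtain ⟨k0, hk0⟩ := hC3 γ hγ
      have hfin : {k | ∃ c, (i, Atom.coh α k c) ∈ p2.1}.Finite := by
        refine (p2.1.image (fun x => match x.2 with
          | .coh _ k _ => k
          | _ => 0)).finite_toSet.subset ?_
        rintro k ⟨c, hc⟩
        exact Finset.mem_coe.2 (Finset.mem_image.2 ⟨_, hc, rfl⟩)
      obtain ⟨k, hk⟩ := Infinite.exists_notMem_finset (hfin.toFinset ∪ Finset.range k0)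
      simp only [Finset.mem_union, Set.Finite.mem_toFinset, Finset.mem_range, not_or,
        not_lt] at hk
      refine ⟨k, hk0.trans_le (hmono.monotone hk.2), fun c hc => hk.1 ⟨c, hc⟩⟩
    have hex : Forc p2 (⨆ m, L (C α k) m α n) := by
      rw [forc_iSup]
      intro q hq
      exact a2 α n (C α k) (hC1 k) p2 (hp2.trans hp1) (hn.mono hp2) q hq
    have hex' : Forc (p2.res i) (⨆ m, L (C α k) m α n) := Meas.iSup (fun m => hL _ _ _ _) p2 hex
    rw [forc_iSup] at hex'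
    obtain ⟨q, hq, m, hm⟩ := hex' (p2.res i) le_rfl
    obtain ⟨r, hr1, hr2, hr3⟩ := PP.amalg hq
    refine ⟨r, n, k, m, hr1.trans (hp2.trans hp1), fun _ => ⟨hn.mono (hr1.trans hp2), ?_, ?_, ?_⟩⟩
    · intro c hc
      exact hfree c ((hr3 i le_rfl _).1 hc)
    · exact (hL _ _ _ _ q hm).mono hr2
    · intro s hs c hc t ht hLt
      exact hg k p2 le_rfl hk c s (hs.trans hr1) hc m t ht hLt
  choose r n k m hrp hr using key
  obtain ⟨α, β, _, hαβ, hα, hβ, hbd, hg, _, he, _⟩ := PP.pair r (fun _ => 0)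
    (fun α => if IsLim α then {(C α (k α), m α)} else ∅) (by
      intro δ hδ x hx
      rw [if_pos hδ, Finset.mem_singleton] at hx
      rw [hx]
      exact (hC δ hδ).1 _) id γ₀
  rw [if_pos hα, if_pos hβ, Finset.singleton_inj, Prod.mk.injEq] at he
  obtain ⟨u, hu1, hu2, hu3⟩ := hg.compat
  obtain ⟨c1, c2, c3, c4⟩ := hr α hα
  obtain ⟨d1, d2, d3, d4⟩ := hr β hβ
  have fα : ∀ c, (i, Atom.coh α (k α) c) ∉ u.1 := by
    intro c hc
    rw [hu3, Finset.mem_union] at hc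
    rcases hc with hc | hc
    · exact c2 c hc
    · refine c2 c (hg.h2 _ hc ?_ (fun f hf => hf.elim) hαβ).1
      exact ⟨_, PP.mem_mono (hrp α) hpi⟩
  have fβ : ∀ c, (i, Atom.coh β (k β) c) ∉ u.1 := by
    intro c hc
    rw [hu3, Finset.mem_union] at hc
    rcases hc with hc | hc
    · exact lt_irrefl β (hg.h1 _ hc)
    · exact d2 c hc
  let u1 : PP Ω I := ⟨addS u.1 i {.coh α (k α) 0}, u.2.add_coh i _ _ _ fα⟩
  have hu1u : u1 ≤ u := PP.le_iff.2 (subset_addS _ _ _)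
  have fβ' : ∀ c, (i, Atom.coh β (k β) c) ∉ u1.1 := by
    intro c hc
    rcases mem_addS.1 hc with hc | ⟨_, hc⟩
    · exact fβ c hc
    · rw [Finset.mem_singleton] at hc
      cases hc
      exact lt_irrefl _ hαβ
  let u2 : PP Ω I := ⟨addS u1.1 i {.coh β (k β) 1}, u1.2.add_coh i _ _ _ fβ'⟩
  have hu2u : u2 ≤ u1 := PP.le_iff.2 (subset_addS _ _ _)
  have m1 : (i, Atom.coh α (k α) 0) ∈ u2.1 := PP.mem_mono hu2u
    (mem_addS.2 (Or.inr ⟨rfl, Finset.mem_singleton_self _⟩))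
  have m2 : (i, Atom.coh β (k β) 1) ∈ u2.1 :=
    mem_addS.2 (Or.inr ⟨rfl, Finset.mem_singleton_self _⟩)
  have w1 := c4 u2 (hu2u.trans (hu1u.trans hu1)) 0 (forc_fact_of_mem m1) u2 le_rfl
    (c3.mono (hu2u.trans (hu1u.trans hu1)))
  have w2 := d4 u2 (hu2u.trans (hu1u.trans hu2)) 1 (forc_fact_of_mem m2) u2 le_rfl
    (d3.mono (hu2u.trans (hu1u.trans hu2)))
  rw [← he.1, ← he.2] at w2
  have hu2p : u2 ≤ p := hu2u.trans (hu1u.trans (hu1.trans (hrp α)))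
  have := a3 _ _ 0 1 u2 hu2p w1 u2 le_rfl w2
  omega

/-- value of the statement that `e` is a functional relation onto -/
noncomputable def OntoV {X Y B : Type} [CompleteBooleanAlgebra B] (e : X → Y → B) : B :=
  (⨅ x, ⨅ y, ⨅ z, e x y ⇨ (e x z ⇨ tv (y = z))) ⊓ ⨅ y, ⨆ x, e x y

/-- cardinals are preserved -/
theorem onto_bot {X Y : Type} (h : ∀ f : Y → X, ∃ x, ¬ (f ⁻¹' {x}).Countable)
    (e : X → Y → RO (PP Ω I)) : OntoV e = ⊥ := by
  by_contra hne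
  obtain ⟨p, hp⟩ := exists_forc hne
  simp only [OntoV, forc_inf, forc_iInf, forc_iSup, forc_himp, forc_tv] at hp
  obtain ⟨h1, h2⟩ := hp
  choose q hq x hx using fun y => h2 y p le_rfl
  obtain ⟨x0, hx0⟩ := h x
  obtain ⟨y, hy, z, hz, hyz, r, hr1, hr2⟩ := ccc_family hx0 q
  have hy' : x y = x0 := hy
  have hz' : x z = x0 := hz
  refine hyz (h1 x0 y z r (hr1.trans (hq y)) ?_ r le_rfl ?_)
  · rw [← hy']; exact (hx y).mono hr1
  · rw [← hz']; exact (hx z).mono hr2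

end

end Pool.Agent.LadderTree
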