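import Pool.Agent.LadderTree.Bad

/-!
# Deciding initial segments of colourings of enumerated ladders
-/

namespace Pool.Agent.LadderTree

open Classical Pool.Agent.Forcing

set_option linter.unusedSectionVars false
set_option linter.unusedVariables false

section

variable {Ω I : Type} [LinearOrder Ω] [LinearOrder I] [WellFoundedLT I]

theorem decBelow_of_enum {c : RO (PP Ω I)} {g : Ω → Ω → ℕ → RO (PP Ω I)}
    (H : ∀ β, IsLim β → ∃ h : ℕ → Ω → RO (PP Ω I),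
      (∀ k, c ≤ ⨆ x, h k x) ∧ (∀ l, l < β → c ≤ ⨆ k, ⨆ x, tv (l < x) ⊓ h k x) ∧
      (∀ k x y, c ⊓ (h k x ⊓ h k y) ≤ tv (x = y)) ∧
      (∀ k k' x y, k < k' → c ⊓ (h k x ⊓ h k' y) ≤ tv (x < y)) ∧
      (∀ k x, c ⊓ h k x ≤ ⨆ m, g β x m) ∧
      (∀ x m m', c ⊓ (g β x m ⊓ g β x m') ≤ tv (m = m')) ∧
      (∀ x m, c ⊓ g β x m ≤ ⨆ k, h k x)) : DecBelow c g := by
  intro p hp β hβ l hl
  obtain ⟨h, tot, cof, fn, inc, vl, gfn, dom⟩ := H β hβ
  have hc := forc_le_iff.1 (cof l hl) p hp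
  simp only [forc_iSup, forc_inf, forc_tv] at hc
  obtain ⟨q0, hq0, n0, hn0⟩ := hc p le_rfl
  obtain ⟨q1, hq1, x0, hlx, hx0⟩ := hn0 q0 le_rfl
  have key : ∀ n : ℕ, ∃ q, q ≤ q1 ∧ ∃ (hx : ℕ → Ω) (v : ℕ → ℕ), ∀ k, k < n →
      Forc q (h k (hx k)) ∧ Forc q (g β (hx k) (v k)) := by
    intro n
    induction n with
    | zero => exact ⟨q1, le_rfl, fun _ => x0, fun _ => 0, fun k hk => absurd hk (Nat.not_lt_zero k)⟩
    | succ n ih =>
      obtain ⟨q, hq, hx, v, hk⟩ := ih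
      have hcq : Forc q c := hp.mono (hq.trans (hq1.trans hq0))
      have h1 := forc_le_iff.1 (tot n) q hcq
      rw [forc_iSup] at h1
      obtain ⟨q', hq', x, hxx⟩ := h1 q le_rfl
      have h2 := forc_le_iff.1 (vl n x) q' (forc_inf.2 ⟨hcq.mono hq', hxx⟩)
      rw [forc_iSup] at h2
      obtain ⟨q'', hq'', m, hm⟩ := h2 q' le_rfl
      refine ⟨q'', hq''.trans (hq'.trans hq), Function.update hx n x, Function.update v n m,
        fun k hkn => ?_⟩
      rcases Nat.lt_succ_iff_lt_or_eq.1 hkn with hlt | rfl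
      · rw [Function.update_of_ne hlt.ne, Function.update_of_ne hlt.ne]
        exact ⟨(hk k hlt).1.mono (hq''.trans hq'), (hk k hlt).2.mono (hq''.trans hq')⟩
      · rw [Function.update_self, Function.update_self]
        exact ⟨hxx.mono hq'', hm⟩
  obtain ⟨q, hq, hx, v, hk⟩ := key n0
  have hqp : q ≤ p := hq.trans (hq1.trans hq0)
  refine ⟨q, hqp, ((Finset.range n0).image (fun k => (hx k, v k))).filter (fun x => x.1 < l),
    ⟨fun x hx => (Finset.mem_filter.1 hx).2, fun ξ m m' h1 h2 => ?_⟩,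
    fun ξ n hξ => ⟨fun h1 => ?_, fun h1 => ?_⟩⟩
  · simp only [Finset.mem_filter, Finset.mem_image, Finset.mem_range, Prod.mk.injEq] at h1 h2
    obtain ⟨⟨k, hkn, e1, e2⟩, _⟩ := h1
    obtain ⟨⟨k', hkn', e1', e2'⟩, _⟩ := h2
    have f1 := (hk k hkn).2
    have f2 := (hk k' hkn').2
    rw [e1, e2] at f1
    rw [e1', e2'] at f2
    have := forc_le_iff.1 (gfn ξ m m') q (forc_inf.2 ⟨hp.mono hqp, forc_inf.2 ⟨f1, f2⟩⟩)
    exact forc_tv.1 this
  · simp only [Finset.mem_filter, Finset.mem_image, Finset.mem_range, Prod.mk.injEq] at h1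
    obtain ⟨⟨k, hkn, e1, e2⟩, _⟩ := h1
    have f1 := (hk k hkn).2
    rwa [e1, e2] at f1
  · rw [forc_compl]
    intro r hr hg
    have hcr : Forc r c := hp.mono (hr.trans hqp)
    have h2 := forc_le_iff.1 (dom ξ n) r (forc_inf.2 ⟨hcr, hg⟩)
    rw [forc_iSup] at h2
    obtain ⟨r', hr', k, hkξ⟩ := h2 r le_rfl
    have hcr' := hcr.mono hr'
    have hr'q : r' ≤ q := hr'.trans hr
    rcases lt_trichotomy k n0 with hlt | rfl | hgt
    · obtain ⟨f1, f2⟩ := hk k hlt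
      have e1 := forc_tv.1 (forc_le_iff.1 (fn k (hx k) ξ) r'
        (forc_inf.2 ⟨hcr', forc_inf.2 ⟨f1.mono hr'q, hkξ⟩⟩))
      rw [e1] at f2
      have e2 := forc_tv.1 (forc_le_iff.1 (gfn ξ (v k) n) r'
        (forc_inf.2 ⟨hcr', forc_inf.2 ⟨f2.mono hr'q, hg.mono hr'⟩⟩))
      apply h1
      simp only [Finset.mem_filter, Finset.mem_image, Finset.mem_range, Prod.mk.injEq]
      exact ⟨⟨k, hlt, e1, e2⟩, hξ⟩
    · have e1 := forc_tv.1 (forc_le_iff.1 (fn k x0 ξ) r'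
        (forc_inf.2 ⟨hcr', forc_inf.2 ⟨hx0.mono (hr'q.trans hq), hkξ⟩⟩))
      rw [e1] at hlx
      exact lt_asymm hlx hξ
    · have e1 := forc_tv.1 (forc_le_iff.1 (inc n0 k x0 ξ hgt) r'
        (forc_inf.2 ⟨hcr', forc_inf.2 ⟨hx0.mono (hr'q.trans hq), hkξ⟩⟩))
      exact lt_asymm (hlx.trans e1) hξ

end

end Pool.Agent.LadderTree
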