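import Pool.Agent.LadderTree.Press

/-!
# Finite conditions
-/

namespace Pool.Agent.LadderTree

open Classical

set_option linter.unusedSectionVars false
set_option linter.unusedVariables false

/-- atomic facts at one stage of the iteration -/
inductive Atom (Ω Nm : Type) : Type
  | node (t : Ω × ℕ)
  | lt (s t : Ω × ℕ)
  | sp (t : Ω × ℕ) (r : ℕ)
  | lab (s : Ω × ℕ) (f : Nm) (c : ℕ)
  | pr (t : Ω × ℕ) (f : Nm) (k : Ω)
  | dec (β : Ω) (f : Nm) (l : Ω) (G : Finset (Ω × ℕ))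
  | coh (α : Ω) (k c : ℕ)

/-- conditions: finite sets of facts -/
abbrev Cd (Ω I Nm : Type) : Type := Finset (I × Atom Ω Nm)

section

variable {Ω I Nm : Type} [LinearOrder Ω] [LinearOrder I]

/-- `u ≤ t` in the finite tree -/
def Le (X : Atom Ω Nm → Prop) (u t : Ω × ℕ) : Prop := u = t ∨ X (.lt u t)

/-- the finitary requirements on the facts of one stage -/
structure OK (X : Atom Ω Nm → Prop) : Prop where
  lt_node : ∀ s t, X (.lt s t) → X (.node s) ∧ X (.node t) ∧ s.1 < t.1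
  lt_trans : ∀ s t u, X (.lt s t) → X (.lt t u) → X (.lt s u)
  lt_tree : ∀ s t u, X (.lt s u) → X (.lt t u) → s = t ∨ X (.lt s t) ∨ X (.lt t s)
  sp_uniq : ∀ t r r', X (.sp t r) → X (.sp t r') → r = r'
  sp_lt : ∀ s t r r', X (.lt s t) → X (.sp s r) → X (.sp t r') → r ≠ r'
  lab_uniq : ∀ s f c c', X (.lab s f c) → X (.lab s f c') → c = c'
  coh_uniq : ∀ α k c c', X (.coh α k c) → X (.coh α k c') → c = c'
  pr_node : ∀ t f k, X (.pr t f k) → X (.node t) ∧ k < t.1 ∧ IsLim t.1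
  v1 : ∀ u t f k, X (.lt u t) → X (.pr t f k) → k ≤ u.1 → ∃ l G, X (.dec t.1 f l G) ∧ u.1 < l
  v2a : ∀ u t f k, X (.lt u t) → X (.pr t f k) → k ≤ u.1 → ∃ c, X (.lab u f c)
  v2b : ∀ u t f k l G m c, X (.lt u t) → X (.pr t f k) → k ≤ u.1 → X (.dec t.1 f l G) →
    (u.1, m) ∈ G → X (.lab u f c) → m = c
  v3 : ∀ u t₁ t₂ f k₁ k₂ l₁ l₂ G₁ G₂ ξ m₁ m₂, Le X u t₁ → Le X u t₂ →
    X (.pr t₁ f k₁) → X (.pr t₂ f k₂) → X (.dec t₁.1 f l₁ G₁) → X (.dec t₂.1 f l₂ G₂) →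
    (ξ, m₁) ∈ G₁ → (ξ, m₂) ∈ G₂ → ξ < u.1 → k₁ ≤ ξ → k₂ ≤ ξ → m₁ = m₂
  v3' : ∀ t₁ t₂ f k₁ k₂ l₂ G₂ ξ m, X (.lt t₁ t₂) → X (.pr t₁ f k₁) → X (.pr t₂ f k₂) →
    X (.dec t₂.1 f l₂ G₂) → (ξ, m) ∈ G₂ → ξ < t₁.1 → k₁ ≤ ξ → k₂ ≤ ξ →
    ∃ l₁ G₁, X (.dec t₁.1 f l₁ G₁) ∧ ξ < l₁

variable (cd : Nm → Ω → Ω → ℕ → Set (Cd Ω I Nm))

/-- `q` forces (with respect to the conditions satisfying `W`) that the generic filter meets
`A` -/
def Fpos (W : Cd Ω I Nm → Prop) (q : Cd Ω I Nm) (A : Set (Cd Ω I Nm)) : Prop :=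
  ∀ q', q ⊆ q' → W q' → ∃ q'', q' ⊆ q'' ∧ W q'' ∧ ∃ s ∈ A, s ⊆ q''

/-- `q` forces that the generic filter does not meet `A` -/
def Fneg (W : Cd Ω I Nm → Prop) (q : Cd Ω I Nm) (A : Set (Cd Ω I Nm)) : Prop :=
  ∀ q', q ⊆ q' → W q' → ∀ s ∈ A, ¬ s ⊆ q'

/-- `q` forces that the part below `l` of the `β`-th ladder colouring of `f` is `G` -/
def DecF (W : Cd Ω I Nm → Prop) (q : Cd Ω I Nm) (f : Nm) (β l : Ω) (G : Finset (Ω × ℕ)) : Prop :=
  ∀ ξ n, ξ < l → ((ξ, n) ∈ G → Fpos W q (cd f β ξ n)) ∧ ((ξ, n) ∉ G → Fneg W q (cd f β ξ n))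

/-- `G` is the graph of a function with domain below `l` -/
def GOK (l : Ω) (G : Finset (Ω × ℕ)) : Prop :=
  (∀ x ∈ G, x.1 < l) ∧ ∀ ξ m m', (ξ, m) ∈ G → (ξ, m') ∈ G → m = m'

/-- initial segments of the ladder colourings named by `f` can be decided -/
def Legit (W : Cd Ω I Nm → Prop) (f : Nm) : Prop :=
  ∀ β l, l < β → ∀ q, W q → ∃ q', q ⊆ q' ∧ W q' ∧ ∃ G, GOK l G ∧ DecF cd W q' f β l G

/-- restriction of a condition to the stages before `i` -/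
noncomputable def restr (p : Cd Ω I Nm) (i : I) : Cd Ω I Nm := p.filter (fun x => x.1 < i)

/-- the requirements at stage `j`, where `W` is validity for conditions with stages below `j` -/
structure Step (W : Cd Ω I Nm → Prop) (j : I) (p : Cd Ω I Nm) : Prop where
  ok : OK (fun a => (j, a) ∈ p)
  dec : ∀ β f l G, (j, Atom.dec β f l G) ∈ p →
    l < β ∧ GOK l G ∧ DecF cd W (restr p j) f β l G
  pr : ∀ t f k, (j, Atom.pr t f k) ∈ p → Legit cd W f

variable [WellFoundedLT I]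

/-- valid conditions with stages below `i` -/
noncomputable def V : I → Cd Ω I Nm → Prop :=
  WellFounded.fix (wellFounded_lt (α := I))
    (fun i rec p => (∀ x ∈ p, x.1 < i) ∧ ∀ j (hj : j < i), Step cd (rec j hj) j p)

theorem V_iff (i : I) (p : Cd Ω I Nm) :
    V cd i p ↔ (∀ x ∈ p, x.1 < i) ∧ ∀ j, j < i → Step cd (V cd j) j p := by
  unfold V
  rw [WellFounded.fix_eq]

/-- valid conditions -/
def Vt (p : Cd Ω I Nm) : Prop := ∀ j, Step cd (V cd j) j p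

variable {cd}

theorem mem_restr {p : Cd Ω I Nm} {i : I} {x : I × Atom Ω Nm} :
    x ∈ restr p i ↔ x ∈ p ∧ x.1 < i := by simp [restr]

theorem restr_subset (p : Cd Ω I Nm) (i : I) : restr p i ⊆ p := Finset.filter_subset _ _

theorem restr_mono {p q : Cd Ω I Nm} (h : p ⊆ q) (i : I) : restr p i ⊆ restr q i :=
  Finset.filter_subset_filter _ h

theorem Fpos.mono {W : Cd Ω I Nm → Prop} {q q' : Cd Ω I Nm} {A : Set (Cd Ω I Nm)} (h : q ⊆ q')
    (hF : Fpos W q A) : Fpos W q' A := fun r hr hW => hF r (h.trans hr) hW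

theorem Fneg.mono {W : Cd Ω I Nm → Prop} {q q' : Cd Ω I Nm} {A : Set (Cd Ω I Nm)} (h : q ⊆ q')
    (hF : Fneg W q A) : Fneg W q' A := fun r hr hW => hF r (h.trans hr) hW

theorem DecF.mono {W : Cd Ω I Nm → Prop} {q q' : Cd Ω I Nm} {f : Nm} {β l : Ω}
    {G : Finset (Ω × ℕ)} (h : q ⊆ q') (hF : DecF cd W q f β l G) : DecF cd W q' f β l G :=
  fun ξ n hξ => ⟨fun hG => ((hF ξ n hξ).1 hG).mono h, fun hG => ((hF ξ n hξ).2 hG).mono h⟩

theorem OK.congr {X Y : Atom Ω Nm → Prop} (h : ∀ a, X a ↔ Y a) (hX : OK X) : OK Y := by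
  have : X = Y := funext fun a => propext (h a)
  exact this ▸ hX

theorem OK.empty : OK (fun _ : Atom Ω Nm => False) := by
  constructor <;> (intros; contradiction)

theorem Step.trivial {W : Cd Ω I Nm → Prop} {j : I} {p : Cd Ω I Nm} (h : ∀ x ∈ p, x.1 ≠ j) :
    Step cd W j p where
  ok := OK.empty.congr fun a => ⟨False.elim, fun ha => h _ ha rfl⟩
  dec β f l G hx := absurd rfl (h _ hx)
  pr t f k hx := absurd rfl (h _ hx)

/-- a stage is unchanged and earlier stages are extended -/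
theorem Step.of_eq {W : Cd Ω I Nm → Prop} {j : I} {p q : Cd Ω I Nm} (hp : Step cd W j p)
    (h : ∀ a, (j, a) ∈ p ↔ (j, a) ∈ q) (hr : restr p j ⊆ restr q j) : Step cd W j q where
  ok := hp.ok.congr h
  dec β f l G hx := by
    obtain ⟨h1, h2, h3⟩ := hp.dec β f l G ((h _).2 hx)
    exact ⟨h1, h2, h3.mono hr⟩
  pr t f k hx := hp.pr t f k ((h _).2 hx)

theorem V_iff' (i : I) (p : Cd Ω I Nm) : V cd i p ↔ (∀ x ∈ p, x.1 < i) ∧ Vt cd p := by
  rw [V_iff]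
  refine and_congr_right fun h => ⟨fun h' j => ?_, fun h' j _ => h' j⟩
  by_cases hj : j < i
  · exact h' j hj
  · exact Step.trivial fun x hx e => hj (e ▸ h x hx)

theorem V.vt {i : I} {p : Cd Ω I Nm} (h : V cd i p) : Vt cd p := ((V_iff' i p).1 h).2

theorem V.lt {i : I} {p : Cd Ω I Nm} (h : V cd i p) : ∀ x ∈ p, x.1 < i := ((V_iff' i p).1 h).1

theorem V.mono {i i' : I} {p : Cd Ω I Nm} (h : V cd i p) (hi : i ≤ i') : V cd i' p :=
  (V_iff' _ _).2 ⟨fun x hx => lt_of_lt_of_le (h.lt x hx) hi, h.vt⟩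

theorem Vt.restr {p : Cd Ω I Nm} (h : Vt cd p) (i : I) : V cd i (restr p i) := by
  rw [V_iff]
  refine ⟨fun x hx => (mem_restr.1 hx).2, fun j hj => ?_⟩
  refine (h j).of_eq (fun a => ?_) (fun x hx => ?_)
  · rw [mem_restr]; exact ⟨fun h => ⟨h, hj⟩, fun h => h.1⟩
  · rw [mem_restr, mem_restr]
    rw [mem_restr] at hx
    exact ⟨⟨hx.1, hx.2.trans hj⟩, hx.2⟩

theorem restr_eq_of_V {i : I} {p : Cd Ω I Nm} (h : ∀ x ∈ p, x.1 < i) : LadderTree.restr p i = p :=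
  Finset.filter_true_of_mem h

/-- gluing: an extension of an initial part of a valid condition -/
theorem Vt.glue {p q : Cd Ω I Nm} {i : I} (hp : Vt cd p) (hq : V cd i q)
    (h : LadderTree.restr p i ⊆ q) : Vt cd (q ∪ p) := by
  intro j
  by_cases hj : j < i
  · refine (hq.vt j).of_eq (fun a => ?_) (restr_mono Finset.subset_union_left j)
    rw [Finset.mem_union]
    exact ⟨Or.inl, fun h' => h'.elim id fun h'' => h (mem_restr.2 ⟨h'', hj⟩)⟩
  · refine (hp j).of_eq (fun a => ?_) (restr_mono Finset.subset_union_right j)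
    rw [Finset.mem_union]
    refine ⟨Or.inr, fun h' => h'.elim (fun h'' => ?_) id⟩
    exact absurd (hq.lt _ h'') hj

theorem glue_stage {p q : Cd Ω I Nm} {i j : I} (hq : V cd i q) (hj : i ≤ j) (a : Atom Ω Nm) :
    (j, a) ∈ q ∪ p ↔ (j, a) ∈ p := by
  rw [Finset.mem_union]
  refine ⟨fun h' => h'.elim (fun h'' => ?_) id, Or.inr⟩
  exact absurd (hq.lt _ h'') (not_lt.2 hj)

theorem Vt.empty : Vt cd (∅ : Cd Ω I Nm) := fun _ => Step.trivial fun x hx => by simp at hx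

/-- changing a single stage `i` of a condition -/
theorem Vt.update {p q : Cd Ω I Nm} {i : I} (hp : Vt cd p) (hpq : p ⊆ q)
    (hne : ∀ x ∈ q, x.1 ≠ i → x ∈ p) (hi : Step cd (V cd i) i q) : Vt cd q := by
  intro j
  by_cases hj : j = i
  · subst hj; exact hi
  · refine (hp j).of_eq (fun a => ⟨fun h => hpq h, fun h => hne _ h hj⟩) (restr_mono hpq j)

end

end Pool.Agent.LadderTree
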