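import Pool.Agent.LadderTree.Types

/-!
# Density lemmas
-/

namespace Pool.Agent.LadderTree

open Classical

set_option linter.unusedSectionVars false
set_option linter.unusedVariables false
set_option maxHeartbeats 2000000

section

variable {Ω I Nm : Type} [LinearOrder Ω] [LinearOrder I] [WellFoundedLT I]
variable {cd : Nm → Ω → Ω → ℕ → Set (Cd Ω I Nm)}

/-- add facts at stage `i` -/
noncomputable def addS (p : Cd Ω I Nm) (i : I) (S : Finset (Atom Ω Nm)) : Cd Ω I Nm :=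
  p ∪ S.image (fun a => (i, a))

theorem mem_addS {p : Cd Ω I Nm} {i j : I} {S : Finset (Atom Ω Nm)} {a : Atom Ω Nm} :
    (j, a) ∈ addS p i S ↔ (j, a) ∈ p ∨ (j = i ∧ a ∈ S) := by
  simp only [addS, Finset.mem_union, Finset.mem_image, Prod.mk.injEq]
  constructor
  · rintro (h | ⟨b, hb, rfl, rfl⟩)
    · exact Or.inl h
    · exact Or.inr ⟨rfl, hb⟩
  · rintro (h | ⟨rfl, hb⟩)
    · exact Or.inl h
    · exact Or.inr ⟨a, hb, rfl, rfl⟩

theorem subset_addS (p : Cd Ω I Nm) (i : I) (S : Finset (Atom Ω Nm)) : p ⊆ addS p i S :=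
  Finset.subset_union_left

theorem Vt.addS {p : Cd Ω I Nm} {i : I} {S : Finset (Atom Ω Nm)} (hp : Vt cd p)
    (hok : OK (fun a => (i, a) ∈ p ∨ a ∈ S))
    (hdec : ∀ β f l G, Atom.dec β f l G ∈ S →
      l < β ∧ GOK l G ∧ DecF cd (V cd i) (LadderTree.restr p i) f β l G)
    (hpr : ∀ t f k, Atom.pr t f k ∈ S → Legit cd (V cd i) f) :
    Vt cd (LadderTree.addS p i S) := by
  refine hp.update (i := i) (subset_addS p i S) ?_ ?_
  · rintro ⟨j, a⟩ hx hj
    rcases mem_addS.1 hx with h | h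
    · exact h
    · exact absurd h.1 hj
  · refine ⟨hok.congr fun a => ?_, ?_, ?_⟩
    · rw [mem_addS]; simp
    · intro β f l G hx
      have hr : LadderTree.restr p i ⊆ LadderTree.restr (LadderTree.addS p i S) i :=
        restr_mono (subset_addS p i S) i
      rcases mem_addS.1 hx with h | h
      · obtain ⟨a, b, c⟩ := (hp i).dec _ _ _ _ h
        exact ⟨a, b, c.mono hr⟩
      · obtain ⟨a, b, c⟩ := hdec _ _ _ _ h.2
        exact ⟨a, b, c.mono hr⟩
    · intro t f k hx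
      rcases mem_addS.1 hx with h | h
      · exact (hp i).pr _ _ _ h
      · exact hpr _ _ _ h.2

/-- natural numbers mentioned -/
def Atom.nums : Atom Ω Nm → Finset ℕ
  | .node t => {t.2}
  | .lt s t => {s.2, t.2}
  | .sp t r => {t.2, r}
  | .lab s _ _ => {s.2}
  | .pr t _ _ => {t.2}
  | .dec _ _ _ _ => ∅
  | .coh _ _ _ => ∅

theorem exists_fresh (p : Cd Ω I Nm) : ∃ m : ℕ, ∀ j a, (j, a) ∈ p → m ∉ a.nums := by
  obtain ⟨m, hm⟩ := Infinite.exists_notMem_finset (p.biUnion fun x => x.2.nums)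
  refine ⟨m, fun j a ha hn => hm ?_⟩
  exact Finset.mem_biUnion.2 ⟨(j, a), ha, hn⟩

/-- adding a decision does no harm -/
theorem OK.add_dec {X : Atom Ω Nm → Prop} (hX : OK X) {β₀ : Ω} {f₀ : Nm} {l₀ : Ω}
    {G₀ : Finset (Ω × ℕ)}
    (hc : ∀ β f l l' G G', (X (.dec β f l G) ∨ Atom.dec β f l G = .dec β₀ f₀ l₀ G₀) →
      (X (.dec β f l' G') ∨ Atom.dec β f l' G' = .dec β₀ f₀ l₀ G₀) →
      ∀ ξ m, ξ < l' → (ξ, m) ∈ G → (ξ, m) ∈ G')
    (hg : ∀ β f l G, (X (.dec β f l G) ∨ Atom.dec β f l G = .dec β₀ f₀ l₀ G₀) → GOK l G) :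
    OK (fun a => X a ∨ a = .dec β₀ f₀ l₀ G₀) := by
  -- replacing decisions by old ones
  have rep : ∀ u t f k l G ξ m, X (.lt u t) → X (.pr t f k) → k ≤ u.1 →
      (X (.dec t.1 f l G) ∨ Atom.dec t.1 f l G = .dec β₀ f₀ l₀ G₀) → (ξ, m) ∈ G → ξ ≤ u.1 →
      ∃ l' G', X (.dec t.1 f l' G') ∧ (ξ, m) ∈ G' := by
    intro u t f k l G ξ m h1 h2 h3 h4 h5 h6
    obtain ⟨l', G', a, b⟩ := hX.v1 _ _ _ _ h1 h2 h3
    exact ⟨l', G', a, hc _ _ _ _ _ _ h4 (Or.inl a) ξ m (h6.trans_lt b) h5⟩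
  have ltX : ∀ {u t}, (X (.lt u t) ∨ Atom.lt u t = .dec β₀ f₀ l₀ G₀) → X (.lt u t) :=
    fun h => h.elim id (fun h => by cases h)
  have prX : ∀ {t f k}, (X (.pr t f k) ∨ Atom.pr t f k = .dec β₀ f₀ l₀ G₀) → X (.pr t f k) :=
    fun h => h.elim id (fun h => by cases h)
  have labX : ∀ {t f k}, (X (.lab t f k) ∨ Atom.lab t f k = .dec β₀ f₀ l₀ G₀) →
      X (.lab t f k) := fun h => h.elim id (fun h => by cases h)
  have cohX : ∀ {t f k}, (X (.coh t f k) ∨ Atom.coh t f k = .dec β₀ f₀ l₀ G₀) →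
      X (.coh t f k) := fun h => h.elim id (fun h => by cases h)
  have spX : ∀ {t k}, (X (.sp t k) ∨ Atom.sp t k = .dec β₀ f₀ l₀ G₀) →
      X (.sp t k) := fun h => h.elim id (fun h => by cases h)
  have leX : ∀ {u t}, Le (fun a => X a ∨ a = .dec β₀ f₀ l₀ G₀) u t → Le X u t :=
    fun h => h.elim Or.inl (fun h => Or.inr (ltX h))
  constructor
  · intro s t h
    obtain ⟨a, b, c⟩ := hX.lt_node _ _ (ltX h)
    exact ⟨Or.inl a, Or.inl b, c⟩
  · intro s t u h1 h2
    exact Or.inl (hX.lt_trans _ _ _ (ltX h1) (ltX h2))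
  · intro s t u h1 h2
    rcases hX.lt_tree _ _ _ (ltX h1) (ltX h2) with h | h | h
    · exact Or.inl h
    · exact Or.inr (Or.inl (Or.inl h))
    · exact Or.inr (Or.inr (Or.inl h))
  · intro t r r' h1 h2
    exact hX.sp_uniq _ _ _ (spX h1) (spX h2)
  · intro s t r r' h1 h2 h3
    exact hX.sp_lt _ _ _ _ (ltX h1) (spX h2) (spX h3)
  · intro s f c c' h1 h2
    exact hX.lab_uniq _ _ _ _ (labX h1) (labX h2)
  · intro s f c c' h1 h2
    exact hX.coh_uniq _ _ _ _ (cohX h1) (cohX h2)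
  · intro t f k h
    obtain ⟨a, b⟩ := hX.pr_node _ _ _ (prX h)
    exact ⟨Or.inl a, b⟩
  · intro u t f k h1 h2 h3
    obtain ⟨l, G, a, b⟩ := hX.v1 _ _ _ _ (ltX h1) (prX h2) h3
    exact ⟨l, G, Or.inl a, b⟩
  · intro u t f k h1 h2 h3
    obtain ⟨c, a⟩ := hX.v2a _ _ _ _ (ltX h1) (prX h2) h3
    exact ⟨c, Or.inl a⟩
  · intro u t f k l G m c h1 h2 h3 h4 h5 h6
    obtain ⟨l', G', a, b⟩ := rep u t f k l G u.1 m (ltX h1) (prX h2) h3 h4 h5 le_rfl
    exact hX.v2b _ _ _ _ _ _ _ _ (ltX h1) (prX h2) h3 a b (labX h6)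
  · intro u t₁ t₂ f k₁ k₂ l₁ l₂ G₁ G₂ ξ m₁ m₂ a1 b1 a2 b2 a3 b3 a4 b4 hξ hk1 hk2
    have a1' := leX a1
    have b1' := leX b1
    have a2' := prX a2
    have b2' := prX b2
    rcases a1' with e | a1' <;> rcases b1' with e' | b1'
    · subst e; subst e'
      have h5 := hc _ _ _ _ _ _ a3 b3 ξ m₁ ((hg _ _ _ _ b3).1 _ b4) a4
      exact (hg _ _ _ _ b3).2 _ _ _ h5 b4
    · subst e
      obtain ⟨l', G', c, d⟩ := rep u t₂ f k₂ l₂ G₂ ξ m₂ b1' b2' (hk2.trans hξ.le) b3 b4 hξ.le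
      obtain ⟨l'', G'', c', d'⟩ := hX.v3' _ _ _ _ _ _ _ _ _ b1' a2' b2' c d hξ hk1 hk2
      have h5 := hc _ _ _ _ _ _ a3 (Or.inl c') ξ m₁ d' a4
      exact hX.v3 u u t₂ f k₁ k₂ l'' l' G'' G' ξ m₁ m₂ (Or.inl rfl) (Or.inr b1') a2' b2' c' c h5 d
        hξ hk1 hk2
    · subst e'
      obtain ⟨l', G', c, d⟩ := rep u t₁ f k₁ l₁ G₁ ξ m₁ a1' a2' (hk1.trans hξ.le) a3 a4 hξ.le
      obtain ⟨l'', G'', c', d'⟩ := hX.v3' _ _ _ _ _ _ _ _ _ a1' b2' a2' c d hξ hk2 hk1
      have h5 := hc _ _ _ _ _ _ b3 (Or.inl c') ξ m₂ d' b4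
      exact hX.v3 u t₁ u f k₁ k₂ l' l'' G' G'' ξ m₁ m₂ (Or.inr a1') (Or.inl rfl) a2' b2' c c' d h5
        hξ hk1 hk2
    · obtain ⟨l', G', c, d⟩ := rep u t₁ f k₁ l₁ G₁ ξ m₁ a1' a2' (hk1.trans hξ.le) a3 a4 hξ.le
      obtain ⟨l'', G'', c', d'⟩ := rep u t₂ f k₂ l₂ G₂ ξ m₂ b1' b2' (hk2.trans hξ.le) b3 b4 hξ.le
      exact hX.v3 u t₁ t₂ f k₁ k₂ l' l'' G' G'' ξ m₁ m₂ (Or.inr a1') (Or.inr b1') a2' b2' c c' d d'
        hξ hk1 hk2
  · intro t₁ t₂ f k₁ k₂ l₂ G₂ ξ m h1 h2 h3 h4 h5 h6 h7 h8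
    obtain ⟨l', G', c, d⟩ := rep t₁ t₂ f k₂ l₂ G₂ ξ m (ltX h1) (prX h3) (h8.trans h6.le) h4 h5
      h6.le
    obtain ⟨l₁, G₁, e, g⟩ := hX.v3' _ _ _ _ _ _ _ _ _ (ltX h1) (prX h2) (prX h3) c d h6 h7 h8
    exact ⟨l₁, G₁, Or.inl e, g⟩

/-- `q` extends `p`, and at stage `i` only decisions are added -/
structure Ext (cd : Nm → Ω → Ω → ℕ → Set (Cd Ω I Nm)) (i : I) (p q : Cd Ω I Nm) : Prop where
  sub : p ⊆ q
  vt : Vt cd q
  eq : ∀ a, (i, a) ∈ q → (i, a) ∈ p ∨ ∃ β f l G, a = .dec β f l G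

theorem Ext.trans {i : I} {p q r : Cd Ω I Nm} (h : Ext cd i p q) (h' : Ext cd i q r) :
    Ext cd i p r where
  sub := h.sub.trans h'.sub
  vt := h'.vt
  eq a ha := (h'.eq a ha).elim (h.eq a) Or.inr

theorem Vt.dec_coh {p : Cd Ω I Nm} (hp : Vt cd p) {i : I} {β : Ω} {f : Nm} {l l' : Ω}
    {G G' : Finset (Ω × ℕ)} (h : (i, Atom.dec β f l G) ∈ p) (h' : (i, Atom.dec β f l' G') ∈ p)
    {ξ : Ω} {m : ℕ} (hl : ξ < l') (hG : (ξ, m) ∈ G) : (ξ, m) ∈ G' :=
  ((hp i).dec _ _ _ _ h).2.2.coh (hp.restr i) ((hp i).dec _ _ _ _ h').2.2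
    (((hp i).dec _ _ _ _ h).2.1.1 _ hG) hl hG

theorem Vt.add_dec {p : Cd Ω I Nm} (hp : Vt cd p) (i : I) {f : Nm} (hf : Legit cd (V cd i) f)
    {β l : Ω} (hl : l < β) : ∃ q, Ext cd i p q ∧ ∃ G, (i, Atom.dec β f l G) ∈ q := by
  obtain ⟨q', h1, h2, G, h3, h4⟩ := hf β l hl (LadderTree.restr p i) (hp.restr i)
  have h0 : Vt cd (q' ∪ p) := hp.glue h2 h1
  have hr : q' ⊆ LadderTree.restr (q' ∪ p) i := fun x hx =>
    mem_restr.2 ⟨Finset.mem_union_left _ hx, h2.lt x hx⟩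
  have hst : ∀ a, (i, a) ∈ q' ∪ p ↔ (i, a) ∈ p := fun a => glue_stage h2 le_rfl a
  have hd : DecF cd (V cd i) (LadderTree.restr (q' ∪ p) i) f β l G := h4.mono hr
  refine ⟨LadderTree.addS (q' ∪ p) i {.dec β f l G}, ⟨?_, ?_, ?_⟩, G, ?_⟩
  · exact Finset.subset_union_right.trans (subset_addS _ _ _)
  · refine h0.addS ?_ ?_ ?_
    · have : OK (fun a => (i, a) ∈ q' ∪ p ∨ a = Atom.dec β f l G) := by
        refine (h0 i).ok.add_dec ?_ ?_
        · intro β' f' l₁ l₂ G₁ G₂ a b ξ m hξ hG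
          have a' : GOK l₁ G₁ ∧ DecF cd (V cd i) (LadderTree.restr (q' ∪ p) i) f' β' l₁ G₁ := by
            rcases a with a | a
            · exact ((h0 i).dec _ _ _ _ a).2
            · cases a; exact ⟨h3, hd⟩
          have b' : GOK l₂ G₂ ∧ DecF cd (V cd i) (LadderTree.restr (q' ∪ p) i) f' β' l₂ G₂ := by
            rcases b with b | b
            · exact ((h0 i).dec _ _ _ _ b).2
            · cases b; exact ⟨h3, hd⟩
          exact a'.2.coh (h0.restr i) b'.2 (a'.1.1 _ hG) hξ hG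
        · intro β' f' l₁ G₁ a
          rcases a with a | a
          · exact ((h0 i).dec _ _ _ _ a).2.1
          · cases a; exact h3
      exact this.congr fun a => by simp
    · intro β' f' l' G' hx
      rw [Finset.mem_singleton] at hx
      cases hx
      exact ⟨hl, h3, hd⟩
    · intro t f k hx
      rw [Finset.mem_singleton] at hx
      cases hx
  · intro a ha
    rcases mem_addS.1 ha with h | ⟨_, h⟩
    · exact Or.inl ((hst a).1 h)
    · exact Or.inr ⟨_, _, _, _, Finset.mem_singleton.1 h⟩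
  · exact mem_addS.2 (Or.inr ⟨rfl, Finset.mem_singleton_self _⟩)

theorem Vt.add_decs {p : Cd Ω I Nm} (hp : Vt cd p) (i : I) (F : Finset Nm)
    (hf : ∀ f ∈ F, Legit cd (V cd i) f)
    {β l : Ω} (hl : l < β) :
    ∃ q, Ext cd i p q ∧ ∀ f ∈ F, ∃ G, (i, Atom.dec β f l G) ∈ q := by
  induction F using Finset.induction_on with
  | empty => exact ⟨p, ⟨subset_rfl, hp, fun a => Or.inl⟩, by simp⟩
  | insert f F hfF ih =>
    obtain ⟨q, h1, h2⟩ := ih fun f hf' => hf f (Finset.mem_insert_of_mem hf')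
    obtain ⟨q', h3, G, h4⟩ := h1.vt.add_dec i (hf f (Finset.mem_insert_self _ _)) hl
    refine ⟨q', h1.trans h3, fun g hg => ?_⟩
    rcases Finset.mem_insert.1 hg with rfl | hg
    · exact ⟨G, h4⟩
    · obtain ⟨G', hG'⟩ := h2 g hg
      exact ⟨G', h3.sub hG'⟩

/-- adding a node does no harm -/
theorem Vt.add_node {p : Cd Ω I Nm} (hp : Vt cd p) (i : I) (t : Ω × ℕ) :
    Vt cd (LadderTree.addS p i {.node t}) := by
  have X := (hp i).ok
  refine hp.addS ?_ (fun β f l G h => by simp at h) (fun β f l h => by simp at h)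
  constructor
  · intro a b h
    simp only [Finset.mem_singleton, reduceCtorEq, or_false] at h ⊢
    obtain ⟨h1, h2, h3⟩ := X.lt_node _ _ h
    exact ⟨Or.inl h1, Or.inl h2, h3⟩
  · simp only [Finset.mem_singleton, reduceCtorEq, or_false]
    exact X.lt_trans
  · simp only [Finset.mem_singleton, reduceCtorEq, or_false]
    exact X.lt_tree
  · simp only [Finset.mem_singleton, reduceCtorEq, or_false]
    exact X.sp_uniq
  · simp only [Finset.mem_singleton, reduceCtorEq, or_false]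
    exact X.sp_lt
  · simp only [Finset.mem_singleton, reduceCtorEq, or_false]
    exact X.lab_uniq
  · simp only [Finset.mem_singleton, reduceCtorEq, or_false]
    exact X.coh_uniq
  · intro a b c h
    simp only [Finset.mem_singleton, reduceCtorEq, or_false] at h ⊢
    obtain ⟨h1, h2⟩ := X.pr_node _ _ _ h
    exact ⟨Or.inl h1, h2⟩
  · simp only [Finset.mem_singleton, reduceCtorEq, or_false]
    exact X.v1
  · simp only [Finset.mem_singleton, reduceCtorEq, or_false]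
    exact X.v2a
  · simp only [Finset.mem_singleton, reduceCtorEq, or_false]
    exact X.v2b
  · simp only [Finset.mem_singleton, reduceCtorEq, or_false, Le]
    exact X.v3
  · simp only [Finset.mem_singleton, reduceCtorEq, or_false]
    exact X.v3'

/-- a value of the specializing function -/
theorem Vt.add_sp {p : Cd Ω I Nm} (hp : Vt cd p) (i : I) (t : Ω × ℕ) :
    ∃ q, p ⊆ q ∧ Vt cd q ∧ ∃ r, (i, Atom.sp t r) ∈ q := by
  by_cases h0 : ∃ r, (i, Atom.sp t r) ∈ p
  · exact ⟨p, subset_rfl, hp, h0⟩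
  push Not at h0
  have X := (hp i).ok
  obtain ⟨r, hr⟩ := exists_fresh p
  refine ⟨LadderTree.addS p i {.sp t r}, subset_addS _ _ _, ?_, r,
    mem_addS.2 (Or.inr ⟨rfl, Finset.mem_singleton_self _⟩)⟩
  have hr' : ∀ u, (i, Atom.sp u r) ∉ p := fun u hu => hr _ _ hu (by simp [Atom.nums])
  refine hp.addS ?_ (fun β f l G h => by simp at h) (fun β f l h => by simp at h)
  constructor
  · intro a b h
    simp only [Finset.mem_singleton, reduceCtorEq, or_false] at h ⊢
    exact X.lt_node _ _ h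
  · simp only [Finset.mem_singleton, reduceCtorEq, or_false]
    exact X.lt_trans
  · simp only [Finset.mem_singleton, reduceCtorEq, or_false]
    exact X.lt_tree
  · simp only [Finset.mem_singleton, Atom.sp.injEq]
    rintro a b c (h1 | ⟨rfl, rfl⟩) (h2 | ⟨h3, rfl⟩)
    · exact X.sp_uniq _ _ _ h1 h2
    · subst h3; exact absurd h1 (h0 _)
    · exact absurd h2 (h0 _)
    · rfl
  · simp only [Finset.mem_singleton, reduceCtorEq, or_false, Atom.sp.injEq]
    rintro a b c d h (h1 | ⟨rfl, rfl⟩) (h2 | ⟨h3, rfl⟩)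
    · exact X.sp_lt _ _ _ _ h h1 h2
    · rintro rfl; exact hr' _ h1
    · rintro rfl; exact hr' _ h2
    · subst h3; exact absurd (X.lt_node _ _ h).2.2 (lt_irrefl _)
  · simp only [Finset.mem_singleton, reduceCtorEq, or_false]
    exact X.lab_uniq
  · simp only [Finset.mem_singleton, reduceCtorEq, or_false]
    exact X.coh_uniq
  · simp only [Finset.mem_singleton, reduceCtorEq, or_false]
    exact X.pr_node
  · simp only [Finset.mem_singleton, reduceCtorEq, or_false]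
    exact X.v1
  · simp only [Finset.mem_singleton, reduceCtorEq, or_false]
    exact X.v2a
  · simp only [Finset.mem_singleton, reduceCtorEq, or_false]
    exact X.v2b
  · simp only [Finset.mem_singleton, reduceCtorEq, or_false, Le]
    exact X.v3
  · simp only [Finset.mem_singleton, reduceCtorEq, or_false]
    exact X.v3'

/-- adding a label -/
theorem Vt.add_lab {p : Cd Ω I Nm} (hp : Vt cd p) (i : I) (s : Ω × ℕ) (f : Nm) :
    ∃ q, p ⊆ q ∧ Vt cd q ∧ ∃ c, (i, Atom.lab s f c) ∈ q := by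
  by_cases h0 : ∃ r, (i, Atom.lab s f r) ∈ p
  · exact ⟨p, subset_rfl, hp, h0⟩
  push Not at h0
  have X := (hp i).ok
  refine ⟨LadderTree.addS p i {.lab s f 0}, subset_addS _ _ _, ?_, 0,
    mem_addS.2 (Or.inr ⟨rfl, Finset.mem_singleton_self _⟩)⟩
  refine hp.addS ?_ (fun β f l G h => by simp at h) (fun β f l h => by simp at h)
  constructor
  · intro a b h
    simp only [Finset.mem_singleton, reduceCtorEq, or_false] at h ⊢
    exact X.lt_node _ _ h
  · simp only [Finset.mem_singleton, reduceCtorEq, or_false]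
    exact X.lt_trans
  · simp only [Finset.mem_singleton, reduceCtorEq, or_false]
    exact X.lt_tree
  · simp only [Finset.mem_singleton, reduceCtorEq, or_false]
    exact X.sp_uniq
  · simp only [Finset.mem_singleton, reduceCtorEq, or_false]
    exact X.sp_lt
  · simp only [Finset.mem_singleton, Atom.lab.injEq]
    rintro a b c d (h1 | ⟨rfl, rfl, rfl⟩) (h2 | ⟨h3, h4, rfl⟩)
    · exact X.lab_uniq _ _ _ _ h1 h2
    · subst h3; subst h4; exact absurd h1 (h0 _)
    · exact absurd h2 (h0 _)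
    · rfl
  · simp only [Finset.mem_singleton, reduceCtorEq, or_false]
    exact X.coh_uniq
  · simp only [Finset.mem_singleton, reduceCtorEq, or_false]
    exact X.pr_node
  · simp only [Finset.mem_singleton, reduceCtorEq, or_false]
    exact X.v1
  · intro a b c d h1 h2 h3
    simp only [Finset.mem_singleton, reduceCtorEq, or_false] at h1 h2
    obtain ⟨e, he⟩ := X.v2a _ _ _ _ h1 h2 h3
    exact ⟨e, Or.inl he⟩
  · simp only [Finset.mem_singleton, reduceCtorEq, or_false, Atom.lab.injEq]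
    rintro a b c d e g m n h1 h2 h3 h4 h5 (h6 | ⟨rfl, rfl, rfl⟩)
    · exact X.v2b _ _ _ _ _ _ _ _ h1 h2 h3 h4 h5 h6
    · obtain ⟨c', hc'⟩ := X.v2a _ _ _ _ h1 h2 h3
      exact absurd hc' (h0 _)
  · simp only [Finset.mem_singleton, reduceCtorEq, or_false, Le]
    exact X.v3
  · simp only [Finset.mem_singleton, reduceCtorEq, or_false]
    exact X.v3'

/-- adding a value of the Cohen colouring -/
theorem Vt.add_coh {p : Cd Ω I Nm} (hp : Vt cd p) (i : I) (s : Ω) (f : ℕ) (c₀ : ℕ)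
    (h0 : ∀ r, (i, Atom.coh s f r) ∉ p) : Vt cd (LadderTree.addS p i {.coh s f c₀}) := by
  have X := (hp i).ok
  refine hp.addS ?_ (fun β f l G h => by simp at h) (fun β f l h => by simp at h)
  constructor
  · intro a b h
    simp only [Finset.mem_singleton, reduceCtorEq, or_false] at h ⊢
    exact X.lt_node _ _ h
  · simp only [Finset.mem_singleton, reduceCtorEq, or_false]
    exact X.lt_trans
  · simp only [Finset.mem_singleton, reduceCtorEq, or_false]
    exact X.lt_tree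
  · simp only [Finset.mem_singleton, reduceCtorEq, or_false]
    exact X.sp_uniq
  · simp only [Finset.mem_singleton, reduceCtorEq, or_false]
    exact X.sp_lt
  · simp only [Finset.mem_singleton, reduceCtorEq, or_false]
    exact X.lab_uniq
  · simp only [Finset.mem_singleton, Atom.coh.injEq]
    rintro a b c d (h1 | ⟨rfl, rfl, rfl⟩) (h2 | ⟨h3, h4, rfl⟩)
    · exact X.coh_uniq _ _ _ _ h1 h2
    · subst h3; subst h4; exact absurd h1 (h0 _)
    · exact absurd h2 (h0 _)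
    · rfl
  · simp only [Finset.mem_singleton, reduceCtorEq, or_false]
    exact X.pr_node
  · simp only [Finset.mem_singleton, reduceCtorEq, or_false]
    exact X.v1
  · simp only [Finset.mem_singleton, reduceCtorEq, or_false]
    exact X.v2a
  · simp only [Finset.mem_singleton, reduceCtorEq, or_false]
    exact X.v2b
  · simp only [Finset.mem_singleton, reduceCtorEq, or_false, Le]
    exact X.v3
  · simp only [Finset.mem_singleton, reduceCtorEq, or_false]
    exact X.v3'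

end

end Pool.Agent.LadderTree
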