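import Pool.Agent.LadderTree.Density

/-!
# Density lemmas, continued
-/

namespace Pool.Agent.LadderTree

open Classical

set_option linter.unusedSectionVars false
set_option linter.unusedVariables false
set_option maxHeartbeats 2000000

section

variable {Ω I Nm : Type} [LinearOrder Ω] [LinearOrder I] [WellFoundedLT I] [WellFoundedLT Ω]
variable {cd : Nm → Ω → Ω → ℕ → Set (Cd Ω I Nm)}

/-- a bound below a limit -/
theorem exists_lim_bound {δ : Ω} (hδ : IsLim δ) (s : Finset Ω) :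
    ∃ k, k < δ ∧ ∀ x ∈ s, x < δ → x < k := by
  induction s using Finset.induction_on with
  | empty =>
    obtain ⟨x, hx⟩ := hδ.1
    exact ⟨x, hx, by simp⟩
  | insert a s ha ih =>
    obtain ⟨γ, h1, h2⟩ := ih
    by_cases haδ : a < δ
    · obtain ⟨γ', h3, h4⟩ := hδ.2 a haδ
      refine ⟨max γ γ', max_lt h1 h4, fun y hy hyδ => ?_⟩
      rcases Finset.mem_insert.1 hy with rfl | hy
      · exact h3.trans_le (le_max_right _ _)
      · exact (h2 y hy hyδ).trans_le (le_max_left _ _)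
    · refine ⟨γ, h1, fun y hy hyδ => ?_⟩
      rcases Finset.mem_insert.1 hy with rfl | hy
      · exact absurd hyδ haδ
      · exact h2 y hy hyδ

/-- ordinals which matter for promises -/
noncomputable def Atom.lv : Atom Ω Nm → Finset Ω
  | .node t => {t.1}
  | .dec _ _ _ G => G.image Prod.fst
  | _ => ∅

/-- adding a promise -/
theorem Vt.add_pr {p : Cd Ω I Nm} (hp : Vt cd p) (i : I) (t : Ω × ℕ) (ht : IsLim t.1)
    (hnode : (i, Atom.node t) ∈ p) (f : Nm) (hf : Legit cd (V cd i) f) :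
    ∃ k, k < t.1 ∧ ∃ q, p ⊆ q ∧ Vt cd q ∧ (i, Atom.pr t f k) ∈ q := by
  have X := (hp i).ok
  obtain ⟨k, hk, hk'⟩ := exists_lim_bound ht (p.biUnion fun x => x.2.lv)
  have hn : ∀ u, (i, Atom.node u) ∈ p → u.1 < t.1 → u.1 < k := fun u hu =>
    hk' _ (Finset.mem_biUnion.2 ⟨_, hu, by simp [Atom.lv]⟩)
  have hG : ∀ β f l G, (i, Atom.dec β f l G) ∈ p → ∀ ξ m, (ξ, m) ∈ G → ξ < t.1 → ξ < k :=
    fun β f l G h ξ m hξ => hk' _ (Finset.mem_biUnion.2 ⟨_, h,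
      Finset.mem_image.2 ⟨(ξ, m), hξ, rfl⟩⟩)
  refine ⟨k, hk, LadderTree.addS p i {.pr t f k}, subset_addS _ _ _, ?_,
    mem_addS.2 (Or.inr ⟨rfl, Finset.mem_singleton_self _⟩)⟩
  refine hp.addS ?_ (fun β f l G h => by simp at h) (fun t' f' l' h => ?_)
  swap
  · rw [Finset.mem_singleton] at h
    cases h
    exact hf
  constructor
  · intro a b h
    simp only [Finset.mem_singleton, reduceCtorEq, or_false] at h ⊢
    exact X.lt_node _ _ h
  · simp only [Finset.mem_singleton, reduceCtorEq, or_false]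
    exact X.lt_trans
  · simp only [Finset.mem_singleton, reduceCtorEq, or_false]
    exact X.lt_tree
  · simp only [Finset.mem_singleton, reduceCtorEq, or_false]
    exact X.sp_uniq
  · simp only [Finset.mem_singleton, reduceCtorEq, or_false]
    exact X.sp_lt
  · simp only [Finset.mem_singleton, reduceCtorEq, or_false]
    exact X.lab_uniq
  · simp only [Finset.mem_singleton, reduceCtorEq, or_false]
    exact X.coh_uniq
  · simp only [Finset.mem_singleton, reduceCtorEq, or_false, Atom.pr.injEq]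
    rintro a b c (h | ⟨rfl, rfl, rfl⟩)
    · exact X.pr_node _ _ _ h
    · exact ⟨hnode, hk, ht⟩
  · simp only [Finset.mem_singleton, reduceCtorEq, or_false, Atom.pr.injEq]
    rintro a b c d h (h1 | ⟨rfl, rfl, rfl⟩) h2
    · exact X.v1 _ _ _ _ h h1 h2
    · exact absurd (hn _ (X.lt_node _ _ h).1 (X.lt_node _ _ h).2.2) (not_lt.2 h2)
  · simp only [Finset.mem_singleton, reduceCtorEq, or_false, Atom.pr.injEq]
    rintro a b c d h (h1 | ⟨rfl, rfl, rfl⟩) h2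
    · exact X.v2a _ _ _ _ h h1 h2
    · exact absurd (hn _ (X.lt_node _ _ h).1 (X.lt_node _ _ h).2.2) (not_lt.2 h2)
  · simp only [Finset.mem_singleton, reduceCtorEq, or_false, Atom.pr.injEq]
    rintro a b c d e g m n h (h1 | ⟨rfl, rfl, rfl⟩) h2
    · exact X.v2b _ _ _ _ _ _ _ _ h h1 h2
    · exact absurd (hn _ (X.lt_node _ _ h).1 (X.lt_node _ _ h).2.2) (not_lt.2 h2)
  · simp only [Finset.mem_singleton, reduceCtorEq, or_false, Atom.pr.injEq, Le]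
    have key : ∀ (u t₂ : Ω × ℕ) f' (l₂ : Ω) (G₂ : Finset (Ω × ℕ)) (ξ : Ω) (m₂ : ℕ),
        (u = t ∨ (i, Atom.lt u t) ∈ p) → (i, Atom.dec t₂.1 f' l₂ G₂) ∈ p → (ξ, m₂) ∈ G₂ →
        ξ < u.1 → k ≤ ξ → False := by
      intro u t₂ f' l₂ G₂ ξ m₂ h1 h2 h3 h4 h5
      rcases h1 with rfl | h1
      · exact absurd (hG _ _ _ _ h2 _ _ h3 h4) (not_lt.2 h5)
      · obtain ⟨n1, n2, n3⟩ := X.lt_node _ _ h1
        exact absurd ((hn _ n1 n3).trans_le h5) (not_lt.2 h4.le)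
    intro u t₁ t₂ f' k₁ k₂ l₁ l₂ G₁ G₂ ξ m₁ m₂ a1 b1 a2 b2 a3 b3 a4 b4 hξ hk1 hk2
    rcases a2 with a2 | ⟨rfl, rfl, rfl⟩
    · rcases b2 with b2 | ⟨rfl, rfl, rfl⟩
      · exact X.v3 u t₁ t₂ f' k₁ k₂ l₁ l₂ G₁ G₂ ξ m₁ m₂ a1 b1 a2 b2 a3 b3 a4 b4 hξ hk1 hk2
      · exact (key _ _ _ _ _ _ _ b1 b3 b4 hξ hk2).elim
    · exact (key _ _ _ _ _ _ _ a1 a3 a4 hξ hk1).elim
  · simp only [Finset.mem_singleton, reduceCtorEq, or_false, Atom.pr.injEq]
    intro t₁ t₂ f' k₁ k₂ l₂ G₂ ξ m h1 h2 h3 h4 h5 h6 h7 h8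
    rcases h2 with h2 | ⟨rfl, rfl, rfl⟩
    · rcases h3 with h3 | ⟨rfl, rfl, rfl⟩
      · exact X.v3' _ _ _ _ _ _ _ _ _ h1 h2 h3 h4 h5 h6 h7 h8
      · have := hn _ (X.lt_node _ _ h1).1 (X.lt_node _ _ h1).2.2
        exact absurd (this.trans_le h8) (not_lt.2 h6.le)
    · exact absurd (hG _ _ _ _ h4 _ _ h5 h6) (not_lt.2 h7)

/-- adding a node above a given one -/
theorem Vt.add_above {p : Cd Ω I Nm} (hp : Vt cd p) (i : I) (t : Ω × ℕ)
    (hnode : (i, Atom.node t) ∈ p) (ξ : Ω) (hξ : t.1 < ξ) :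
    ∃ q, p ⊆ q ∧ Vt cd q ∧ ∃ m, (i, Atom.lt t (ξ, m)) ∈ q := by
  have X := (hp i).ok
  obtain ⟨m, hm⟩ := exists_fresh p
  let s : Ω × ℕ := (ξ, m)
  let N : Atom Ω Nm → Prop := fun a => a = .node s ∨ a = .lt t s ∨
    ∃ x, (i, Atom.lt x t) ∈ p ∧ a = .lt x s
  have hfin : {a | N a}.Finite := by
    refine Set.Finite.subset (s := (((p.image fun y => match y.2 with
      | .lt x _ => Atom.lt x s
      | _ => Atom.node s) ∪ {.node s, .lt t s} : Finset (Atom Ω Nm)) : Set (Atom Ω Nm)))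
      (Finset.finite_toSet _) ?_
    rintro a (rfl | rfl | ⟨x, hx, rfl⟩)
    · simp
    · simp
    · exact Finset.mem_coe.2 (Finset.mem_union_left _ (Finset.mem_image.2 ⟨_, hx, rfl⟩))
  have hS : ∀ a, a ∈ hfin.toFinset ↔ N a := fun a => by
    rw [Set.Finite.mem_toFinset]; exact Iff.rfl
  -- freshness
  have f1 : (i, Atom.node s) ∉ p := fun h => hm _ _ h (by simp [Atom.nums, s])
  have f2 : ∀ x, (i, Atom.lt x s) ∉ p := fun x h => hm _ _ h (by simp [Atom.nums, s])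
  have f3 : ∀ x, (i, Atom.lt s x) ∉ p := fun x h => hm _ _ h (by simp [Atom.nums, s])
  have f4 : ∀ r, (i, Atom.sp s r) ∉ p := fun x h => hm _ _ h (by simp [Atom.nums, s])
  have f5 : ∀ f k, (i, Atom.pr s f k) ∉ p := fun x k h => hm _ _ h (by simp [Atom.nums, s])
  have hts : t ≠ s := fun h => f1 (h ▸ hnode)
  refine ⟨LadderTree.addS p i hfin.toFinset, subset_addS _ _ _, ?_, m,
    mem_addS.2 (Or.inr ⟨rfl, (hS _).2 (Or.inr (Or.inl rfl))⟩)⟩
  -- membership in the new condition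
  have nlt : ∀ x y, ((i, Atom.lt x y) ∈ p ∨ Atom.lt x y ∈ hfin.toFinset) ↔
      ((i, Atom.lt x y) ∈ p ∨ (y = s ∧ (x = t ∨ (i, Atom.lt x t) ∈ p))) := by
    intro x y
    rw [hS]
    simp only [N, Atom.lt.injEq, reduceCtorEq, false_or]
    refine or_congr_right ?_
    constructor
    · rintro (⟨rfl, rfl⟩ | ⟨z, hz, rfl, rfl⟩)
      · exact ⟨rfl, Or.inl rfl⟩
      · exact ⟨rfl, Or.inr hz⟩
    · rintro ⟨rfl, rfl | h⟩
      · exact Or.inl ⟨rfl, rfl⟩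
      · exact Or.inr ⟨x, h, rfl, rfl⟩
  have nnode : ∀ x, ((i, Atom.node x) ∈ p ∨ Atom.node x ∈ hfin.toFinset) ↔
      ((i, Atom.node x) ∈ p ∨ x = s) := by
    intro x
    rw [hS]
    simp [N]
  have nsp : ∀ x r, ((i, Atom.sp x r) ∈ p ∨ Atom.sp x r ∈ hfin.toFinset) ↔
      (i, Atom.sp x r) ∈ p := fun x r => by rw [hS]; simp [N]
  have nlab : ∀ x f r, ((i, Atom.lab x f r) ∈ p ∨ Atom.lab x f r ∈ hfin.toFinset) ↔
      (i, Atom.lab x f r) ∈ p := fun x f r => by rw [hS]; simp [N]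
  have npr : ∀ x f r, ((i, Atom.pr x f r) ∈ p ∨ Atom.pr x f r ∈ hfin.toFinset) ↔
      (i, Atom.pr x f r) ∈ p := fun x f r => by rw [hS]; simp [N]
  have ndec : ∀ x f r G, ((i, Atom.dec x f r G) ∈ p ∨ Atom.dec x f r G ∈ hfin.toFinset) ↔
      (i, Atom.dec x f r G) ∈ p := fun x f r G => by rw [hS]; simp [N]
  have ncoh : ∀ x f r, ((i, Atom.coh x f r) ∈ p ∨ Atom.coh x f r ∈ hfin.toFinset) ↔
      (i, Atom.coh x f r) ∈ p := fun x f r => by rw [hS]; simp [N]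
  have hle : ∀ x, (x = t ∨ (i, Atom.lt x t) ∈ p) → x.1 ≤ t.1 ∧ (i, Atom.node x) ∈ p := by
    rintro x (rfl | h)
    · exact ⟨le_rfl, hnode⟩
    · exact ⟨(X.lt_node _ _ h).2.2.le, (X.lt_node _ _ h).1⟩
  refine hp.addS ?_ (fun β f l G h => by rw [hS] at h; simp [N] at h)
    (fun β f l h => by rw [hS] at h; simp [N] at h)
  constructor <;> simp only [nlt, nnode, nsp, nlab, npr, ndec, ncoh, Le]
  · rintro a b (h | ⟨rfl, h⟩)
    · obtain ⟨h1, h2, h3⟩ := X.lt_node _ _ h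
      exact ⟨Or.inl h1, Or.inl h2, h3⟩
    · obtain ⟨h1, h2⟩ := hle _ h
      exact ⟨Or.inl h2, Or.inr rfl, h1.trans_lt hξ⟩
  · rintro a b c (h | ⟨rfl, h⟩) (h' | ⟨rfl, h'⟩)
    · exact Or.inl (X.lt_trans _ _ _ h h')
    · right
      refine ⟨rfl, Or.inr ?_⟩
      rcases h' with rfl | h'
      · exact h
      · exact X.lt_trans _ _ _ h h'
    · exact absurd h' (f3 _)
    · rcases h' with h' | h'
      · exact absurd h'.symm hts
      · exact absurd h' (f3 _)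
  · rintro a b c (h | ⟨rfl, h⟩) (h' | ⟨h0, h'⟩)
    · rcases X.lt_tree _ _ _ h h' with h | h | h
      · exact Or.inl h
      · exact Or.inr (Or.inl (Or.inl h))
      · exact Or.inr (Or.inr (Or.inl h))
    · subst h0
      exact absurd h (f2 _)
    · exact absurd h' (f2 _)
    · rcases h with rfl | h <;> rcases h' with rfl | h'
      · exact Or.inl rfl
      · exact Or.inr (Or.inr (Or.inl h'))
      · exact Or.inr (Or.inl (Or.inl h))
      · rcases X.lt_tree _ _ _ h h' with h | h | h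
        · exact Or.inl h
        · exact Or.inr (Or.inl (Or.inl h))
        · exact Or.inr (Or.inr (Or.inl h))
  · exact X.sp_uniq
  · rintro a b c d (h | ⟨rfl, h⟩) h1 h2
    · exact X.sp_lt _ _ _ _ h h1 h2
    · exact absurd h2 (f4 _)
  · exact X.lab_uniq
  · exact X.coh_uniq
  · intro a b c h
    obtain ⟨h1, h2⟩ := X.pr_node _ _ _ h
    exact ⟨Or.inl h1, h2⟩
  · rintro a b c d (h | ⟨rfl, h⟩) h1 h2
    · exact X.v1 _ _ _ _ h h1 h2
    · exact absurd h1 (f5 _ _)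
  · rintro a b c d (h | ⟨rfl, h⟩) h1 h2
    · exact X.v2a _ _ _ _ h h1 h2
    · exact absurd h1 (f5 _ _)
  · rintro a b c d e g m' n (h | ⟨rfl, h⟩) h1 h2
    · exact X.v2b _ _ _ _ _ _ _ _ h h1 h2
    · exact absurd h1 (f5 _ _)
  · intro u t₁ t₂ f' k₁ k₂ l₁ l₂ G₁ G₂ ξ' m₁ m₂ a1 b1 a2 b2
    have a1' : Le (fun a => (i, a) ∈ p) u t₁ := by
      rcases a1 with h | h | ⟨rfl, h⟩
      · exact Or.inl h
      · exact Or.inr h
      · exact absurd a2 (f5 _ _)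
    have b1' : Le (fun a => (i, a) ∈ p) u t₂ := by
      rcases b1 with h | h | ⟨rfl, h⟩
      · exact Or.inl h
      · exact Or.inr h
      · exact absurd b2 (f5 _ _)
    exact X.v3 u t₁ t₂ f' k₁ k₂ l₁ l₂ G₁ G₂ ξ' m₁ m₂ a1' b1' a2 b2
  · rintro t₁ t₂ f' k₁ k₂ l₂ G₂ ξ' m' (h | ⟨rfl, h⟩) h2 h3
    · exact X.v3' _ _ _ _ _ _ _ _ _ h h2 h3
    · exact absurd h3 (f5 _ _)

/-- adding a node below a given one -/
theorem Vt.add_below {p₀ : Cd Ω I Nm} (hp₀ : Vt cd p₀) (i : I) (t : Ω × ℕ)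
    (hnode₀ : (i, Atom.node t) ∈ p₀) (ξ : Ω) (hξ : ξ < t.1) :
    ∃ q, p₀ ⊆ q ∧ Vt cd q ∧ ∃ m, (i, Atom.lt (ξ, m) t) ∈ q := by
  by_cases hex : ∃ m, (i, Atom.lt (ξ, m) t) ∈ p₀
  · exact ⟨p₀, subset_rfl, hp₀, hex⟩
  push Not at hex
  have X₀ := (hp₀ i).ok
  -- the least node above level `ξ`
  obtain ⟨u, ⟨hut₀, hξu⟩, humin₀⟩ : ∃ u : Ω × ℕ, (Le (fun a => (i, a) ∈ p₀) u t ∧ ξ < u.1) ∧
      ∀ x : Ω × ℕ, Le (fun a => (i, a) ∈ p₀) x t → ξ < x.1 → u.1 ≤ x.1 := by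
    have hne : {x : Ω × ℕ | Le (fun a => (i, a) ∈ p₀) x t ∧ ξ < x.1}.Nonempty :=
      ⟨t, Or.inl rfl, hξ⟩
    have hwf : WellFounded (fun x y : Ω × ℕ => x.1 < y.1) :=
      InvImage.wf Prod.fst (wellFounded_lt (α := Ω))
    refine ⟨hwf.min _ hne, hwf.min_mem _ hne, fun x hx hx' => ?_⟩
    have h0 : x ∈ {x : Ω × ℕ | Le (fun a => (i, a) ∈ p₀) x t ∧ ξ < x.1} :=
      show Le (fun a => (i, a) ∈ p₀) x t ∧ ξ < x.1 from ⟨hx, hx'⟩
    exact not_lt.1 (hwf.not_lt_min _ h0)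
  -- decide the ladders promised at `u`
  have hufin : {f | ∃ k, (i, Atom.pr u f k) ∈ p₀}.Finite := by
    refine (nms_finite p₀).subset ?_
    rintro f ⟨k, hk⟩
    exact ⟨_, hk, rfl⟩
  obtain ⟨p, hE, hdecs⟩ : ∃ p, Ext cd i p₀ p ∧ ∀ f k, (i, Atom.pr u f k) ∈ p₀ →
      ∃ l G, (i, Atom.dec u.1 f l G) ∈ p ∧ ξ < l := by
    by_cases hlim : IsLim u.1
    · obtain ⟨l, hl, hl'⟩ := hlim.2 ξ hξu
      obtain ⟨p, h1, h2⟩ := hp₀.add_decs i hufin.toFinset (fun f hf => by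
        rw [Set.Finite.mem_toFinset] at hf
        obtain ⟨k, hk⟩ := hf
        exact (hp₀ i).pr _ _ _ hk) hl'
      refine ⟨p, h1, fun f k hk => ?_⟩
      obtain ⟨G, hG⟩ := h2 f ((Set.Finite.mem_toFinset _).2 ⟨k, hk⟩)
      exact ⟨l, G, hG, hl⟩
    · exact ⟨p₀, ⟨subset_rfl, hp₀, fun a => Or.inl⟩,
        fun f k hk => absurd (X₀.pr_node _ _ _ hk).2.2 hlim⟩
  have hp := hE.vt
  have X := (hp i).ok
  -- transfer of facts
  have elt : ∀ x y, (i, Atom.lt x y) ∈ p ↔ (i, Atom.lt x y) ∈ p₀ := fun x y =>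
    ⟨fun h => (hE.eq _ h).elim id (fun ⟨β, f, l, G, h⟩ => by cases h), fun h => hE.sub h⟩
  have epr : ∀ x y k, (i, Atom.pr x y k) ∈ p ↔ (i, Atom.pr x y k) ∈ p₀ := fun x y k =>
    ⟨fun h => (hE.eq _ h).elim id (fun ⟨β, f, l, G, h⟩ => by cases h), fun h => hE.sub h⟩
  have hnode : (i, Atom.node t) ∈ p := hE.sub hnode₀
  have hut : Le (fun a => (i, a) ∈ p) u t := hut₀.elim Or.inl (fun h => Or.inr (hE.sub h))
  have humin : ∀ x : Ω × ℕ, Le (fun a => (i, a) ∈ p) x t → ξ < x.1 → u.1 ≤ x.1 :=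
    fun x hx => humin₀ x (hx.elim Or.inl fun h => Or.inr ((elt _ _).1 h))
  have hunode : (i, Atom.node u) ∈ p := by
    rcases hut with rfl | h
    · exact hnode
    · exact (X.lt_node _ _ h).1
  have hbelow : ∀ x, (i, Atom.lt x u) ∈ p → x.1 < ξ := by
    intro x hx
    have hxt : (i, Atom.lt x t) ∈ p := by
      rcases hut with rfl | h
      · exact hx
      · exact X.lt_trans _ _ _ hx h
    rcases lt_trichotomy x.1 ξ with h | h | h
    · exact h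
    · exfalso
      refine hex x.2 ((elt _ _).1 ?_)
      rw [← h]; exact hxt
    · exact absurd (humin x (Or.inr hxt) h) (not_le.2 (X.lt_node _ _ hx).2.2)
  -- labels
  let P : Nm → ℕ → Prop := fun f c => ∃ y k l G, Le (fun a => (i, a) ∈ p) u y ∧
    (i, Atom.pr y f k) ∈ p ∧ (i, Atom.dec y.1 f l G) ∈ p ∧ k ≤ ξ ∧ (ξ, c) ∈ G
  let cf : Nm → ℕ := fun f => if h : ∃ c, P f c then h.choose else 0
  have hcf : ∀ f c, P f c → c = cf f := by
    intro f c hc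
    have hex' : ∃ c, P f c := ⟨c, hc⟩
    have h1 : P f (cf f) := by
      simp only [cf, dif_pos hex']
      exact hex'.choose_spec
    obtain ⟨y, k, l, G, a1, a2, a3, a4, a5⟩ := hc
    obtain ⟨y', k', l', G', b1, b2, b3, b4, b5⟩ := h1
    exact X.v3 u y y' f k k' l l' G G' ξ _ _ a1 b1 a2 b2 a3 b3 a5 b5 hξu a4 b4
  obtain ⟨m, hm⟩ := exists_fresh p
  let s : Ω × ℕ := (ξ, m)
  let N : Atom Ω Nm → Prop := fun a => a = .node s ∨ a = .lt s u ∨
    (∃ x, (i, Atom.lt x u) ∈ p ∧ a = .lt x s) ∨ (∃ x, (i, Atom.lt u x) ∈ p ∧ a = .lt s x) ∨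
    ∃ x f k, Le (fun a => (i, a) ∈ p) u x ∧ (i, Atom.pr x f k) ∈ p ∧ a = .lab s f (cf f)
  have hfin : {a | N a}.Finite := by
    refine Set.Finite.subset (s := (((p.image fun y => match y.2 with
      | .lt x _ => Atom.lt x s
      | _ => Atom.node s) ∪ (p.image fun y => match y.2 with
      | .lt _ x => Atom.lt s x
      | _ => Atom.node s) ∪ (p.image fun y => match y.2 with
      | .pr _ f _ => Atom.lab s f (cf f)
      | _ => Atom.node s) ∪ {.node s, .lt s u} : Finset (Atom Ω Nm)) : Set (Atom Ω Nm)))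
      (Finset.finite_toSet _) ?_
    rintro a (rfl | rfl | ⟨x, hx, rfl⟩ | ⟨x, hx, rfl⟩ | ⟨x, f, k, hx, hx', rfl⟩)
    · simp
    · simp
    · exact Finset.mem_coe.2 (Finset.mem_union_left _ (Finset.mem_union_left _
        (Finset.mem_union_left _ (Finset.mem_image.2 ⟨_, hx, rfl⟩))))
    · exact Finset.mem_coe.2 (Finset.mem_union_left _ (Finset.mem_union_left _
        (Finset.mem_union_right _ (Finset.mem_image.2 ⟨_, hx, rfl⟩))))
    · exact Finset.mem_coe.2 (Finset.mem_union_left _ (Finset.mem_union_right _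
        (Finset.mem_image.2 ⟨_, hx', rfl⟩)))
  have hS : ∀ a, a ∈ hfin.toFinset ↔ N a := fun a => by
    rw [Set.Finite.mem_toFinset]; exact Iff.rfl
  -- freshness
  have f1 : (i, Atom.node s) ∉ p := fun h => hm _ _ h (by simp [Atom.nums, s])
  have f2 : ∀ x, (i, Atom.lt x s) ∉ p := fun x h => hm _ _ h (by simp [Atom.nums, s])
  have f3 : ∀ x, (i, Atom.lt s x) ∉ p := fun x h => hm _ _ h (by simp [Atom.nums, s])
  have f4 : ∀ r, (i, Atom.sp s r) ∉ p := fun x h => hm _ _ h (by simp [Atom.nums, s])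
  have f5 : ∀ f k, (i, Atom.pr s f k) ∉ p := fun x k h => hm _ _ h (by simp [Atom.nums, s])
  have f6 : ∀ f k, (i, Atom.lab s f k) ∉ p := fun x k h => hm _ _ h (by simp [Atom.nums, s])
  have hus : u ≠ s := fun h => f1 (h ▸ hunode)
  have irr : ∀ x, (i, Atom.lt x x) ∉ p := fun x h => lt_irrefl _ (X.lt_node _ _ h).2.2
  have hst : (i, Atom.lt s t) ∈ LadderTree.addS p i hfin.toFinset := by
    refine mem_addS.2 (Or.inr ⟨rfl, (hS _).2 ?_⟩)
    rcases hut with rfl | h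
    · exact Or.inr (Or.inl rfl)
    · exact Or.inr (Or.inr (Or.inr (Or.inl ⟨t, h, rfl⟩)))
  refine ⟨LadderTree.addS p i hfin.toFinset, hE.sub.trans (subset_addS _ _ _), ?_, m, hst⟩
  -- membership in the new condition
  have nlt : ∀ x y, ((i, Atom.lt x y) ∈ p ∨ Atom.lt x y ∈ hfin.toFinset) ↔
      ((i, Atom.lt x y) ∈ p ∨ (y = s ∧ (i, Atom.lt x u) ∈ p) ∨
        (x = s ∧ (u = y ∨ (i, Atom.lt u y) ∈ p))) := by
    intro x y
    rw [hS]
    simp only [N, Atom.lt.injEq, reduceCtorEq, false_or]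
    refine or_congr_right ?_
    constructor
    · rintro (⟨rfl, rfl⟩ | ⟨z, hz, rfl, rfl⟩ | ⟨z, hz, rfl, rfl⟩ | ⟨_, _, _, _, _, h⟩)
      · exact Or.inr ⟨rfl, Or.inl rfl⟩
      · exact Or.inl ⟨rfl, hz⟩
      · exact Or.inr ⟨rfl, Or.inr hz⟩
      · exact h.elim
    · rintro (⟨rfl, h⟩ | ⟨rfl, rfl | h⟩)
      · exact Or.inr (Or.inl ⟨x, h, rfl, rfl⟩)
      · exact Or.inl ⟨rfl, rfl⟩
      · exact Or.inr (Or.inr (Or.inl ⟨y, h, rfl, rfl⟩))
  have nnode : ∀ x, ((i, Atom.node x) ∈ p ∨ Atom.node x ∈ hfin.toFinset) ↔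
      ((i, Atom.node x) ∈ p ∨ x = s) := by
    intro x
    rw [hS]
    simp [N]
  have nsp : ∀ x r, ((i, Atom.sp x r) ∈ p ∨ Atom.sp x r ∈ hfin.toFinset) ↔
      (i, Atom.sp x r) ∈ p := fun x r => by rw [hS]; simp [N]
  have nlab : ∀ x f r, ((i, Atom.lab x f r) ∈ p ∨ Atom.lab x f r ∈ hfin.toFinset) ↔
      ((i, Atom.lab x f r) ∈ p ∨ (x = s ∧ r = cf f ∧
        ∃ y k, Le (fun a => (i, a) ∈ p) u y ∧ (i, Atom.pr y f k) ∈ p)) := by
    intro x f r
    rw [hS]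
    simp only [N, reduceCtorEq, and_false, exists_false, false_or, Atom.lab.injEq]
    refine or_congr_right ?_
    constructor
    · rintro ⟨y, g, k, h1, h2, rfl, rfl, rfl⟩
      exact ⟨rfl, rfl, y, k, h1, h2⟩
    · rintro ⟨rfl, rfl, y, k, h1, h2⟩
      exact ⟨y, f, k, h1, h2, rfl, rfl, rfl⟩
  have npr : ∀ x f r, ((i, Atom.pr x f r) ∈ p ∨ Atom.pr x f r ∈ hfin.toFinset) ↔
      (i, Atom.pr x f r) ∈ p := fun x f r => by rw [hS]; simp [N]
  have ndec : ∀ x f r G, ((i, Atom.dec x f r G) ∈ p ∨ Atom.dec x f r G ∈ hfin.toFinset) ↔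
      (i, Atom.dec x f r G) ∈ p := fun x f r G => by rw [hS]; simp [N]
  have ncoh : ∀ x f r, ((i, Atom.coh x f r) ∈ p ∨ Atom.coh x f r ∈ hfin.toFinset) ↔
      (i, Atom.coh x f r) ∈ p := fun x f r => by rw [hS]; simp [N]
  refine hp.addS ?_ (fun β f l G h => by rw [hS] at h; simp [N] at h)
    (fun β f l h => by rw [hS] at h; simp [N] at h)
  constructor <;> simp only [nlt, nnode, nsp, nlab, npr, ndec, ncoh, Le]
  · rintro a b (h | ⟨rfl, h⟩ | ⟨rfl, h⟩)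
    · obtain ⟨h1, h2, h3⟩ := X.lt_node _ _ h
      exact ⟨Or.inl h1, Or.inl h2, h3⟩
    · exact ⟨Or.inl (X.lt_node _ _ h).1, Or.inr rfl, hbelow _ h⟩
    · rcases h with rfl | h
      · exact ⟨Or.inr rfl, Or.inl hunode, hξu⟩
      · exact ⟨Or.inr rfl, Or.inl (X.lt_node _ _ h).2.1, hξu.trans (X.lt_node _ _ h).2.2⟩
  · rintro a b c (h | ⟨rfl, h⟩ | ⟨rfl, h⟩) (h' | ⟨h0, h'⟩ | ⟨h0, h'⟩)
    · exact Or.inl (X.lt_trans _ _ _ h h')
    · exact Or.inr (Or.inl ⟨h0, X.lt_trans _ _ _ h h'⟩)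
    · subst h0; exact absurd h (f2 _)
    · exact absurd h' (f3 _)
    · exact absurd h' (f3 _)
    · rcases h' with rfl | h'
      · exact Or.inl h
      · exact Or.inl (X.lt_trans _ _ _ h h')
    · right; right
      refine ⟨rfl, Or.inr ?_⟩
      rcases h with rfl | h
      · exact h'
      · exact X.lt_trans _ _ _ h h'
    · exfalso
      rcases h with rfl | h
      · exact irr _ h'
      · exact irr _ (X.lt_trans _ _ _ h h')
    · subst h0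
      rcases h with h | h
      · exact absurd h hus
      · exact absurd h (f2 _)
  · have aux : ∀ a c, (i, Atom.lt a c) ∈ p → (u = c ∨ (i, Atom.lt u c) ∈ p) →
        (i, Atom.lt a u) ∈ p ∨ (u = a ∨ (i, Atom.lt u a) ∈ p) := by
      rintro a c h (rfl | h')
      · exact Or.inl h
      · rcases X.lt_tree _ _ _ h h' with h | h | h
        · exact Or.inr (Or.inl h.symm)
        · exact Or.inl h
        · exact Or.inr (Or.inr h)
    rintro a b c (h | ⟨h0, h⟩ | ⟨h0, h⟩) (h' | ⟨h0', h'⟩ | ⟨h0', h'⟩)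
    · rcases X.lt_tree _ _ _ h h' with h | h | h
      · exact Or.inl h
      · exact Or.inr (Or.inl (Or.inl h))
      · exact Or.inr (Or.inr (Or.inl h))
    · subst h0'; exact absurd h (f2 _)
    · subst h0'
      rcases aux a c h h' with h | h
      · exact Or.inr (Or.inl (Or.inr (Or.inl ⟨rfl, h⟩)))
      · exact Or.inr (Or.inr (Or.inr (Or.inr ⟨rfl, h⟩)))
    · subst h0; exact absurd h' (f2 _)
    · rcases X.lt_tree _ _ _ h h' with h | h | h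
      · exact Or.inl h
      · exact Or.inr (Or.inl (Or.inl h))
      · exact Or.inr (Or.inr (Or.inl h))
    · subst h0
      rcases h' with h' | h'
      · exact absurd h' hus
      · exact absurd h' (f2 _)
    · subst h0
      rcases aux b c h' h with h | h
      · exact Or.inr (Or.inr (Or.inr (Or.inl ⟨rfl, h⟩)))
      · exact Or.inr (Or.inl (Or.inr (Or.inr ⟨rfl, h⟩)))
    · subst h0'
      rcases h with h | h
      · exact absurd h hus
      · exact absurd h (f2 _)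
    · exact Or.inl (h0.trans h0'.symm)
  · exact X.sp_uniq
  · rintro a b c d (h | ⟨rfl, h⟩ | ⟨rfl, h⟩) h1 h2
    · exact X.sp_lt _ _ _ _ h h1 h2
    · exact absurd h2 (f4 _)
    · exact absurd h1 (f4 _)
  · rintro a b c d (h | ⟨rfl, h, _⟩) (h' | ⟨h0, h', _⟩)
    · exact X.lab_uniq _ _ _ _ h h'
    · subst h0; exact absurd h (f6 _ _)
    · exact absurd h' (f6 _ _)
    · rw [h, h']
  · exact X.coh_uniq
  · intro a b c h
    obtain ⟨h1, h2⟩ := X.pr_node _ _ _ h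
    exact ⟨Or.inl h1, h2⟩
  · rintro a b c d (h | ⟨rfl, h⟩ | ⟨rfl, h⟩) h1 h2
    · exact X.v1 _ _ _ _ h h1 h2
    · exact absurd h1 (f5 _ _)
    · rcases h with rfl | h
      · exact hdecs c d ((epr _ _ _).1 h1)
      · obtain ⟨l, G, h3, h4⟩ := X.v1 _ _ _ _ h h1 (h2.trans hξu.le)
        exact ⟨l, G, h3, hξu.trans h4⟩
  · rintro a b c d (h | ⟨rfl, h⟩ | ⟨rfl, h⟩) h1 h2
    · obtain ⟨c', h3⟩ := X.v2a _ _ _ _ h h1 h2
      exact ⟨c', Or.inl h3⟩
    · exact absurd h1 (f5 _ _)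
    · exact ⟨cf c, Or.inr ⟨rfl, rfl, b, d, h, h1⟩⟩
  · rintro a b c d e g m' n (h | ⟨rfl, h⟩ | ⟨rfl, h⟩) h1 h2 h3 h4 h5
    · rcases h5 with h5 | ⟨rfl, h5⟩
      · exact X.v2b _ _ _ _ _ _ _ _ h h1 h2 h3 h4 h5
      · exact absurd h (f3 _)
    · exact absurd h1 (f5 _ _)
    · rcases h5 with h5 | ⟨_, rfl, h5⟩
      · exact absurd h5 (f6 _ _)
      · exact hcf _ _ ⟨b, d, e, g, h, h1, h3, h2, h4⟩
  · intro w t₁ t₂ f' k₁ k₂ l₁ l₂ G₁ G₂ ξ' m₁ m₂ a1 b1 a2 b2 a3 b3 a4 b4 hξ' hk1 hk2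
    have red : ∀ t' k', (w = t' ∨ (i, Atom.lt w t') ∈ p ∨ (t' = s ∧ (i, Atom.lt w u) ∈ p) ∨
        (w = s ∧ (u = t' ∨ (i, Atom.lt u t') ∈ p))) → (i, Atom.pr t' f' k') ∈ p →
        (w = s → Le (fun a => (i, a) ∈ p) u t') ∧ (w ≠ s → Le (fun a => (i, a) ∈ p) w t') := by
      rintro t' k' h hpr
      have hts : t' ≠ s := fun h => f5 _ _ (h ▸ hpr)
      rcases h with h | h | ⟨h, _⟩ | ⟨rfl, h⟩
      · exact ⟨fun h' => absurd (h.symm.trans h') hts, fun _ => Or.inl h⟩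
      · refine ⟨?_, fun _ => Or.inr h⟩
        rintro rfl; exact absurd h (f3 _)
      · exact absurd h hts
      · exact ⟨fun _ => h, fun h' => absurd rfl h'⟩
    obtain ⟨a5, a6⟩ := red _ _ a1 a2
    obtain ⟨b5, b6⟩ := red _ _ b1 b2
    by_cases hw : w = s
    · have hξ'' : ξ' < u.1 := by
        rw [hw] at hξ'
        exact hξ'.trans hξu
      exact X.v3 u t₁ t₂ f' k₁ k₂ l₁ l₂ G₁ G₂ ξ' m₁ m₂ (a5 hw) (b5 hw) a2 b2 a3 b3 a4 b4 hξ''
        hk1 hk2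
    · exact X.v3 w t₁ t₂ f' k₁ k₂ l₁ l₂ G₁ G₂ ξ' m₁ m₂ (a6 hw) (b6 hw) a2 b2 a3 b3 a4 b4 hξ'
        hk1 hk2
  · rintro t₁ t₂ f' k₁ k₂ l₂ G₂ ξ' m' (h | ⟨rfl, h⟩ | ⟨rfl, h⟩) h2 h3
    · exact X.v3' _ _ _ _ _ _ _ _ _ h h2 h3
    · exact absurd h3 (f5 _ _)
    · exact absurd h2 (f5 _ _)

end

end Pool.Agent.LadderTree
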