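import Pool.Agent.LadderTree.Poset
import Pool.Agent.LadderTree.Values

/-!
# The generic trees, labellings and colourings
-/

namespace Pool.Agent.LadderTree

open Classical Pool.Agent.Forcing

set_option linter.unusedSectionVars false
set_option linter.unusedVariables false
set_option maxHeartbeats 2000000

section

variable {Ω I : Type} [LinearOrder Ω] [LinearOrder I] [WellFoundedLT I]

/-- the value of an atomic fact -/
noncomputable def fact (i : I) (a : Atom Ω (Nme Ω I)) : RO (PP Ω I) :=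
  below {p : PP Ω I | (i, a) ∈ p.1}

theorem forc_fact {p : PP Ω I} {i : I} {a : Atom Ω (Nme Ω I)} :
    Forc p (fact i a) ↔ ∀ q, q ≤ p → ∃ r, r ≤ q ∧ (i, a) ∈ r.1 := by
  rw [fact, forc_below]
  refine forall_congr' fun q => imp_congr_right fun _ => ?_
  constructor
  · rintro ⟨r, hr, s, hs, hrs⟩
    exact ⟨r, hr, hrs hs⟩
  · rintro ⟨r, hr, h⟩
    exact ⟨r, hr, r, h, le_rfl⟩

theorem forc_fact_of_mem {p : PP Ω I} {i : I} {a : Atom Ω (Nme Ω I)} (h : (i, a) ∈ p.1) :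
    Forc p (fact i a) := forc_fact.2 fun q hq => ⟨q, le_rfl, hq h⟩

theorem PP.vOK (p : PP Ω I) (i : I) : OK (fun a => (i, a) ∈ p.1) := (p.2 i).ok

/-- names for families of values depending on the stages before `i` only -/
theorem exists_name [WellFoundedLT Ω] [Omega1 Ω] {i : I} (g : Ω → Ω → ℕ → RO (PP Ω I))
    (hg : ∀ β ξ n, Meas i (g β ξ n)) : ∃ f : Nme Ω I,
      (∀ p : PP Ω I, ∀ β ξ n, Fpos (V ncd i) (restr p.1 i) (ncd f β ξ n) ↔ Forc p (g β ξ n)) ∧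
      (∀ p : PP Ω I, ∀ β ξ n, Fneg (V ncd i) (restr p.1 i) (ncd f β ξ n) ↔
        Forc p (g β ξ n)ᶜ) := by
  choose A hA1 hA2 hA3 hA4 using fun β ξ n => (hg β ξ n).exists_below
  obtain ⟨f, hf⟩ := ncd_surj (fun β ξ n => PP.val '' A β ξ n)
    (fun β ξ n => (hA1 β ξ n).image _)
  have res2 : ∀ {q : Cd Ω I (Nme Ω I)} (hq : V ncd i q),
      PP.res (⟨q, hq.vt⟩ : PP Ω I) i = ⟨q, hq.vt⟩ := fun hq => PP.res_eq hq.lt
  refine ⟨f, fun p β ξ n => ?_, fun p β ξ n => ?_⟩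
  · rw [hf]
    constructor
    · intro h
      refine Forc.mono (p := p.res i) ?_ (p.le_res i)
      rw [hA4 β ξ n, forc_below]
      intro q hq
      have hq' : restr p.1 i ⊆ restr q.1 i := by
        intro x hx
        exact mem_restr.2 ⟨hq hx, (mem_restr.1 hx).2⟩
      obtain ⟨q'', h1, h2, _, ⟨s, hs, rfl⟩, hsq⟩ := h _ hq' (q.2.restr i)
      obtain ⟨r, hr1, hr2, _⟩ := PP.amalg (p := q) (q := ⟨q'', h2.vt⟩) (i := i) h1
      rw [res2 h2] at hr2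
      exact ⟨r, hr1, s, hs, hr2.trans hsq⟩
    · intro h q' h1 h2
      have h3 : Forc (p.res i) (g β ξ n) := hg _ _ _ p h
      rw [hA4 β ξ n, forc_below] at h3
      obtain ⟨r, hr, s, hs, hrs⟩ := h3 ⟨q', h2.vt⟩ h1
      refine ⟨restr r.1 i, ?_, r.2.restr i, s.1, ⟨s, hs, rfl⟩, ?_⟩
      · intro x hx
        exact mem_restr.2 ⟨hr hx, h2.lt x hx⟩
      · intro x hx
        exact mem_restr.2 ⟨hrs hx, hA2 β ξ n s hs x hx⟩
  · rw [hf]
    constructor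
    · intro h
      refine Forc.mono (p := p.res i) ?_ (p.le_res i)
      rw [forc_compl]
      intro q hq hqg
      rw [hA4 β ξ n, forc_below] at hqg
      obtain ⟨r, hr, s, hs, hrs⟩ := hqg q le_rfl
      refine h (restr r.1 i) ?_ (r.2.restr i) s.1 ⟨s, hs, rfl⟩ ?_
      · intro x hx
        exact mem_restr.2 ⟨hr (hq hx), (mem_restr.1 hx).2⟩
      · intro x hx
        exact mem_restr.2 ⟨hrs hx, hA2 β ξ n s hs x hx⟩
    · intro h q' h1 h2 s' hs' hsq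
      obtain ⟨s, hs, rfl⟩ := hs'
      have h3 : Forc (p.res i) (g β ξ n)ᶜ := (hg _ _ _).compl p h
      rw [forc_compl] at h3
      refine h3 ⟨q', h2.vt⟩ h1 ?_
      exact (hA3 β ξ n s hs).mono hsq

/-- initial segments can be decided -/
def Decd (g : Ω → Ω → ℕ → RO (PP Ω I)) : Prop :=
  ∀ β l, l < β → ∀ q : PP Ω I, ∃ q', q' ≤ q ∧ ∃ G, GOK l G ∧ ∀ ξ n, ξ < l →
    ((ξ, n) ∈ G → Forc q' (g β ξ n)) ∧ ((ξ, n) ∉ G → Forc q' (g β ξ n)ᶜ)

theorem legit_of_decd {i : I} {g : Ω → Ω → ℕ → RO (PP Ω I)} {f : Nme Ω I}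
    (h1 : ∀ p : PP Ω I, ∀ β ξ n, Fpos (V ncd i) (restr p.1 i) (ncd f β ξ n) ↔
      Forc p (g β ξ n))
    (h2 : ∀ p : PP Ω I, ∀ β ξ n, Fneg (V ncd i) (restr p.1 i) (ncd f β ξ n) ↔
        Forc p (g β ξ n)ᶜ) (hg : Decd g) : Legit ncd (V ncd i) f := by
  intro β l hl q hq
  obtain ⟨q', hq', G, hG, hG'⟩ := hg β l hl ⟨q, hq.vt⟩
  refine ⟨restr q'.1 i, ?_, q'.2.restr i, G, hG, fun ξ n hξ => ⟨fun h => ?_, fun h => ?_⟩⟩
  · intro x hx
    exact mem_restr.2 ⟨hq' hx, hq.lt x hx⟩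
  · exact (h1 q' β ξ n).2 ((hG' ξ n hξ).1 h)
  · exact (h2 q' β ξ n).2 ((hG' ξ n hξ).2 h)

/-- below a condition forcing `c`, initial segments of the colouring `g` at limit levels can be
decided -/
def DecBelow (c : RO (PP Ω I)) (g : Ω → Ω → ℕ → RO (PP Ω I)) : Prop :=
  ∀ p : PP Ω I, Forc p c → ∀ β, IsLim β → ∀ l, l < β → ∃ q, q ≤ p ∧ ∃ G, GOK l G ∧
    ∀ ξ n, ξ < l → ((ξ, n) ∈ G → Forc q (g β ξ n)) ∧ ((ξ, n) ∉ G → Forc q (g β ξ n)ᶜ)

/-- the part of a colouring which is really used -/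
noncomputable def trunc (c : RO (PP Ω I)) (g : Ω → Ω → ℕ → RO (PP Ω I)) :
    Ω → Ω → ℕ → RO (PP Ω I) :=
  fun β ξ n => c ⊓ (tv (IsLim β) ⊓ g β ξ n)

theorem decd_trunc {c : RO (PP Ω I)} {g : Ω → Ω → ℕ → RO (PP Ω I)} (hd : DecBelow c g) :
    Decd (trunc c g) := by
  intro β l hl q
  have htr : ∀ (p : PP Ω I) β ξ n, Forc p (trunc c g β ξ n) ↔
      Forc p c ∧ IsLim β ∧ Forc p (g β ξ n) := by
    intro p β ξ n
    simp only [trunc, forc_inf, forc_tv]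
  have htc : ∀ (p : PP Ω I) β ξ n, (∀ q, q ≤ p → ¬ Forc q (trunc c g β ξ n)) →
      Forc p (trunc c g β ξ n)ᶜ := fun p β ξ n h => forc_compl.2 h
  by_cases hβ : IsLim β
  swap
  · exact ⟨q, le_rfl, ∅, ⟨by simp, by simp⟩, fun ξ n _ => ⟨by simp, fun _ => htc _ _ _ _
      fun q hq h => hβ ((htr _ _ _ _).1 h).2.1⟩⟩
  obtain ⟨q1, hq1, hc⟩ := forc_decide q c
  rcases hc with hc | hc
  swap
  · exact ⟨q1, hq1, ∅, ⟨by simp, by simp⟩, fun ξ n _ => ⟨by simp, fun _ => htc _ _ _ _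
      fun q hq h => forc_compl.1 hc _ hq ((htr _ _ _ _).1 h).1⟩⟩
  obtain ⟨q', h1, G, h2, h3⟩ := hd q1 hc β hβ l hl
  refine ⟨q', h1.trans hq1, G, h2, fun ξ n hξ => ⟨fun h => ?_, fun h => ?_⟩⟩
  · exact (htr _ _ _ _).2 ⟨hc.mono h1, hβ, (h3 ξ n hξ).1 h⟩
  · exact htc _ _ _ _ fun r hr h' => forc_compl.1 ((h3 ξ n hξ).2 h) r hr ((htr _ _ _ _).1 h').2.2

end

end Pool.Agent.LadderTree
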