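import Pool.Agent.LadderTree.Generic

/-!
# The generic tree at stage `i` uniformizes all earlier colourings
-/

namespace Pool.Agent.LadderTree

open Classical Pool.Agent.Forcing

set_option linter.unusedSectionVars false
set_option linter.unusedVariables false
set_option maxHeartbeats 2000000

section

variable {Ω I : Type} [LinearOrder Ω] [LinearOrder I] [WellFoundedLT I]

/-- the order of the generic tree -/
noncomputable def LL (i : I) (s t : Ω × ℕ) : RO (PP Ω I) := fact i (.lt s t)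

/-- the specializing function -/
noncomputable def SP (i : I) (t : Ω × ℕ) (r : ℕ) : RO (PP Ω I) := fact i (.sp t r)

theorem forc_fact_ex {p : PP Ω I} {i : I} {a : Atom Ω (Nme Ω I)} (h : Forc p (fact i a)) :
    ∃ r, r ≤ p ∧ (i, a) ∈ r.1 := (forc_fact.1 h) p le_rfl

theorem PP.mem_mono {p q : PP Ω I} (h : p ≤ q) {x} (hx : x ∈ q.1) : x ∈ p.1 := h hx

theorem LL_trans (i : I) (s t u : Ω × ℕ) : LL i s t ⊓ LL i t u ≤ LL i s u := by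
  rw [forc_le_iff]
  intro p hp
  rw [forc_inf] at hp
  rw [LL, forc_fact]
  intro q hq
  obtain ⟨r, hr, h1⟩ := forc_fact.1 hp.1 q hq
  obtain ⟨r', hr', h2⟩ := forc_fact.1 hp.2 r (hr.trans hq)
  exact ⟨r', hr'.trans hr, (r'.vOK i).lt_trans _ _ _ (PP.mem_mono hr' h1) h2⟩

theorem LL_lt (i : I) (s t : Ω × ℕ) : LL i s t ≤ tv (s.1 < t.1) := by
  rw [forc_le_iff]
  intro p hp
  obtain ⟨r, hr, h1⟩ := forc_fact_ex hp
  exact forc_tv.2 ((r.vOK i).lt_node _ _ h1).2.2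

theorem LL_uniq (i : I) (ξ : Ω) (m m' : ℕ) (t : Ω × ℕ) :
    LL i (ξ, m) t ⊓ LL i (ξ, m') t ≤ tv (m = m') := by
  rw [forc_le_iff]
  intro p hp
  rw [forc_inf] at hp
  rw [forc_tv]
  obtain ⟨r, hr, h1⟩ := forc_fact_ex hp.1
  obtain ⟨r', hr', h2⟩ := forc_fact.1 hp.2 r hr
  have h3 := PP.mem_mono hr' h1
  rcases (r'.vOK i).lt_tree _ _ _ h3 h2 with h6 | h6 | h6
  · rw [Prod.mk.injEq] at h6
    exact h6.2
  · exact absurd ((r'.vOK i).lt_node _ _ h6).2.2 (lt_irrefl _)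
  · exact absurd ((r'.vOK i).lt_node _ _ h6).2.2 (lt_irrefl _)

theorem SP_fun (i : I) (t : Ω × ℕ) (r r' : ℕ) : SP i t r ⊓ SP i t r' ≤ tv (r = r') := by
  rw [forc_le_iff]
  intro p hp
  rw [forc_inf] at hp
  rw [forc_tv]
  obtain ⟨q, hq, h1⟩ := forc_fact_ex hp.1
  obtain ⟨q', hq', h2⟩ := forc_fact.1 hp.2 q hq
  exact (q'.vOK i).sp_uniq _ _ _ (PP.mem_mono hq' h1) h2

theorem SP_tot (i : I) (t : Ω × ℕ) : ⨆ r, SP i t r = (⊤ : RO (PP Ω I)) := by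
  rw [eq_top_iff_forc]
  intro p
  rw [forc_iSup]
  intro q hq
  obtain ⟨q', h1, h2, r, h3⟩ := q.2.add_sp i t
  exact ⟨⟨q', h2⟩, PP.le_iff.2 h1, r, forc_fact_of_mem h3⟩

theorem SP_lt (i : I) (s t : Ω × ℕ) (r : ℕ) : LL i s t ⊓ (SP i s r ⊓ SP i t r) = ⊥ := by
  rw [← le_bot_iff, forc_le_iff]
  intro p hp
  rw [forc_inf, forc_inf] at hp
  exfalso
  obtain ⟨q, hq, h1⟩ := forc_fact_ex hp.1
  obtain ⟨q', hq', h2⟩ := forc_fact.1 hp.2.1 q hq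
  obtain ⟨q'', hq'', h3⟩ := forc_fact.1 hp.2.2 q' (hq'.trans hq)
  exact (q''.vOK i).sp_lt _ _ _ _ (PP.mem_mono (hq''.trans hq') h1) (PP.mem_mono hq'' h2) h3 rfl

theorem LB_fun (i : I) (t : Ω × ℕ) (f : Nme Ω I) (r r' : ℕ) :
    fact i (.lab t f r) ⊓ fact i (.lab t f r') ≤ (tv (r = r') : RO (PP Ω I)) := by
  rw [forc_le_iff]
  intro p hp
  rw [forc_inf] at hp
  rw [forc_tv]
  obtain ⟨q, hq, h1⟩ := forc_fact_ex hp.1
  obtain ⟨q', hq', h2⟩ := forc_fact.1 hp.2 q hq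
  exact (q'.vOK i).lab_uniq _ _ _ _ (PP.mem_mono hq' h1) h2

theorem LB_tot (i : I) (t : Ω × ℕ) (f : Nme Ω I) :
    ⨆ r, fact i (.lab t f r) = (⊤ : RO (PP Ω I)) := by
  rw [eq_top_iff_forc]
  intro p
  rw [forc_iSup]
  intro q hq
  obtain ⟨q', h1, h2, r, h3⟩ := q.2.add_lab i t f
  exact ⟨⟨q', h2⟩, PP.le_iff.2 h1, r, forc_fact_of_mem h3⟩

variable [WellFoundedLT Ω] [Omega1 Ω]

theorem LL_pred (i : I) (ξ : Ω) (t : Ω × ℕ) (h : ξ < t.1) :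
    ⨆ m, LL i (ξ, m) t = (⊤ : RO (PP Ω I)) := by
  rw [eq_top_iff_forc]
  intro p
  rw [forc_iSup]
  intro q hq
  obtain ⟨q', h1, h2, m, h3⟩ := (q.2.add_node i t).add_below i t
    (mem_addS.2 (Or.inr ⟨rfl, Finset.mem_singleton_self _⟩)) ξ h
  exact ⟨⟨q', h2⟩, PP.le_iff.2 ((subset_addS _ _ _).trans h1), m, forc_fact_of_mem h3⟩

theorem LL_up (i : I) (ξ : Ω) (t : Ω × ℕ) (h : t.1 < ξ) :
    ⨆ m, LL i t (ξ, m) = (⊤ : RO (PP Ω I)) := by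
  rw [eq_top_iff_forc]
  intro p
  rw [forc_iSup]
  intro q hq
  obtain ⟨q', h1, h2, m, h3⟩ := (q.2.add_node i t).add_above i t
    (mem_addS.2 (Or.inr ⟨rfl, Finset.mem_singleton_self _⟩)) ξ h
  exact ⟨⟨q', h2⟩, PP.le_iff.2 ((subset_addS _ _ _).trans h1), m, forc_fact_of_mem h3⟩

/-- all colourings depending on the stages before `i` are uniformized on the generic tree at
stage `i` -/
theorem exists_label (i : I) (c₀ : RO (PP Ω I)) (g : Ω → Ω → ℕ → RO (PP Ω I)) (hc : Meas i c₀)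
    (hg : ∀ α ξ n, Meas i (g α ξ n)) (hd : DecBelow c₀ g) :
    ∃ f : Nme Ω I, ∀ α, IsLim α → ∀ n, c₀ ≤ ⨆ γ : Set.Iio α, ⨅ ξ : Set.Iio α,
      tv (γ.1 < ξ.1) ⇨ ⨅ k, g α ξ k ⇨ ⨅ m, LL i (ξ.1, m) (α, n) ⇨ fact i (.lab (ξ.1, m) f k) := by
  have htm : ∀ β ξ n, Meas i (trunc c₀ g β ξ n) := by
    intro β ξ n p hp
    simp only [trunc, forc_inf, forc_tv] at hp ⊢
    exact ⟨hc p hp.1, hp.2.1, hg _ _ _ p hp.2.2⟩
  obtain ⟨f, hf1, hf2⟩ := exists_name (trunc c₀ g) htm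
  have hleg : Legit ncd (V ncd i) f := legit_of_decd hf1 hf2 (decd_trunc hd)
  refine ⟨f, fun α hα n => ?_⟩
  rw [forc_le_iff]
  intro p hp
  simp only [forc_iInf, forc_himp, forc_tv, forc_iSup]
  intro q2 hq2
  obtain ⟨k, hk, r, h1, h2, h3⟩ := (q2.2.add_node i (α, n)).add_pr i (α, n) hα
    (mem_addS.2 (Or.inr ⟨rfl, Finset.mem_singleton_self _⟩)) f hleg
  have hr2 : (⟨r, h2⟩ : PP Ω I) ≤ q2 :=
    PP.le_iff.2 (Finset.Subset.trans (subset_addS _ _ _) h1)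
  refine ⟨⟨r, h2⟩, hr2, ⟨k, hk⟩, fun ⟨ξ, hξ⟩ r1 hr1 hkξ c r2 hr2' hgc m r3 hr3 hlt => ?_⟩
  rw [forc_fact]
  intro s hs
  obtain ⟨t, ht, h4⟩ := forc_fact.1 hlt s hs
  refine ⟨t, ht, ?_⟩
  have X := t.vOK i
  have hts : t ≤ r2 := ht.trans (hs.trans hr3)
  have h5 : (i, Atom.pr (α, n) f k) ∈ t.1 := PP.mem_mono (hts.trans (hr2'.trans hr1)) h3
  obtain ⟨l, G, h6, h7⟩ := X.v1 _ _ _ _ h4 h5 hkξ.le
  obtain ⟨c', h8⟩ := X.v2a _ _ _ _ h4 h5 hkξ.le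
  have h9 : Forc t (trunc c₀ g α ξ c) := by
    simp only [trunc, forc_inf, forc_tv]
    exact ⟨hp.mono (hts.trans (hr2'.trans (hr1.trans (hr2.trans hq2)))), hα, hgc.mono hts⟩
  have h10 : (ξ, c) ∈ G := by
    by_contra hn
    have h11 := (hf2 t α ξ c).1 ((((t.2 i).dec _ _ _ _ h6).2.2 ξ c h7).2 hn)
    exact forc_compl.1 h11 t le_rfl h9
  have h12 := X.v2b _ _ _ _ _ _ _ _ h4 h5 hkξ.le h6 h10 h8
  rw [h12]
  exact h8

end

end Pool.Agent.LadderTree
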