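import Pool.Agent.LadderTree.Density2
import Pool.Agent.Forcing.RO

/-!
# Names for colourings
-/

namespace Pool.Agent.LadderTree

open Classical

/-- names for ladder colourings: for each possible fact a countable sequence of finite lists of
atomic facts; the names occurring in such a list are given by their indices in a sequence -/
inductive Nme (Ω I : Type) : Type
  | nil : Nme Ω I
  | mk (L : Ω → Ω → ℕ → ℕ → Option (List (I × Atom Ω ℕ)))
      (G : Ω → Ω → ℕ → ℕ → ℕ → Nme Ω I) : Nme Ω I

/-- change the names in a fact -/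
def Atom.map {Ω A B : Type} (g : A → B) : Atom Ω A → Atom Ω B
  | .node t => .node t
  | .lt s t => .lt s t
  | .sp t r => .sp t r
  | .lab s f c => .lab s (g f) c
  | .pr t f k => .pr t (g f) k
  | .dec β f l G => .dec β (g f) l G
  | .coh α k c => .coh α k c

/-- the name in a fact -/
def Atom.nam {Ω A : Type} (d : A) : Atom Ω A → A
  | .lab _ f _ => f
  | .pr _ f _ => f
  | .dec _ f _ _ => f
  | _ => d

theorem Atom.map_map {Ω A B : Type} (g : A → B) (h : B → A) (d : A) (a : Atom Ω A)
    (hh : h (g (a.nam d)) = a.nam d) : (a.map g).map h = a := by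
  cases a <;> simp_all [Atom.map, Atom.nam]

/-- the conditions in a name -/
noncomputable def ncd {Ω I : Type} : Nme Ω I → Ω → Ω → ℕ → Set (Cd Ω I (Nme Ω I))
  | .nil, _, _, _ => ∅
  | .mk L G, β, ξ, n => {p | ∃ k l, L β ξ n k = some l ∧
      p = (l.map fun x => (x.1, x.2.map (G β ξ n k))).toFinset}

theorem ncd_surj {Ω I : Type} (A : Ω → Ω → ℕ → Set (Cd Ω I (Nme Ω I)))
    (hA : ∀ β ξ n, (A β ξ n).Countable) : ∃ f, ∀ β ξ n, ncd f β ξ n = A β ξ n := by
  have h0 : ∀ p : Cd Ω I (Nme Ω I), ∃ (l : List (I × Atom Ω ℕ)) (G : ℕ → Nme Ω I),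
      (l.map fun x => (x.1, x.2.map G)).toFinset = p := by
    intro p
    have hc : (insert Nme.nil ((fun x : I × Atom Ω (Nme Ω I) => x.2.nam Nme.nil) ''
      (p : Set (I × Atom Ω (Nme Ω I))))).Countable :=
      ((p.finite_toSet.image _).countable).insert _
    obtain ⟨G, hG⟩ := hc.exists_eq_range ⟨_, Set.mem_insert _ _⟩
    have hidx : ∀ f : Nme Ω I, ∃ j : ℕ, f ∈ Set.range G → G j = f := by
      intro f
      by_cases hf : f ∈ Set.range G
      · obtain ⟨j, hj⟩ := hf
        exact ⟨j, fun _ => hj⟩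
      · exact ⟨0, fun h => absurd h hf⟩
    choose idx hidx using hidx
    refine ⟨p.toList.map fun x => (x.1, x.2.map idx), G, ?_⟩
    rw [List.map_map]
    have e : ∀ x ∈ p.toList, ((fun x : I × Atom Ω ℕ => (x.1, x.2.map G)) ∘
        fun x : I × Atom Ω (Nme Ω I) => (x.1, x.2.map idx)) x = x := by
      intro x hx
      have hx' : x ∈ p := Finset.mem_toList.1 hx
      have : x.2.nam Nme.nil ∈ Set.range G := by
        rw [← hG]
        exact Set.mem_insert_of_mem _ ⟨x, hx', rfl⟩
      exact Prod.ext rfl (Atom.map_map idx G Nme.nil x.2 (hidx _ this))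
    rw [List.map_congr_left e, List.map_id', Finset.toList_toFinset]
  have h : ∀ β ξ n, ∃ (g : ℕ → Option (List (I × Atom Ω ℕ))) (G : ℕ → ℕ → Nme Ω I),
      A β ξ n = {p | ∃ k l, g k = some l ∧ p = (l.map fun x => (x.1, x.2.map (G k))).toFinset} := by
    intro β ξ n
    rcases (A β ξ n).eq_empty_or_nonempty with h | h
    · refine ⟨fun _ => none, fun _ _ => .nil, ?_⟩
      rw [h]
      ext p
      simp
    · obtain ⟨e, he⟩ := (hA β ξ n).exists_eq_range h
      choose l G hl using fun k => h0 (e k)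
      refine ⟨fun k => some (l k), G, ?_⟩
      rw [he]
      ext p
      constructor
      · rintro ⟨k, rfl⟩
        exact ⟨k, _, rfl, (hl k).symm⟩
      · rintro ⟨k, l', h1, h2⟩
        simp only [Option.some.injEq] at h1
        subst h1
        exact ⟨k, by rw [h2, hl]⟩
  choose g G hg using h
  exact ⟨.mk g G, fun β ξ n => (hg β ξ n).symm⟩

end Pool.Agent.LadderTree
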