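import Pool.Agent.LadderTree.Names

/-!
# The forcing notion: chain condition and supports
-/

namespace Pool.Agent.Forcing

section

variable {P : Type} [Preorder P]

/-- compatibility -/
def Compat (p q : P) : Prop := ∃ r, r ≤ p ∧ r ≤ q

/-- every element is generated by a maximal antichain -/
theorem exists_antichain (b : RO P) : ∃ A : Set P, (∀ s ∈ A, Forc s b) ∧
    (∀ s ∈ A, ∀ t ∈ A, s ≠ t → ¬ Compat s t) ∧ b = below A := by
  let S : Set (Set P) := {A | (∀ s ∈ A, Forc s b) ∧ ∀ s ∈ A, ∀ t ∈ A, s ≠ t → ¬ Compat s t}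
  obtain ⟨A, hA⟩ := zorn_subset S (by
    intro c hc hch
    refine ⟨⋃₀ c, ⟨?_, ?_⟩, fun s hs => Set.subset_sUnion_of_mem hs⟩
    · rintro s ⟨A, hA, hs⟩
      exact (hc hA).1 s hs
    · rintro s ⟨A, hA, hs⟩ t ⟨A', hA', ht⟩ hst
      rcases hch.total hA hA' with h | h
      · exact (hc hA').2 s (h hs) t ht hst
      · exact (hc hA).2 s hs t (h ht) hst)
  have hAS : A ∈ S := hA.prop
  refine ⟨A, hAS.1, hAS.2, le_antisymm ?_ ?_⟩
  · rw [forc_le_iff]
    intro p hp
    rw [forc_below]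
    intro q hq
    by_contra hcon
    push Not at hcon
    have hqA : q ∉ A := fun h => hcon q le_rfl q h le_rfl
    have hins : insert q A ∈ S := by
      refine ⟨?_, ?_⟩
      · intro s hs
        rcases Set.mem_insert_iff.1 hs with rfl | hs
        · exact hp.mono hq
        · exact hAS.1 s hs
      · intro s hs t ht hst
        rcases Set.mem_insert_iff.1 hs with hs' | hs' <;>
          rcases Set.mem_insert_iff.1 ht with ht' | ht'
        · exact absurd (hs'.trans ht'.symm) hst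
        · rintro ⟨r, h1, h2⟩; exact hcon r (hs' ▸ h1) t ht' h2
        · rintro ⟨r, h1, h2⟩; exact hcon r (ht' ▸ h2) s hs' h1
        · exact hAS.2 s hs' t ht' hst
    have := hA.le_of_ge hins (Set.subset_insert q A)
    exact hqA (this (Set.mem_insert _ _))
  · rw [forc_le_iff]
    intro p hp
    rw [forc_iff_dense]
    rw [forc_below] at hp
    intro q hq
    obtain ⟨r, hr, s, hs, hrs⟩ := hp q hq
    exact ⟨r, hr, (hAS.1 s hs).mono hrs⟩

end

end Pool.Agent.Forcing

namespace Pool.Agent.LadderTree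

open Classical Pool.Agent.Forcing

set_option linter.unusedSectionVars false
set_option linter.unusedVariables false

section

variable (Ω I : Type) [LinearOrder Ω] [LinearOrder I] [WellFoundedLT I]

/-- valid conditions -/
@[ext]
structure PP : Type where
  /-- the finite set of facts -/
  val : Cd Ω I (Nme Ω I)
  prop : Vt ncd val

variable {Ω I}

instance : Preorder (PP Ω I) where
  le p q := q.1 ⊆ p.1
  le_refl p := subset_rfl
  le_trans p q r h1 h2 := h2.trans h1

theorem PP.le_iff {p q : PP Ω I} : p ≤ q ↔ q.1 ⊆ p.1 := Iff.rfl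

/-- the empty condition -/
def PP.one : PP Ω I := ⟨∅, Vt.empty⟩

/-- the part before `i` -/
noncomputable def PP.res (p : PP Ω I) (i : I) : PP Ω I := ⟨restr p.1 i, (p.2.restr i).vt⟩

theorem PP.le_res (p : PP Ω I) (i : I) : p ≤ p.res i := restr_subset _ _

theorem PP.res_mono {p q : PP Ω I} (h : p ≤ q) (i : I) : p.res i ≤ q.res i := restr_mono h i

/-- amalgamation -/
theorem PP.amalg {p q : PP Ω I} {i : I} (h : q ≤ p.res i) :
    ∃ r, r ≤ p ∧ r ≤ q.res i ∧ ∀ j, i ≤ j → ∀ a, (j, a) ∈ r.1 ↔ (j, a) ∈ p.1 := by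
  have h1 : V ncd i (restr q.1 i) := q.2.restr i
  have h2 : restr p.1 i ⊆ restr q.1 i := by
    intro x hx
    exact mem_restr.2 ⟨h hx, (mem_restr.1 hx).2⟩
  refine ⟨⟨restr q.1 i ∪ p.1, p.2.glue h1 h2⟩, Finset.subset_union_right,
    Finset.subset_union_left, fun j hj a => glue_stage h1 hj a⟩

theorem PP.res_eq {p : PP Ω I} {i : I} (h : ∀ x ∈ p.1, x.1 < i) : p.res i = p :=
  PP.ext (restr_eq_of_V h)

/-- values which only depend on the stages before `i` -/
def Meas (i : I) (b : RO (PP Ω I)) : Prop := ∀ p, Forc p b → Forc (p.res i) b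

theorem Meas.iff {i : I} {b : RO (PP Ω I)} (h : Meas i b) (p : PP Ω I) :
    Forc (p.res i) b ↔ Forc p b := ⟨fun h' => h'.mono (p.le_res i), h p⟩

theorem Meas.below {i : I} {A : Set (PP Ω I)} (hA : ∀ s ∈ A, ∀ x ∈ s.1, x.1 < i) :
    Meas i (below A) := by
  intro p hp
  rw [forc_below] at hp ⊢
  intro q hq
  obtain ⟨r, hr1, hr2, _⟩ := PP.amalg hq
  obtain ⟨r', hr', s, hs, hs'⟩ := hp r hr1
  have h1 : r'.res i ≤ q.res i := by
    have := PP.res_mono (hr'.trans hr2) i
    rwa [PP.res_eq (p := q.res i) (fun x hx => (mem_restr.1 hx).2)] at this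
  obtain ⟨r2, h2, h3, _⟩ := PP.amalg (p := q) (q := r'.res i) (i := i) h1
  refine ⟨r2, h2, s, hs, h3.trans ?_⟩
  rw [PP.res_eq (p := r'.res i) (fun x hx => (mem_restr.1 hx).2)]
  have := PP.res_mono hs' i
  rwa [PP.res_eq (p := s) (fun x hx => hA s hs x hx)] at this

theorem Meas.iSup {ι : Sort*} {i : I} {b : ι → RO (PP Ω I)} (h : ∀ x, Meas i (b x)) :
    Meas i (⨆ x, b x) := by
  intro p hp
  rw [forc_iSup] at hp ⊢
  intro q hq
  obtain ⟨r, hr1, hr2, _⟩ := PP.amalg hq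
  obtain ⟨r', hr', x, hx⟩ := hp r hr1
  have h1 : r'.res i ≤ q.res i := by
    have := PP.res_mono (hr'.trans hr2) i
    rwa [PP.res_eq (p := q.res i) (fun x hx => (mem_restr.1 hx).2)] at this
  obtain ⟨r2, h2, h3, _⟩ := PP.amalg (p := q) (q := r'.res i) (i := i) h1
  refine ⟨r2, h2, x, ?_⟩
  rw [PP.res_eq (p := r'.res i) (fun x hx => (mem_restr.1 hx).2)] at h3
  exact (h x r' hx).mono h3

theorem Meas.compl {i : I} {b : RO (PP Ω I)} (h : Meas i b) : Meas i bᶜ := by
  intro p hp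
  rw [forc_compl] at hp ⊢
  intro q hq hqb
  obtain ⟨r, hr1, hr2, _⟩ := PP.amalg hq
  exact hp r hr1 ((h q hqb).mono hr2)

theorem Meas.iInf {ι : Sort*} {i : I} {b : ι → RO (PP Ω I)} (h : ∀ x, Meas i (b x)) :
    Meas i (⨅ x, b x) := by
  intro p hp
  rw [forc_iInf] at hp ⊢
  exact fun x => h x p (hp x)

theorem Meas.inf {i : I} {b c : RO (PP Ω I)} (h : Meas i b) (h' : Meas i c) :
    Meas i (b ⊓ c) := by
  intro p hp
  rw [forc_inf] at hp ⊢
  exact ⟨h p hp.1, h' p hp.2⟩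

theorem Meas.mono {i j : I} {b : RO (PP Ω I)} (h : Meas i b) (hij : i ≤ j) : Meas j b := by
  intro p hp
  refine (h p hp).mono ?_
  intro x hx
  exact mem_restr.2 ⟨(mem_restr.1 hx).1, (mem_restr.1 hx).2.trans_le hij⟩

variable [WellFoundedLT Ω] [Omega1 Ω]

/-- every uncountable set receives an injection from `Ω` -/
theorem exists_inj_of_uncountable {X : Type} {S : Set X} (hS : ¬ S.Countable) :
    ∃ f : Ω → X, Function.Injective f ∧ ∀ α, f α ∈ S := by
  have hne : ∀ (α : Ω) (g : ∀ β, β < α → X), ∃ x, x ∈ S ∧ ∀ β hβ, g β hβ ≠ x := by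
    intro α g
    by_contra hcon
    push Not at hcon
    apply hS
    have hc : (Set.range fun b : Set.Iio α => g b.1 b.2).Countable := by
      have : Countable (Set.Iio α) := (Omega1.countable_Iio α).to_subtype
      exact Set.countable_range _
    refine hc.mono fun x hx => ?_
    obtain ⟨β, hβ, h⟩ := hcon x hx
    exact ⟨⟨β, hβ⟩, h⟩
  let f : Ω → X := WellFounded.fix (wellFounded_lt (α := Ω)) fun α g => (hne α g).choose
  have hf : ∀ α, f α = (hne α fun β _ => f β).choose := fun α => by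
    simp only [f]
    rw [WellFounded.fix_eq]
  have h1 : ∀ α, f α ∈ S := fun α => by rw [hf]; exact (hne α fun β _ => f β).choose_spec.1
  have h2 : ∀ α β, β < α → f β ≠ f α := fun α β hβ => by
    rw [hf α]; exact (hne α fun β _ => f β).choose_spec.2 β hβ
  refine ⟨f, fun α β h => ?_, h1⟩
  rcases lt_trichotomy α β with h' | h' | h'
  · exact absurd h (h2 _ _ h')
  · exact h'
  · exact absurd h.symm (h2 _ _ h')

theorem GoodPair.compat {α β : Ω} {p q : PP Ω I} (h : GoodPair α β p.1 q.1) :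
    ∃ r : PP Ω I, r ≤ p ∧ r ≤ q ∧ r.1 = p.1 ∪ q.1 :=
  ⟨⟨p.1 ∪ q.1, h.union p.2 q.2⟩, Finset.subset_union_left, Finset.subset_union_right, rfl⟩

theorem PP.pair (p : Ω → PP Ω I) (n : Ω → ℕ) (e : Ω → Finset (Ω × ℕ))
    (he : ∀ δ, IsLim δ → ∀ x ∈ e δ, x.1 < δ) (g : Ω → Ω) (γ₀ : Ω) :
    ∃ α β, γ₀ < α ∧ α < β ∧ IsLim α ∧ IsLim β ∧ (∀ x ∈ (p α).1, x.2.Bd β) ∧
      GoodPair α β (p α).1 (p β).1 ∧ n α = n β ∧ e α = e β ∧ g α < β := by
  obtain ⟨α, β, h0, h1, h2, h3, h4, h5, h6⟩ := exists_goodPair (fun δ => (p δ).1) n e he g γ₀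
  exact ⟨α, β, h0, h3.lt, h1, h2, h3.h1, h3, h4, h5, h6⟩

/-- the countable chain condition, for indexed families -/
theorem ccc_family {X : Type} {S : Set X} (hS : ¬ S.Countable) (p : X → PP Ω I) :
    ∃ x ∈ S, ∃ y ∈ S, x ≠ y ∧ Compat (p x) (p y) := by
  obtain ⟨f, hf, hfS⟩ := exists_inj_of_uncountable (Ω := Ω) hS
  have hne : Nonempty Ω := by
    by_contra h
    rw [not_nonempty_iff] at h
    exact Omega1.uncountable (Ω := Ω) (Set.countable_univ_iff.2 inferInstance)
  obtain ⟨γ₀⟩ := hne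
  obtain ⟨α, β, _, hαβ, _, _, _, h, _⟩ := PP.pair (fun α => p (f α)) (fun _ => 0) (fun _ => ∅)
    (fun _ _ => by simp) id γ₀
  obtain ⟨r, h1, h2, _⟩ := h.compat
  exact ⟨f α, hfS α, f β, hfS β, fun h => hαβ.ne (hf h), r, h1, h2⟩

theorem antichain_countable {A : Set (PP Ω I)}
    (hA : ∀ s ∈ A, ∀ t ∈ A, s ≠ t → ¬ Compat s t) : A.Countable := by
  by_contra h
  obtain ⟨x, hx, y, hy, hne, hc⟩ := ccc_family h id
  exact hA x hx y hy hne hc

/-- every element of the algebra is generated by countably many conditions -/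
theorem exists_countable_below (b : RO (PP Ω I)) : ∃ A : Set (PP Ω I), A.Countable ∧
    (∀ s ∈ A, Forc s b) ∧ b = below A := by
  obtain ⟨A, h1, h2, h3⟩ := exists_antichain b
  exact ⟨A, antichain_countable h2, h1, h3⟩

theorem below_eq_of {P : Type} [Preorder P] {b : RO P} {A : Set P} (h1 : ∀ s ∈ A, Forc s b)
    (h2 : ∀ p, Forc p b → ∃ r, r ≤ p ∧ ∃ s ∈ A, r ≤ s) : b = below A := by
  refine le_antisymm ?_ ?_
  · rw [forc_le_iff]
    intro p hp
    rw [forc_below]
    intro q hq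
    exact h2 q (hp.mono hq)
  · rw [forc_le_iff]
    intro p hp
    rw [forc_iff_dense]
    rw [forc_below] at hp
    intro q hq
    obtain ⟨r, hr, s, hs, hrs⟩ := hp q hq
    exact ⟨r, hr, (h1 s hs).mono hrs⟩

/-- elements depending on the stages before `i` are generated by conditions before `i` -/
theorem Meas.exists_below {i : I} {b : RO (PP Ω I)} (hb : Meas i b) :
    ∃ A : Set (PP Ω I), A.Countable ∧ (∀ s ∈ A, ∀ x ∈ s.1, x.1 < i) ∧ (∀ s ∈ A, Forc s b) ∧
      b = Forcing.below A := by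
  obtain ⟨A, h1, h2, h3⟩ := exists_countable_below b
  refine ⟨(fun s => s.res i) '' A, h1.image _, ?_, ?_, below_eq_of ?_ ?_⟩
  · rintro s ⟨t, ht, rfl⟩ x hx
    exact (mem_restr.1 hx).2
  · rintro s ⟨t, ht, rfl⟩
    exact hb t (h2 t ht)
  · rintro s ⟨t, ht, rfl⟩
    exact hb t (h2 t ht)
  · intro p hp
    rw [h3, forc_below] at hp
    obtain ⟨r, hr, s, hs, hrs⟩ := hp p le_rfl
    exact ⟨r, hr, _, ⟨s, hs, rfl⟩, hrs.trans (s.le_res i)⟩

/-- every countable set of stages is bounded -/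
class CofOmega1 (I : Type) [LinearOrder I] : Prop where
  bdd : ∀ s : Set I, s.Countable → ∃ i, ∀ x ∈ s, x < i

theorem exists_meas [CofOmega1 I] (b : RO (PP Ω I)) : ∃ i, Meas i b := by
  obtain ⟨A, h1, h2, h3⟩ := exists_countable_below b
  have hc : (⋃ s ∈ A, {j | Crd s.1 j}).Countable :=
    h1.biUnion fun s _ => (crd_finite s.1).countable
  obtain ⟨i, hi⟩ := CofOmega1.bdd _ hc
  refine ⟨i, ?_⟩
  rw [h3]
  refine Meas.below fun s hs x hx => hi _ ?_
  simp only [Set.mem_iUnion]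
  exact ⟨s, hs, x.2, hx⟩

end

end Pool.Agent.LadderTree
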