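import Mathlib

/-!
# A pressing down lemma on a well-order of type `ω₁`
-/

namespace Pool.Agent.LadderTree

/-- a well-order of type `ω₁` -/
class Omega1 (Ω : Type) [LinearOrder Ω] [WellFoundedLT Ω] : Prop where
  countable_Iio : ∀ a : Ω, (Set.Iio a).Countable
  uncountable : ¬ (Set.univ : Set Ω).Countable

/-- limit points -/
def IsLim {Ω : Type} [LinearOrder Ω] (δ : Ω) : Prop :=
  (∃ x, x < δ) ∧ ∀ x, x < δ → ∃ y, x < y ∧ y < δ

section

variable {Ω : Type} [LinearOrder Ω] [WellFoundedLT Ω] [Omega1 Ω]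

theorem exists_bound {s : Set Ω} (hs : s.Countable) : ∃ b, ∀ x ∈ s, x < b := by
  by_contra h
  push Not at h
  apply Omega1.uncountable (Ω := Ω)
  have : (Set.univ : Set Ω) ⊆ ⋃ x ∈ s, (Set.Iio x ∪ {x}) := by
    intro b _
    obtain ⟨x, hx, hb⟩ := h b
    simp only [Set.mem_iUnion]
    refine ⟨x, hx, ?_⟩
    rcases lt_or_eq_of_le hb with h | h
    · exact Or.inl h
    · exact Or.inr h
  refine Set.Countable.mono this ?_
  exact hs.biUnion fun x _ => (Omega1.countable_Iio x).union (Set.countable_singleton x)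

theorem exists_gt_all {s : Set Ω} (hs : s.Countable) (a : Ω) : ∃ b, a < b ∧ ∀ x ∈ s, x < b := by
  obtain ⟨b, hb⟩ := exists_bound (hs.insert a)
  exact ⟨b, hb a (Set.mem_insert _ _), fun x hx => hb x (Set.mem_insert_of_mem _ hx)⟩

theorem exists_gt' (a : Ω) : ∃ b : Ω, a < b := by
  obtain ⟨b, hb, _⟩ := exists_gt_all (Set.countable_empty) a
  exact ⟨b, hb⟩

theorem exists_sup (x : ℕ → Ω) (hx : ∀ n, x n < x (n + 1)) :
    ∃ δ, IsLim δ ∧ (∀ n, x n < δ) ∧ ∀ γ, γ < δ → ∃ n, γ < x n := by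
  classical
  have hmono : StrictMono x := strictMono_nat_of_lt_succ hx
  obtain ⟨b, hb⟩ := exists_bound (Set.countable_range x)
  have hne : {b : Ω | ∀ n, x n < b}.Nonempty := ⟨b, fun n => hb _ ⟨n, rfl⟩⟩
  let δ := WellFounded.min (wellFounded_lt (α := Ω)) _ hne
  have hδ : ∀ n, x n < δ := WellFounded.min_mem _ _ hne
  have hδ' : ∀ γ, γ < δ → ∃ n, γ < x n := by
    intro γ hγ
    by_contra hcon
    push Not at hcon
    refine WellFounded.not_lt_min (wellFounded_lt (α := Ω)) _ (x := γ) ?_ hγ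
    intro n
    exact lt_of_lt_of_le (hx n) (hcon (n + 1))
  refine ⟨δ, ⟨⟨x 0, hδ 0⟩, fun y hy => ?_⟩, hδ, hδ'⟩
  obtain ⟨n, hn⟩ := hδ' y hy
  exact ⟨x n, hn, hδ n⟩

/-- pressing down for finite sets of data -/
theorem press {X : Type} (D : Ω → Set X) (hc : ∀ δ, (D δ).Countable)
    (hm : ∀ γ δ, γ ≤ δ → D γ ⊆ D δ) (hl : ∀ δ, IsLim δ → ∀ x ∈ D δ, ∃ γ, γ < δ ∧ x ∈ D γ)
    (τ : Ω → Finset X) (hτ : ∀ δ, IsLim δ → ∀ x ∈ τ δ, x ∈ D δ) :
    ∃ τ₀, ∀ γ, ∃ δ, γ < δ ∧ IsLim δ ∧ τ δ = τ₀ := by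
  classical
  by_contra hcon
  push Not at hcon
  choose g hg using hcon
  have hF : ∀ γ : Ω, ∃ b, γ < b ∧ ∀ τ₀ : Finset X, (∀ x ∈ τ₀, x ∈ D γ) → g τ₀ < b := by
    intro γ
    have : {τ₀ : Finset X | (τ₀ : Set X) ⊆ D γ}.Countable := by
      have h1 : {t : Set X | t.Finite ∧ t ⊆ D γ}.Countable :=
        Set.countable_ofPred_finite_subset (hc γ)
      have h2 := h1.preimage_of_injOn (f := fun τ₀ : Finset X => (τ₀ : Set X))
        (Finset.coe_injective.injOn)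
      exact h2.mono fun (τ₀ : Finset X) (h : (τ₀ : Set X) ⊆ D γ) =>
        show (τ₀ : Set X).Finite ∧ (τ₀ : Set X) ⊆ D γ from ⟨τ₀.finite_toSet, h⟩
    obtain ⟨b, hb, hb'⟩ := exists_gt_all (this.image g) γ
    exact ⟨b, hb, fun τ₀ h => hb' _ ⟨τ₀, h, rfl⟩⟩
  choose F hF1 hF2 using hF
  have hΩ : Nonempty Ω := by
    by_contra h
    rw [not_nonempty_iff] at h
    exact Omega1.uncountable (Ω := Ω) (Set.countable_univ_iff.2 inferInstance)
  obtain ⟨a⟩ := hΩ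
  let x : ℕ → Ω := fun n => Nat.rec a (fun _ y => F y) n
  have hx : ∀ n, x n < x (n + 1) := fun n => hF1 (x n)
  obtain ⟨δ, hδ, h1, h2⟩ := exists_sup x hx
  have h3 : ∃ n, ∀ y ∈ τ δ, y ∈ D (x n) := by
    have h4 : ∀ y ∈ τ δ, ∃ n, y ∈ D (x n) := by
      intro y hy
      obtain ⟨γ, hγ, hy'⟩ := hl δ hδ y (hτ δ hδ y hy)
      obtain ⟨n, hn⟩ := h2 γ hγ
      exact ⟨n, hm _ _ hn.le hy'⟩
    choose! n hn using h4
    refine ⟨(τ δ).sup n, fun y hy => ?_⟩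
    exact hm _ _ ((strictMono_nat_of_lt_succ hx).monotone (Finset.le_sup hy)) (hn y hy)
  obtain ⟨n, hn⟩ := h3
  exact hg (τ δ) δ ((hF2 (x n) (τ δ) hn).trans (h1 (n + 1))) hδ rfl

end

end Pool.Agent.LadderTree
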