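import Pool.Agent.LadderTree.Union

/-!
# Existence of similar conditions
-/

namespace Pool.Agent.LadderTree

open Classical

set_option linter.unusedSectionVars false
set_option linter.unusedVariables false
set_option maxHeartbeats 2000000

section

variable {Ω I Nm : Type} [LinearOrder Ω] [LinearOrder I]

/-- finite pieces of data -/
abbrev Code (Ω I Nm : Type) : Type :=
  ℕ × Finset I × Finset Nm × Finset ((Ω × ℕ) × (Ω × ℕ)) × Finset (Ω × ℕ)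

/-- the code of an atomic fact -/
def acode (j : I) : Atom Ω Nm → Code Ω I Nm
  | .node t => (0, {j}, ∅, {(t, t)}, ∅)
  | .lt s t => (1, {j}, ∅, {(s, t)}, ∅)
  | .sp t r => (2, {j}, ∅, {(t, (t.1, r))}, ∅)
  | .lab s f c => (3, {j}, {f}, {(s, (s.1, c))}, ∅)
  | .pr t f k => (4, {j}, {f}, {(t, (k, 0))}, ∅)
  | .dec β f l G => (5, {j}, {f}, {((β, 0), (l, 0))}, G)
  | .coh α k c => (6, {j}, ∅, {((α, k), (α, c))}, ∅)

theorem acode_inj {j j' : I} {a a' : Atom Ω Nm} (h : acode j a = acode j' a') :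
    j = j' ∧ a = a' := by
  cases a <;> cases a' <;> simp_all [acode]

/-- names in an atomic fact -/
def Atom.nmF : Atom Ω Nm → Finset Nm
  | .lab _ f _ => {f}
  | .pr _ f _ => {f}
  | .dec _ f _ _ => {f}
  | _ => ∅

theorem Atom.mem_nmF (a : Atom Ω Nm) (f : Nm) : f ∈ a.nmF ↔ a.Has f := by
  cases a <;> simp [Atom.nmF, Atom.Has, eq_comm]

/-- codes of patterns -/
noncomputable def patc (x y z : I × Atom Ω Nm) : Code Ω I Nm :=
  match x.2, y.2, z.2 with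
  | .node u, .pr _ f k, .dec _ _ _ G =>
      (7, {x.1}, {f}, {(u, u)}, G.filter (fun y => k ≤ y.1 ∧ y.1 < u.1))
  | _, _, _ => (7, ∅, ∅, ∅, ∅)

/-- the set of patterns of a condition -/
def PatSet (p : Cd Ω I Nm) : Set (Code Ω I Nm) :=
  {x | ∃ j f u t k l G, (j, Atom.node u) ∈ p ∧ Le (fun a => (j, a) ∈ p) u t ∧
    (j, Atom.pr t f k) ∈ p ∧ (j, Atom.dec t.1 f l G) ∈ p ∧
    x = ((7, {j}, {f}, {(u, u)}, G.filter (fun y => k ≤ y.1 ∧ y.1 < u.1)) : Code Ω I Nm)}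

theorem PatSet.finite (p : Cd Ω I Nm) : (PatSet p).Finite := by
  refine Set.Finite.subset ((p ×ˢ p ×ˢ p).finite_toSet.image
    (fun x => patc x.1 x.2.1 x.2.2)) ?_
  rintro x ⟨j, f, u, t, k, l, G, h1, h2, h3, h4, rfl⟩
  refine ⟨((j, Atom.node u), (j, Atom.pr t f k), (j, Atom.dec t.1 f l G)), ?_, rfl⟩
  simp [h1, h3, h4]

/-- all the data of a condition -/
noncomputable def full (p : Cd Ω I Nm) : Finset (Code Ω I Nm) :=
  p.image (fun x => acode x.1 x.2) ∪ p.image (fun x => (8, {x.1}, ∅, ∅, ∅)) ∪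
    p.image (fun x => (9, ∅, x.2.nmF, ∅, ∅)) ∪ (PatSet.finite p).toFinset

theorem fin_countable {α : Type} {S : Set α} (hS : S.Countable) :
    {s : Finset α | ∀ x ∈ s, x ∈ S}.Countable := by
  have h1 : {t : Set α | t.Finite ∧ t ⊆ S}.Countable := Set.countable_ofPred_finite_subset hS
  have h2 := h1.preimage_of_injOn (f := fun τ₀ : Finset α => (τ₀ : Set α))
    (Finset.coe_injective.injOn)
  exact h2.mono fun (τ₀ : Finset α) (h : ∀ x ∈ τ₀, x ∈ S) =>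
    show (τ₀ : Set α).Finite ∧ (τ₀ : Set α) ⊆ S from ⟨τ₀.finite_toSet, h⟩

theorem crd_finite (p : Cd Ω I Nm) : {j | Crd p j}.Finite := by
  refine (p.image Prod.fst).finite_toSet.subset ?_
  rintro j ⟨a, ha⟩
  exact Finset.mem_coe.2 (Finset.mem_image.2 ⟨_, ha, rfl⟩)

theorem nms_finite (p : Cd Ω I Nm) : {f | Nms p f}.Finite := by
  refine (p.biUnion fun x => x.2.nmF).finite_toSet.subset ?_
  rintro j ⟨a, ha, hj⟩
  exact Finset.mem_coe.2 (Finset.mem_biUnion.2 ⟨_, ha, (Atom.mem_nmF _ _).2 hj⟩)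

variable [WellFoundedLT Ω] [Omega1 Ω]

/-- data available below `δ` -/
def D (p : Ω → Cd Ω I Nm) (δ : Ω) : Set (Code Ω I Nm) :=
  {x | (∀ j ∈ x.2.1, ∃ γ, γ < δ ∧ Crd (p γ) j) ∧ (∀ f ∈ x.2.2.1, ∃ γ, γ < δ ∧ Nms (p γ) f) ∧
    (∀ y ∈ x.2.2.2.1, y.1.1 < δ ∧ y.2.1 < δ) ∧ ∀ y ∈ x.2.2.2.2, y.1 < δ}

theorem D_countable (p : Ω → Cd Ω I Nm) (δ : Ω) : (D p δ).Countable := by
  have hC : {j | ∃ γ, γ < δ ∧ Crd (p γ) j}.Countable := by
    have : {j | ∃ γ, γ < δ ∧ Crd (p γ) j} ⊆ ⋃ γ ∈ Set.Iio δ, {j | Crd (p γ) j} := by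
      rintro j ⟨γ, hγ, hj⟩
      simp only [Set.mem_iUnion]
      exact ⟨γ, hγ, hj⟩
    exact ((Omega1.countable_Iio δ).biUnion fun γ _ => (crd_finite (p γ)).countable).mono this
  have hN : {j | ∃ γ, γ < δ ∧ Nms (p γ) j}.Countable := by
    have : {j | ∃ γ, γ < δ ∧ Nms (p γ) j} ⊆ ⋃ γ ∈ Set.Iio δ, {j | Nms (p γ) j} := by
      rintro j ⟨γ, hγ, hj⟩
      simp only [Set.mem_iUnion]
      exact ⟨γ, hγ, hj⟩
    exact ((Omega1.countable_Iio δ).biUnion fun γ _ => (nms_finite (p γ)).countable).mono this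
  have hO : {y : Ω × ℕ | y.1 < δ}.Countable :=
    ((Omega1.countable_Iio δ).prod (Set.countable_univ (α := ℕ))).mono
      fun (y : Ω × ℕ) (hy : y.1 < δ) => show y.1 ∈ Set.Iio δ ∧ y.2 ∈ Set.univ from ⟨hy, trivial⟩
  have hOO : {y : (Ω × ℕ) × (Ω × ℕ) | y.1.1 < δ ∧ y.2.1 < δ}.Countable :=
    (hO.prod hO).mono fun (y : (Ω × ℕ) × (Ω × ℕ)) (hy : y.1.1 < δ ∧ y.2.1 < δ) =>
      show y.1.1 < δ ∧ y.2.1 < δ from ⟨hy.1, hy.2⟩
  refine Set.Countable.mono ?_ ((Set.countable_univ (α := ℕ)).prod ((fin_countable hC).prod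
    ((fin_countable hN).prod ((fin_countable hOO).prod (fin_countable hO)))))
  intro x hx
  exact ⟨trivial, hx.1, hx.2.1, hx.2.2.1, hx.2.2.2⟩

theorem fin_lim {δ : Ω} (hδ : IsLim δ) {Y : Type} (Q : Y → Ω → Prop)
    (hQ : ∀ y γ γ', γ ≤ γ' → Q y γ → Q y γ') (s : Finset Y) (h : ∀ y ∈ s, ∃ γ, γ < δ ∧ Q y γ) :
    ∃ γ, γ < δ ∧ ∀ y ∈ s, Q y γ := by
  induction s using Finset.induction_on with
  | empty =>
    obtain ⟨x, hx⟩ := hδ.1
    exact ⟨x, hx, by simp⟩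
  | insert a s ha ih =>
    obtain ⟨γ, h1, h2⟩ := ih fun y hy => h y (Finset.mem_insert_of_mem hy)
    obtain ⟨γ', h3, h4⟩ := h a (Finset.mem_insert_self _ _)
    refine ⟨max γ γ', max_lt h1 h3, fun y hy => ?_⟩
    rcases Finset.mem_insert.1 hy with rfl | hy
    · exact hQ _ _ _ (le_max_right _ _) h4
    · exact hQ _ _ _ (le_max_left _ _) (h2 y hy)

theorem D_mono (p : Ω → Cd Ω I Nm) {γ δ : Ω} (h : γ ≤ δ) : D p γ ⊆ D p δ := by
  rintro x ⟨h1, h2, h3, h4⟩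
  refine ⟨fun j hj => ?_, fun j hj => ?_, fun y hy => ?_, fun y hy => ?_⟩
  · obtain ⟨γ', a, b⟩ := h1 j hj
    exact ⟨γ', a.trans_le h, b⟩
  · obtain ⟨γ', a, b⟩ := h2 j hj
    exact ⟨γ', a.trans_le h, b⟩
  · exact ⟨(h3 y hy).1.trans_le h, (h3 y hy).2.trans_le h⟩
  · exact (h4 y hy).trans_le h

theorem D_lim (p : Ω → Cd Ω I Nm) {δ : Ω} (hδ : IsLim δ) (x : Code Ω I Nm) (hx : x ∈ D p δ) :
    ∃ γ, γ < δ ∧ x ∈ D p γ := by
  obtain ⟨h1, h2, h3, h4⟩ := hx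
  obtain ⟨γ1, a1, b1⟩ := fin_lim hδ (fun j γ => ∃ γ', γ' < γ ∧ Crd (p γ') j)
    (fun y γ γ' h ⟨z, hz, hz'⟩ => ⟨z, hz.trans_le h, hz'⟩) x.2.1 (fun j hj => by
      obtain ⟨γ, hγ, hj'⟩ := h1 j hj
      obtain ⟨γ', h, h'⟩ := hδ.2 γ hγ
      exact ⟨γ', h', γ, h, hj'⟩)
  obtain ⟨γ2, a2, b2⟩ := fin_lim hδ (fun j γ => ∃ γ', γ' < γ ∧ Nms (p γ') j)
    (fun y γ γ' h ⟨z, hz, hz'⟩ => ⟨z, hz.trans_le h, hz'⟩) x.2.2.1 (fun j hj => by
      obtain ⟨γ, hγ, hj'⟩ := h2 j hj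
      obtain ⟨γ', h, h'⟩ := hδ.2 γ hγ
      exact ⟨γ', h', γ, h, hj'⟩)
  obtain ⟨γ3, a3, b3⟩ := fin_lim hδ
    (fun (y : (Ω × ℕ) × (Ω × ℕ)) γ => y.1.1 < γ ∧ y.2.1 < γ)
    (fun y γ γ' h hz => ⟨hz.1.trans_le h, hz.2.trans_le h⟩) x.2.2.2.1 (fun j hj => by
      obtain ⟨γ, h, h'⟩ := hδ.2 _ (max_lt (h3 j hj).1 (h3 j hj).2)
      exact ⟨γ, h', (le_max_left _ _).trans_lt h, (le_max_right _ _).trans_lt h⟩)
  obtain ⟨γ4, a4, b4⟩ := fin_lim hδ
    (fun (y : Ω × ℕ) γ => y.1 < γ)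
    (fun y γ γ' h hz => hz.trans_le h) x.2.2.2.2 (fun j hj => by
      obtain ⟨γ, h, h'⟩ := hδ.2 _ (h4 j hj)
      exact ⟨γ, h', h⟩)
  refine ⟨max (max γ1 γ2) (max γ3 γ4), max_lt (max_lt a1 a2) (max_lt a3 a4),
    fun j hj => ?_, fun j hj => ?_, fun y hy => ?_, fun y hy => ?_⟩
  · obtain ⟨γ', a, b⟩ := b1 j hj
    exact ⟨γ', a.trans_le ((le_max_left _ _).trans (le_max_left _ _)), b⟩
  · obtain ⟨γ', a, b⟩ := b2 j hj
    exact ⟨γ', a.trans_le ((le_max_right _ _).trans (le_max_left _ _)), b⟩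
  · exact ⟨(b3 y hy).1.trans_le ((le_max_left _ _).trans (le_max_right _ _)),
      (b3 y hy).2.trans_le ((le_max_left _ _).trans (le_max_right _ _))⟩
  · exact (b4 y hy).trans_le ((le_max_right _ _).trans (le_max_right _ _))

theorem acode_mem_D (p : Ω → Cd Ω I Nm) (δ : Ω) (j : I) (a : Atom Ω Nm) :
    acode j a ∈ D p δ ↔ (∃ γ, γ < δ ∧ Crd (p γ) j) ∧
      (∀ f, a.Has f → ∃ γ, γ < δ ∧ Nms (p γ) f) ∧ a.Bd δ := by
  unfold D
  simp only [Set.mem_ofPred_eq]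
  cases a <;> simp only [acode, Finset.mem_singleton, forall_eq, forall_eq', Atom.Has, Atom.Bd,
    Finset.notMem_empty, false_imp_iff, implies_true, and_true, and_self, true_and, and_assoc]

theorem Atom.Bd.mono {x : Atom Ω Nm} {γ δ : Ω} (hx : x.Bd γ) (h : γ ≤ δ) : x.Bd δ := by
  cases x
  case node t => exact lt_of_lt_of_le hx h
  case lt s t => exact ⟨lt_of_lt_of_le hx.1 h, lt_of_lt_of_le hx.2 h⟩
  case sp t r => exact lt_of_lt_of_le hx h
  case lab t f c => exact lt_of_lt_of_le hx h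
  case pr t f k => exact ⟨lt_of_lt_of_le hx.1 h, lt_of_lt_of_le hx.2 h⟩
  case dec β f l G => exact ⟨lt_of_lt_of_le hx.1 h, lt_of_lt_of_le hx.2.1 h,
    fun y hy => lt_of_lt_of_le (hx.2.2 y hy) h⟩
  case coh t k c => exact lt_of_lt_of_le hx h

theorem bd_bound (p : Cd Ω I Nm) (a : Ω) : ∃ β, a < β ∧ ∀ x ∈ p, x.2.Bd β := by
  have hex : ∀ x : Atom Ω Nm, ∃ γ, x.Bd γ := by
    intro x
    cases x
    case node t => exact exists_gt' t.1
    case lt s t => 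
      obtain ⟨γ, h⟩ := exists_gt' (max s.1 t.1)
      exact ⟨γ, (le_max_left _ _).trans_lt h, (le_max_right _ _).trans_lt h⟩
    case sp t r => exact exists_gt' t.1
    case lab t f c => exact exists_gt' t.1
    case pr t f k => 
      obtain ⟨γ, h⟩ := exists_gt' (max t.1 k)
      exact ⟨γ, (le_max_left _ _).trans_lt h, (le_max_right _ _).trans_lt h⟩
    case dec β f l G =>
      obtain ⟨γ, h, h'⟩ := exists_gt_all (s := (fun y : Ω × ℕ => y.1) '' (G : Set (Ω × ℕ)))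
        (G.finite_toSet.image _).countable (max β l)
      exact ⟨γ, (le_max_left _ _).trans_lt h, (le_max_right _ _).trans_lt h,
        fun y hy => h' _ ⟨y, hy, rfl⟩⟩
    case coh t k c => exact exists_gt' t
  induction p using Finset.induction_on with
  | empty =>
    obtain ⟨β, hβ⟩ := exists_gt' a
    exact ⟨β, hβ, by simp⟩
  | insert x s hx ih =>
    obtain ⟨γ, h1, h2⟩ := ih
    obtain ⟨γ', h3⟩ := hex x.2
    refine ⟨max γ γ', h1.trans_le (le_max_left _ _), fun y hy => ?_⟩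
    rcases Finset.mem_insert.1 hy with rfl | hy
    · exact h3.mono (le_max_right _ _)
    · exact (h2 y hy).mono (le_max_left _ _)

/-- two conditions of the same type form a good pair -/
theorem exists_goodPair (p : Ω → Cd Ω I Nm) (n : Ω → ℕ) (e : Ω → Finset (Ω × ℕ))
    (he : ∀ δ, IsLim δ → ∀ x ∈ e δ, x.1 < δ) (g : Ω → Ω) (γ₀ : Ω) :
    ∃ α β, γ₀ < α ∧ IsLim α ∧ IsLim β ∧ GoodPair α β (p α) (p β) ∧ n α = n β ∧ e α = e β ∧
      g α < β := by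
  obtain ⟨τ₀, hτ₀⟩ := press (D p) (D_countable p) (fun γ δ h => D_mono p h)
    (fun δ hδ x hx => D_lim p hδ x hx)
    (fun δ => (full (p δ) ∪ {(10 + n δ, ∅, ∅, ∅, e δ)}).filter (fun x => x ∈ D p δ))
    (fun δ hδ x hx => (Finset.mem_filter.1 hx).2)
  obtain ⟨α, h0, hα, hτα⟩ := hτ₀ γ₀
  obtain ⟨γ, hγ, hpγ⟩ := bd_bound (p α) (max α (g α))
  obtain ⟨β, hβγ, hβ, hτβ⟩ := hτ₀ γ
  have hαβ : α < β := (le_max_left _ _).trans_lt (hγ.trans hβγ)
  have key : ∀ x, x ∈ D p β → x ∈ full (p β) ∪ {(10 + n β, ∅, ∅, ∅, e β)} →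
      (x ∈ full (p α) ∪ {(10 + n α, ∅, ∅, ∅, e α)} ∧ x ∈ D p α) := by
    intro x h1 h2
    have : x ∈ τ₀ := by rw [← hτβ]; exact Finset.mem_filter.2 ⟨h2, h1⟩
    rw [← hτα] at this
    exact Finset.mem_filter.1 this
  have key' : ∀ x, x ∈ D p α → x ∈ full (p α) ∪ {(10 + n α, ∅, ∅, ∅, e α)} →
      x ∈ full (p β) ∪ {(10 + n β, ∅, ∅, ∅, e β)} := by
    intro x h1 h2
    have : x ∈ τ₀ := by rw [← hτα]; exact Finset.mem_filter.2 ⟨h2, h1⟩
    rw [← hτβ] at this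
    exact (Finset.mem_filter.1 this).1
  -- decoding
  have cin : ∀ (q : Cd Ω I Nm) (c : Code Ω I Nm) j (a : Atom Ω Nm), (∃ i m, c = (10 + i, m)) →
      (acode j a ∈ full q ∪ {c} ↔ (j, a) ∈ q) := by
    intro q c j a hc
    constructor
    · intro h
      simp only [full, Finset.mem_union, Finset.mem_image, Finset.mem_singleton,
        Set.Finite.mem_toFinset] at h
      rcases h with (((⟨x, hx, hx'⟩ | ⟨x, hx, hx'⟩) | ⟨x, hx, hx'⟩) | ⟨j', f, u, t, k, l, G, h1, h2,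
        h3, h4, h5⟩) | h
      · obtain ⟨e1, e2⟩ := acode_inj hx'
        have : x = (j, a) := Prod.ext e1 e2
        exact this ▸ hx
      · exfalso; cases a <;> simp [acode] at hx'
      · exfalso; cases a <;> simp [acode] at hx'
      · exfalso; cases a <;> simp [acode] at h5
      · exfalso
        obtain ⟨i, m, rfl⟩ := hc
        cases a <;> simp [acode, Prod.ext_iff] at h <;> omega
    · intro h
      simp only [full, Finset.mem_union, Finset.mem_image]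
      exact Or.inl (Or.inl (Or.inl (Or.inl ⟨_, h, rfl⟩)))
  have c8 : ∀ (q : Cd Ω I Nm) (c : Code Ω I Nm) j,
      Crd q j → ((8, {j}, ∅, ∅, ∅) : Code Ω I Nm) ∈ full q ∪ {c} := by
    rintro q c j ⟨a, ha⟩
    simp only [full, Finset.mem_union, Finset.mem_image]
    exact Or.inl (Or.inl (Or.inl (Or.inr ⟨_, ha, rfl⟩)))
  have c9 : ∀ (q : Cd Ω I Nm) (c : Code Ω I Nm) f,
      Nms q f → ((9, ∅, {f}, ∅, ∅) : Code Ω I Nm) ∈ full q ∪ {c} := by
    rintro q c f ⟨⟨j, a⟩, ha, hf⟩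
    simp only [full, Finset.mem_union, Finset.mem_image]
    refine Or.inl (Or.inl (Or.inr ⟨_, ha, ?_⟩))
    have : Atom.nmF a = {f} := by
      cases a <;> simp only [Atom.Has] at hf <;> first | exact hf.elim | rw [← hf]; rfl
    rw [this]
  have crdα : ∀ j, Crd (p α) j → Crd (p β) j → ∃ γ, γ < α ∧ Crd (p γ) j := by
    intro j h1 h2
    have := (key (8, {j}, ∅, ∅, ∅) (by simp only [D, Set.mem_ofPred_eq]; simp; exact ⟨α, hαβ, h1⟩)
      (c8 _ _ _ h2)).2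
    simp only [D, Set.mem_ofPred_eq] at this
    simpa using this
  have nmsα : ∀ f, Nms (p α) f → Nms (p β) f → ∃ γ, γ < α ∧ Nms (p γ) f := by
    intro j h1 h2
    have := (key (9, ∅, {j}, ∅, ∅) (by simp only [D, Set.mem_ofPred_eq]; simp; exact ⟨α, hαβ, h1⟩)
      (c9 _ _ _ h2)).2
    simp only [D, Set.mem_ofPred_eq] at this
    simpa using this
  refine ⟨α, β, h0, hα, hβ, ⟨hαβ, ?_, ?_, ?_, ?_⟩, ?_, ?_, ?_⟩
  · intro x hx
    exact (hpγ x hx).mono hβγ.le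
  · rintro ⟨j, a⟩ hx hj hf hb
    have := key (acode j a) ((acode_mem_D p β j a).2 ⟨⟨α, hαβ, hj⟩,
      fun f hf' => ⟨α, hαβ, hf f hf'⟩, hb⟩) ((cin _ _ j a ⟨_, _, rfl⟩).2 hx)
    exact ⟨(cin _ _ j a ⟨_, _, rfl⟩).1 this.1, ((acode_mem_D p α j a).1 this.2).2.2⟩
  · rintro ⟨j, a⟩ hx hj hf hb
    have hj' : Crd (p α) j := ⟨a, hx⟩
    have := key' (acode j a) ((acode_mem_D p α j a).2 ⟨crdα j hj' hj,
      fun f hf' => nmsα f ⟨_, hx, hf'⟩ (hf f hf'), hb⟩) ((cin _ _ j a ⟨_, _, rfl⟩).2 hx)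
    exact (cin _ _ j a ⟨_, _, rfl⟩).1 this
  · intro j f u t k l G hf hu hu' hle hpr hdec
    have hb : u.1 < β := (hpγ _ hu : u.1 < γ).trans hβγ
    have := (key (7, {j}, {f}, {(u, u)}, G.filter (fun y => k ≤ y.1 ∧ y.1 < u.1)) (by
      simp only [D, Set.mem_ofPred_eq, Finset.mem_singleton, forall_eq, Finset.mem_filter]
      exact ⟨⟨α, hαβ, _, hu⟩, ⟨α, hαβ, hf⟩, ⟨hb, hb⟩, fun y hy => hy.2.2.trans hb⟩)
      (by
        simp only [full, Finset.mem_union, Set.Finite.mem_toFinset]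
        exact Or.inl (Or.inr ⟨j, f, u, t, k, l, G, hu', hle, hpr, hdec, rfl⟩))).1
    simp only [full, Finset.mem_union, Finset.mem_image, Finset.mem_singleton,
        Set.Finite.mem_toFinset] at this
    rcases this with (((⟨⟨j', a⟩, hx, hx'⟩ | ⟨x, hx, hx'⟩) | ⟨x, hx, hx'⟩) |
      ⟨j', f', u', t', k', l', G', h1, h2, h3, h4, h5⟩) | h
    · exfalso; cases a <;> simp [acode] at hx'
    · exfalso; simp at hx'
    · exfalso; simp at hx'
    · simp only [Prod.mk.injEq, Finset.singleton_inj, true_and, and_self] at h5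
      obtain ⟨rfl, rfl, rfl, h6⟩ := h5
      refine ⟨t', k', l', G', h2, h3, h4, fun ξ m hξ hk hG => ?_⟩
      have : (ξ, m) ∈ G.filter (fun y => k ≤ y.1 ∧ y.1 < u.1) :=
        Finset.mem_filter.2 ⟨hG, hk, hξ⟩
      rw [h6] at this
      exact ⟨(Finset.mem_filter.1 this).2.1, (Finset.mem_filter.1 this).1⟩
    · exfalso
      simp [Prod.ext_iff] at h
  · have := key' (10 + n α, ∅, ∅, ∅, e α) (by
      simp only [D, Set.mem_ofPred_eq]
      refine ⟨by simp, by simp, by simp, he α hα⟩) (by simp)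
    simp only [full, Finset.mem_union, Finset.mem_image, Finset.mem_singleton,
        Set.Finite.mem_toFinset] at this
    rcases this with (((⟨⟨j', a⟩, hx, hx'⟩ | ⟨x, hx, hx'⟩) | ⟨x, hx, hx'⟩) |
      ⟨j', f', u', t', k', l', G', h1, h2, h3, h4, h5⟩) | h
    · exfalso; cases a <;> simp [acode, Prod.ext_iff] at hx'
    · exfalso; simp [Prod.ext_iff] at hx'
    · exfalso; simp [Prod.ext_iff] at hx'; have := hx'.1; omega
    · exfalso; simp [Prod.ext_iff] at h5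
    · simp [Prod.ext_iff] at h
      exact h.1
  · have := key' (10 + n α, ∅, ∅, ∅, e α) (by
      simp only [D, Set.mem_ofPred_eq]
      refine ⟨by simp, by simp, by simp, he α hα⟩) (by simp)
    simp only [full, Finset.mem_union, Finset.mem_image, Finset.mem_singleton,
        Set.Finite.mem_toFinset] at this
    rcases this with (((⟨⟨j', a⟩, hx, hx'⟩ | ⟨x, hx, hx'⟩) | ⟨x, hx, hx'⟩) |
      ⟨j', f', u', t', k', l', G', h1, h2, h3, h4, h5⟩) | h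
    · exfalso; cases a <;> simp [acode, Prod.ext_iff] at hx'
    · exfalso; simp [Prod.ext_iff] at hx'
    · exfalso; simp [Prod.ext_iff] at hx'; have := hx'.1; omega
    · exfalso; simp [Prod.ext_iff] at h5
    · simp [Prod.ext_iff] at h
      exact h.2
  · exact (le_max_right _ _).trans_lt (hγ.trans hβγ)

end

end Pool.Agent.LadderTree
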