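import Pool.Agent.LadderTree.Cond

/-!
# Unions of similar conditions
-/

namespace Pool.Agent.LadderTree

open Classical

set_option linter.unusedSectionVars false
set_option linter.unusedVariables false

section

variable {Ω I Nm : Type} [LinearOrder Ω] [LinearOrder I]

/-- all ordinals mentioned are below `δ` -/
def Atom.Bd (δ : Ω) : Atom Ω Nm → Prop
  | .node t => t.1 < δ
  | .lt s t => s.1 < δ ∧ t.1 < δ
  | .sp t _ => t.1 < δ
  | .lab s _ _ => s.1 < δ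
  | .pr t _ k => t.1 < δ ∧ k < δ
  | .dec β _ l G => β < δ ∧ l < δ ∧ ∀ x ∈ G, x.1 < δ
  | .coh α _ _ => α < δ

/-- the name mentioned in an atom -/
def Atom.Has : Atom Ω Nm → Nm → Prop
  | .lab _ f _, g => f = g
  | .pr _ f _, g => f = g
  | .dec _ f _ _, g => f = g
  | _, _ => False

/-- stages mentioned in a condition -/
def Crd (p : Cd Ω I Nm) (j : I) : Prop := ∃ a, (j, a) ∈ p

/-- names mentioned in a condition -/
def Nms (p : Cd Ω I Nm) (f : Nm) : Prop := ∃ x ∈ p, x.2.Has f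

/-- two conditions which look the same from below -/
structure GoodPair (α β : Ω) (p q : Cd Ω I Nm) : Prop where
  lt : α < β
  h1 : ∀ x ∈ p, x.2.Bd β
  h2 : ∀ x ∈ q, Crd p x.1 → (∀ f, x.2.Has f → Nms p f) → x.2.Bd β → x ∈ p ∧ x.2.Bd α
  h3 : ∀ x ∈ p, Crd q x.1 → (∀ f, x.2.Has f → Nms q f) → x.2.Bd α → x ∈ q
  h5 : ∀ j f u t k l G, Nms p f → (j, .node u) ∈ p → (j, .node u) ∈ q →
    Le (fun a => (j, a) ∈ q) u t → (j, .pr t f k) ∈ q → (j, .dec t.1 f l G) ∈ q →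
    ∃ t' k' l' G', Le (fun a => (j, a) ∈ p) u t' ∧ (j, .pr t' f k') ∈ p ∧
      (j, .dec t'.1 f l' G') ∈ p ∧ ∀ ξ m, ξ < u.1 → k ≤ ξ → (ξ, m) ∈ G → k' ≤ ξ ∧ (ξ, m) ∈ G'

theorem Fpos.not_Fneg {W : Cd Ω I Nm → Prop} {q : Cd Ω I Nm} {A : Set (Cd Ω I Nm)} (hW : W q)
    (h : Fpos W q A) (h' : Fneg W q A) : False := by
  obtain ⟨q'', h1, h2, s, hs, hsq⟩ := h q subset_rfl hW
  exact h' q'' h1 h2 s hs hsq

variable {cd : Nm → Ω → Ω → ℕ → Set (Cd Ω I Nm)}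

theorem DecF.coh {W : Cd Ω I Nm → Prop} {q : Cd Ω I Nm} {f : Nm} {β l l' : Ω}
    {G G' : Finset (Ω × ℕ)} (hW : W q) (h : DecF cd W q f β l G) (h' : DecF cd W q f β l' G')
    {ξ : Ω} {m : ℕ} (hl : ξ < l) (hl' : ξ < l') (hG : (ξ, m) ∈ G) : (ξ, m) ∈ G' := by
  by_contra hn
  exact ((h ξ m hl).1 hG).not_Fneg hW ((h' ξ m hl').2 hn)

variable [WellFoundedLT I]

theorem V_of_step {p : Cd Ω I Nm} {j : I} (h : ∀ j', j' < j → Step cd (V cd j') j' p) :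
    V cd j (restr p j) := by
  rw [V_iff]
  refine ⟨fun x hx => (mem_restr.1 hx).2, fun j' hj => ?_⟩
  refine (h j' hj).of_eq (fun a => ?_) (fun x hx => ?_)
  · rw [mem_restr]; exact ⟨fun h => ⟨h, hj⟩, fun h => h.1⟩
  · rw [mem_restr, mem_restr]
    rw [mem_restr] at hx
    exact ⟨⟨hx.1, hx.2.trans hj⟩, hx.2⟩

theorem GoodPair.union {α β : Ω} {p q : Cd Ω I Nm} (h : GoodPair α β p q) (hp : Vt cd p)
    (hq : Vt cd q) : Vt cd (p ∪ q) := by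
  intro j
  induction j using WellFoundedLT.induction with
  | _ j IH =>
  have hV : V cd j (restr (p ∪ q) j) := V_of_step IH
  have hpr : restr p j ⊆ restr (p ∪ q) j := restr_mono Finset.subset_union_left j
  have hqr : restr q j ⊆ restr (p ∪ q) j := restr_mono Finset.subset_union_right j
  have hZ : ∀ a, (j, a) ∈ p ∪ q ↔ (j, a) ∈ p ∨ (j, a) ∈ q := fun a => Finset.mem_union
  have hdec : ∀ β f l G, (j, Atom.dec β f l G) ∈ p ∪ q →
      l < β ∧ GOK l G ∧ DecF cd (V cd j) (restr (p ∪ q) j) f β l G := by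
    intro β f l G hx
    rcases (hZ _).1 hx with hx | hx
    · obtain ⟨a1, a2, a3⟩ := (hp j).dec _ _ _ _ hx
      exact ⟨a1, a2, a3.mono hpr⟩
    · obtain ⟨a1, a2, a3⟩ := (hq j).dec _ _ _ _ hx
      exact ⟨a1, a2, a3.mono hqr⟩
  refine ⟨?_, hdec, fun t f k hx => ?_⟩
  swap
  · rcases (hZ _).1 hx with hx | hx
    · exact (hp j).pr _ _ _ hx
    · exact (hq j).pr _ _ _ hx
  by_cases hcp : Crd p j
  swap
  · refine (hq j).ok.congr fun a => ?_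
    rw [hZ]
    exact ⟨Or.inr, fun h => h.elim (fun h => absurd ⟨a, h⟩ hcp) id⟩
  by_cases hcq : Crd q j
  swap
  · refine (hp j).ok.congr fun a => ?_
    rw [hZ]
    exact ⟨Or.inl, fun h => h.elim id (fun h => absurd ⟨a, h⟩ hcq)⟩
  have X := (hp j).ok
  have Y := (hq j).ok
  -- coherence of decisions
  have hc : ∀ β f l l' G G', (j, Atom.dec β f l G) ∈ p ∪ q → (j, Atom.dec β f l' G') ∈ p ∪ q →
      ∀ ξ m, ξ < l' → (ξ, m) ∈ G → (ξ, m) ∈ G' := by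
    intro β f l l' G G' h1 h2 ξ m hξ hG
    obtain ⟨a1, a2, a3⟩ := hdec _ _ _ _ h1
    obtain ⟨b1, b2, b3⟩ := hdec _ _ _ _ h2
    exact a3.coh hV b3 (a2.1 _ hG) hξ hG
  have nX : ∀ a, (j, a) ∈ p → ∀ f, a.Has f → Nms p f := fun a ha f hf => ⟨_, ha, hf⟩
  have nY : ∀ a, (j, a) ∈ q → ∀ f, a.Has f → Nms q f := fun a ha f hf => ⟨_, ha, hf⟩
  have hYX : ∀ a : Atom Ω Nm, (j, a) ∈ q → (∀ f, a.Has f → Nms p f) → a.Bd β →
      (j, a) ∈ p ∧ a.Bd α := fun a ha hn hb => h.h2 (j, a) ha hcp hn hb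
  have hXY : ∀ a : Atom Ω Nm, (j, a) ∈ p → (∀ f, a.Has f → Nms q f) → a.Bd α →
      (j, a) ∈ q := fun a ha hn hb => h.h3 (j, a) ha hcq hn hb
  have hXb : ∀ a : Atom Ω Nm, (j, a) ∈ p → a.Bd β := fun a ha => h.h1 _ ha
  -- nodes
  have nodeYX : ∀ t, (j, Atom.node t) ∈ q → t.1 < β → (j, Atom.node t) ∈ p ∧ t.1 < α :=
    fun t ht hb => hYX _ ht (fun f hf => hf.elim) hb
  have nodeXY : ∀ t, (j, Atom.node t) ∈ p → t.1 < α → (j, Atom.node t) ∈ q :=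
    fun t ht hb => hXY _ ht (fun f hf => hf.elim) hb
  have nodeXb : ∀ t, (j, Atom.node t) ∈ p → t.1 < β := fun t ht => hXb _ ht
  have ltYX : ∀ s t, (j, Atom.lt s t) ∈ q → t.1 < β →
      (j, Atom.lt s t) ∈ p ∧ s.1 < α ∧ t.1 < α := by
    intro s t hst hb
    have h1 := Y.lt_node _ _ hst
    exact hYX _ hst (fun f hf => hf.elim) ⟨h1.2.2.trans hb, hb⟩
  have ltXY : ∀ s t, (j, Atom.lt s t) ∈ p → t.1 < α → (j, Atom.lt s t) ∈ q := by
    intro s t hst hb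
    have h1 := X.lt_node _ _ hst
    exact hXY _ hst (fun f hf => hf.elim) ⟨h1.2.2.trans hb, hb⟩
  have prYX : ∀ t f k, (j, Atom.pr t f k) ∈ q → Nms p f → t.1 < β → (j, Atom.pr t f k) ∈ p := by
    intro t f k hx hf hb
    have h1 := Y.pr_node _ _ _ hx
    exact (hYX _ hx (fun g hg => by cases hg; exact hf) ⟨hb, h1.2.1.trans hb⟩).1
  have prXY : ∀ t f k, (j, Atom.pr t f k) ∈ p → Nms q f → t.1 < α → (j, Atom.pr t f k) ∈ q := by
    intro t f k hx hf hb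
    have h1 := X.pr_node _ _ _ hx
    exact (hXY _ hx (fun g hg => by cases hg; exact hf) ⟨hb, h1.2.1.trans hb⟩)
  have decYX : ∀ β' f l G, (j, Atom.dec β' f l G) ∈ q → Nms p f → β' < β →
      (j, Atom.dec β' f l G) ∈ p := by
    intro β' f l G hx hf hb
    obtain ⟨a1, a2, a3⟩ := (hq j).dec _ _ _ _ hx
    exact (hYX _ hx (fun g hg => by cases hg; exact hf)
      ⟨hb, a1.trans hb, fun y hy => (a2.1 y hy).trans (a1.trans hb)⟩).1
  have decXY : ∀ β' f l G, (j, Atom.dec β' f l G) ∈ p → Nms q f → β' < α →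
      (j, Atom.dec β' f l G) ∈ q := by
    intro β' f l G hx hf hb
    obtain ⟨a1, a2, a3⟩ := (hp j).dec _ _ _ _ hx
    exact (hXY _ hx (fun g hg => by cases hg; exact hf)
      ⟨hb, a1.trans hb, fun y hy => (a2.1 y hy).trans (a1.trans hb)⟩)
  -- a promise above `u` lives in one of the two conditions
  have side : ∀ u t f k, (j, Atom.lt u t) ∈ p ∪ q → (j, Atom.pr t f k) ∈ p ∪ q →
      ((j, Atom.lt u t) ∈ p ∧ (j, Atom.pr t f k) ∈ p) ∨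
      ((j, Atom.lt u t) ∈ q ∧ (j, Atom.pr t f k) ∈ q) := by
    intro u t f k hut hpr
    rcases (hZ _).1 hut with h1 | h1 <;> rcases (hZ _).1 hpr with h2 | h2
    · exact Or.inl ⟨h1, h2⟩
    · -- lt in p, pr in q
      have hn := X.lt_node _ _ h1
      have hb := nodeXb _ hn.2.1
      have hn2 := Y.pr_node _ _ _ h2
      have ha := (nodeYX _ hn2.1 hb).2
      exact Or.inr ⟨ltXY _ _ h1 ha, h2⟩
    · have hn2 := X.pr_node _ _ _ h2
      have hb := nodeXb _ hn2.1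
      exact Or.inl ⟨(ltYX _ _ h1 hb).1, h2⟩
    · exact Or.inr ⟨h1, h2⟩
  -- a promise together with a decision
  have side2 : ∀ u t f k l G ξ m, Le (fun a => (j, a) ∈ p ∪ q) u t →
      (j, Atom.pr t f k) ∈ p ∪ q → (j, Atom.dec t.1 f l G) ∈ p ∪ q → (ξ, m) ∈ G → ξ < u.1 →
      k ≤ ξ → (∃ l' G', Le (fun a => (j, a) ∈ p) u t ∧ (j, Atom.pr t f k) ∈ p ∧
        (j, Atom.dec t.1 f l' G') ∈ p ∧ (ξ, m) ∈ G') ∨
        (∃ l' G', Le (fun a => (j, a) ∈ q) u t ∧ (j, Atom.pr t f k) ∈ q ∧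
        (j, Atom.dec t.1 f l' G') ∈ q ∧ (ξ, m) ∈ G') := by
    intro u t f k l G ξ m hut hpr hd hG hξ hk
    rcases hut with rfl | hut
    · rcases (hZ _).1 hpr with h2 | h2
      · left
        refine ⟨l, G, Or.inl rfl, h2, ?_, hG⟩
        rcases (hZ _).1 hd with h3 | h3
        · exact h3
        · have hn2 := X.pr_node _ _ _ h2
          exact decYX _ _ _ _ h3 ⟨_, h2, rfl⟩ (nodeXb _ hn2.1)
      · right
        refine ⟨l, G, Or.inl rfl, h2, ?_, hG⟩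
        rcases (hZ _).1 hd with h3 | h3
        · have hn2 := Y.pr_node _ _ _ h2
          have hb : u.1 < β := (hXb _ h3).1
          exact decXY _ _ _ _ h3 ⟨_, h2, rfl⟩ (nodeYX _ hn2.1 hb).2
        · exact h3
    · rcases side u t f k hut hpr with ⟨h1, h2⟩ | ⟨h1, h2⟩
      · left
        obtain ⟨l', G', hd', hl'⟩ := X.v1 u t f k h1 h2 (hk.trans hξ.le)
        refine ⟨l', G', Or.inr h1, h2, hd', ?_⟩
        exact hc _ _ _ _ _ _ hd ((hZ _).2 (Or.inl hd')) ξ m (hξ.trans hl') hG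
      · right
        obtain ⟨l', G', hd', hl'⟩ := Y.v1 u t f k h1 h2 (hk.trans hξ.le)
        refine ⟨l', G', Or.inr h1, h2, hd', ?_⟩
        exact hc _ _ _ _ _ _ hd ((hZ _).2 (Or.inr hd')) ξ m (hξ.trans hl') hG
  have leNodeX : ∀ u t f k, Le (fun a => (j, a) ∈ p) u t → (j, Atom.pr t f k) ∈ p →
      (j, Atom.node u) ∈ p := by
    intro u t f k hut hpr
    rcases hut with rfl | hut
    · exact (X.pr_node _ _ _ hpr).1
    · exact (X.lt_node _ _ hut).1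
  have leNodeY : ∀ u t f k, Le (fun a => (j, a) ∈ q) u t → (j, Atom.pr t f k) ∈ q →
      (j, Atom.node u) ∈ q := by
    intro u t f k hut hpr
    rcases hut with rfl | hut
    · exact (Y.pr_node _ _ _ hpr).1
    · exact (Y.lt_node _ _ hut).1
  -- the mixed case of `v3`
  have mixed : ∀ u t₁ t₂ f k₁ k₂ l₁ l₂ G₁ G₂ ξ m₁ m₂, Le (fun a => (j, a) ∈ p) u t₁ →
      (j, Atom.pr t₁ f k₁) ∈ p → (j, Atom.dec t₁.1 f l₁ G₁) ∈ p → (ξ, m₁) ∈ G₁ →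
      Le (fun a => (j, a) ∈ q) u t₂ →
      (j, Atom.pr t₂ f k₂) ∈ q → (j, Atom.dec t₂.1 f l₂ G₂) ∈ q → (ξ, m₂) ∈ G₂ →
      ξ < u.1 → k₁ ≤ ξ → k₂ ≤ ξ → m₁ = m₂ := by
    intro u t₁ t₂ f k₁ k₂ l₁ l₂ G₁ G₂ ξ m₁ m₂ a1 a2 a3 a4 b1 b2 b3 b4 hξ hk1 hk2
    obtain ⟨t', k', l', G', c1, c2, c3, c4⟩ := h.h5 j f u t₂ k₂ l₂ G₂ ⟨_, a2, rfl⟩
      (leNodeX _ _ _ _ a1 a2) (leNodeY _ _ _ _ b1 b2) b1 b2 b3
    obtain ⟨c5, c6⟩ := c4 ξ m₂ hξ hk2 b4
    exact X.v3 u t₁ t' f k₁ k' l₁ l' G₁ G' ξ m₁ m₂ a1 c1 a2 c2 a3 c3 a4 c6 hξ hk1 c5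
  constructor
  · -- lt_node
    intro s t hst
    rcases (hZ _).1 hst with h1 | h1
    · obtain ⟨a, b, c⟩ := X.lt_node _ _ h1
      exact ⟨(hZ _).2 (Or.inl a), (hZ _).2 (Or.inl b), c⟩
    · obtain ⟨a, b, c⟩ := Y.lt_node _ _ h1
      exact ⟨(hZ _).2 (Or.inr a), (hZ _).2 (Or.inr b), c⟩
  · -- lt_trans
    intro s t u hst htu
    rw [hZ]
    rcases (hZ _).1 hst with h1 | h1 <;> rcases (hZ _).1 htu with h2 | h2
    · exact Or.inl (X.lt_trans _ _ _ h1 h2)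
    · have hn := (Y.lt_node _ _ h2).1
      have hb := nodeXb _ (X.lt_node _ _ h1).2.1
      exact Or.inr (Y.lt_trans _ _ _ (ltXY _ _ h1 (nodeYX _ hn hb).2) h2)
    · have hb := nodeXb _ (X.lt_node _ _ h2).1
      exact Or.inl (X.lt_trans _ _ _ (ltYX _ _ h1 hb).1 h2)
    · exact Or.inr (Y.lt_trans _ _ _ h1 h2)
  · -- lt_tree
    intro s t u hsu htu
    rw [hZ, hZ]
    rcases (hZ _).1 hsu with h1 | h1 <;> rcases (hZ _).1 htu with h2 | h2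
    · rcases X.lt_tree _ _ _ h1 h2 with h | h | h
      · exact Or.inl h
      · exact Or.inr (Or.inl (Or.inl h))
      · exact Or.inr (Or.inr (Or.inl h))
    · have hb := nodeXb _ (X.lt_node _ _ h1).2.1
      rcases X.lt_tree _ _ _ h1 (ltYX _ _ h2 hb).1 with h | h | h
      · exact Or.inl h
      · exact Or.inr (Or.inl (Or.inl h))
      · exact Or.inr (Or.inr (Or.inl h))
    · have hb := nodeXb _ (X.lt_node _ _ h2).2.1
      rcases X.lt_tree _ _ _ (ltYX _ _ h1 hb).1 h2 with h | h | h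
      · exact Or.inl h
      · exact Or.inr (Or.inl (Or.inl h))
      · exact Or.inr (Or.inr (Or.inl h))
    · rcases Y.lt_tree _ _ _ h1 h2 with h | h | h
      · exact Or.inl h
      · exact Or.inr (Or.inl (Or.inr h))
      · exact Or.inr (Or.inr (Or.inr h))
  · -- sp_uniq
    intro t r r' h1 h2
    rcases (hZ _).1 h1 with h1 | h1 <;> rcases (hZ _).1 h2 with h2 | h2
    · exact X.sp_uniq _ _ _ h1 h2
    · exact X.sp_uniq _ _ _ h1 (hYX _ h2 (fun f hf => hf.elim) (show t.1 < β from hXb _ h1)).1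
    · exact X.sp_uniq _ _ _ (hYX _ h1 (fun f hf => hf.elim) (show t.1 < β from hXb _ h2)).1 h2
    · exact Y.sp_uniq _ _ _ h1 h2
  · -- sp_lt
    intro s t r r' hst h1 h2
    rcases (hZ _).1 hst with h0 | h0
    · obtain ⟨n1, n2, n3⟩ := X.lt_node _ _ h0
      have e1 : (j, Atom.sp s r) ∈ p := by
        rcases (hZ _).1 h1 with h1 | h1
        · exact h1
        · exact (hYX _ h1 (fun f hf => hf.elim) (show s.1 < β from nodeXb _ n1)).1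
      have e2 : (j, Atom.sp t r') ∈ p := by
        rcases (hZ _).1 h2 with h2 | h2
        · exact h2
        · exact (hYX _ h2 (fun f hf => hf.elim) (show t.1 < β from nodeXb _ n2)).1
      exact X.sp_lt _ _ _ _ h0 e1 e2
    · obtain ⟨n1, n2, n3⟩ := Y.lt_node _ _ h0
      have e1 : (j, Atom.sp s r) ∈ q := by
        rcases (hZ _).1 h1 with h1 | h1
        · have hb : s.1 < β := hXb _ h1
          exact hXY _ h1 (fun f hf => hf.elim) (show s.1 < α from (nodeYX _ n1 hb).2)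
        · exact h1
      have e2 : (j, Atom.sp t r') ∈ q := by
        rcases (hZ _).1 h2 with h2 | h2
        · have hb : t.1 < β := hXb _ h2
          exact hXY _ h2 (fun f hf => hf.elim) (show t.1 < α from (nodeYX _ n2 hb).2)
        · exact h2
      exact Y.sp_lt _ _ _ _ h0 e1 e2
  · -- lab_uniq
    intro s f c c' h1 h2
    rcases (hZ _).1 h1 with h1 | h1 <;> rcases (hZ _).1 h2 with h2 | h2
    · exact X.lab_uniq _ _ _ _ h1 h2
    · exact X.lab_uniq _ _ _ _ h1 (hYX _ h2 (fun g hg => by cases hg; exact ⟨_, h1, rfl⟩)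
        (show s.1 < β from hXb _ h1)).1
    · exact X.lab_uniq _ _ _ _ (hYX _ h1 (fun g hg => by cases hg; exact ⟨_, h2, rfl⟩)
        (show s.1 < β from hXb _ h2)).1 h2
    · exact Y.lab_uniq _ _ _ _ h1 h2
  · -- coh_uniq
    intro a k c c' h1 h2
    rcases (hZ _).1 h1 with h1 | h1 <;> rcases (hZ _).1 h2 with h2 | h2
    · exact X.coh_uniq _ _ _ _ h1 h2
    · exact X.coh_uniq _ _ _ _ h1 (hYX _ h2 (fun f hf => hf.elim) (show a < β from hXb _ h1)).1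
    · exact X.coh_uniq _ _ _ _ (hYX _ h1 (fun f hf => hf.elim) (show a < β from hXb _ h2)).1 h2
    · exact Y.coh_uniq _ _ _ _ h1 h2
  · -- pr_node
    intro t f k h1
    rw [hZ]
    rcases (hZ _).1 h1 with h1 | h1
    · obtain ⟨a, b⟩ := X.pr_node _ _ _ h1
      exact ⟨Or.inl a, b⟩
    · obtain ⟨a, b⟩ := Y.pr_node _ _ _ h1
      exact ⟨Or.inr a, b⟩
  · -- v1
    intro u t f k h1 h2 hk
    rcases side _ _ _ _ h1 h2 with ⟨h1, h2⟩ | ⟨h1, h2⟩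
    · obtain ⟨l, G, a, b⟩ := X.v1 _ _ _ _ h1 h2 hk
      exact ⟨l, G, (hZ _).2 (Or.inl a), b⟩
    · obtain ⟨l, G, a, b⟩ := Y.v1 _ _ _ _ h1 h2 hk
      exact ⟨l, G, (hZ _).2 (Or.inr a), b⟩
  · -- v2a
    intro u t f k h1 h2 hk
    rcases side _ _ _ _ h1 h2 with ⟨h1, h2⟩ | ⟨h1, h2⟩
    · obtain ⟨c, a⟩ := X.v2a _ _ _ _ h1 h2 hk
      exact ⟨c, (hZ _).2 (Or.inl a)⟩
    · obtain ⟨c, a⟩ := Y.v2a _ _ _ _ h1 h2 hk
      exact ⟨c, (hZ _).2 (Or.inr a)⟩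
  · -- v2b
    intro u t f k l G m c h1 h2 hk hd hG hl
    rcases side _ _ _ _ h1 h2 with ⟨h1, h2⟩ | ⟨h1, h2⟩
    · obtain ⟨l', G', a, b⟩ := X.v1 _ _ _ _ h1 h2 hk
      obtain ⟨c', a'⟩ := X.v2a _ _ _ _ h1 h2 hk
      have e := hc _ _ _ _ _ _ hd ((hZ _).2 (Or.inl a)) _ _ b hG
      have e2 := X.v2b _ _ _ _ _ _ _ _ h1 h2 hk a e a'
      rw [e2]
      rcases (hZ _).1 hl with hl | hl
      · exact X.lab_uniq _ _ _ _ a' hl
      · exact X.lab_uniq _ _ _ _ a' (hYX _ hl (fun g hg => by cases hg; exact ⟨_, a', rfl⟩)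
          (show u.1 < β from hXb _ a')).1
    · obtain ⟨l', G', a, b⟩ := Y.v1 _ _ _ _ h1 h2 hk
      obtain ⟨c', a'⟩ := Y.v2a _ _ _ _ h1 h2 hk
      have e := hc _ _ _ _ _ _ hd ((hZ _).2 (Or.inr a)) _ _ b hG
      have e2 := Y.v2b _ _ _ _ _ _ _ _ h1 h2 hk a e a'
      rw [e2]
      rcases (hZ _).1 hl with hl | hl
      · have hb : u.1 < β := hXb _ hl
        have hn := (Y.lt_node _ _ h1).1
        exact Y.lab_uniq _ _ _ _ a' (hXY _ hl (fun g hg => by cases hg; exact ⟨_, a', rfl⟩)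
          (show u.1 < α from (nodeYX _ hn hb).2))
      · exact Y.lab_uniq _ _ _ _ a' hl
  · -- v3
    intro u t₁ t₂ f k₁ k₂ l₁ l₂ G₁ G₂ ξ m₁ m₂ a1 b1 a2 b2 a3 b3 a4 b4 hξ hk1 hk2
    obtain ⟨l₁', G₁', a1, a2, a3, a4⟩ | ⟨l₁', G₁', a1, a2, a3, a4⟩ :=
      side2 u t₁ f k₁ l₁ G₁ ξ m₁ a1 a2 a3 a4 hξ hk1 <;>
    obtain ⟨l₂', G₂', b1, b2, b3, b4⟩ | ⟨l₂', G₂', b1, b2, b3, b4⟩ :=
      side2 u t₂ f k₂ l₂ G₂ ξ m₂ b1 b2 b3 b4 hξ hk2
    · exact X.v3 u t₁ t₂ f k₁ k₂ l₁' l₂' G₁' G₂' ξ m₁ m₂ a1 b1 a2 b2 a3 b3 a4 b4 hξ hk1 hk2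
    · exact mixed u t₁ t₂ f k₁ k₂ l₁' l₂' G₁' G₂' ξ m₁ m₂ a1 a2 a3 a4 b1 b2 b3 b4 hξ hk1 hk2
    · exact (mixed u t₂ t₁ f k₂ k₁ l₂' l₁' G₂' G₁' ξ m₂ m₁ b1 b2 b3 b4 a1 a2 a3 a4 hξ hk2
        hk1).symm
    · exact Y.v3 u t₁ t₂ f k₁ k₂ l₁' l₂' G₁' G₂' ξ m₁ m₂ a1 b1 a2 b2 a3 b3 a4 b4 hξ hk1 hk2
  · -- v3'
    intro t₁ t₂ f k₁ k₂ l₂ G₂ ξ m h1 h2 h3 hd hG hξ hk1 hk2
    rcases side _ _ _ _ h1 h3 with ⟨h1, h3⟩ | ⟨h1, h3⟩
    · obtain ⟨l', G', a, b⟩ := X.v1 _ _ _ _ h1 h3 (hk2.trans hξ.le)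
      have e := hc _ _ _ _ _ _ hd ((hZ _).2 (Or.inl a)) _ _ (hξ.trans b) hG
      have h2' : (j, Atom.pr t₁ f k₁) ∈ p := by
        rcases (hZ _).1 h2 with h2 | h2
        · exact h2
        · exact prYX _ _ _ h2 ⟨_, h3, rfl⟩ (nodeXb _ (X.lt_node _ _ h1).1)
      obtain ⟨l₁, G₁, c1, c2⟩ := X.v3' _ _ _ _ _ _ _ _ _ h1 h2' h3 a e hξ hk1 hk2
      exact ⟨l₁, G₁, (hZ _).2 (Or.inl c1), c2⟩
    · obtain ⟨l', G', a, b⟩ := Y.v1 _ _ _ _ h1 h3 (hk2.trans hξ.le)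
      have e := hc _ _ _ _ _ _ hd ((hZ _).2 (Or.inr a)) _ _ (hξ.trans b) hG
      have h2' : (j, Atom.pr t₁ f k₁) ∈ q := by
        rcases (hZ _).1 h2 with h2 | h2
        · have hb : t₁.1 < β := (hXb _ h2).1
          exact prXY _ _ _ h2 ⟨_, h3, rfl⟩ (nodeYX _ (Y.lt_node _ _ h1).1 hb).2
        · exact h2
      obtain ⟨l₁, G₁, c1, c2⟩ := Y.v3' _ _ _ _ _ _ _ _ _ h1 h2' h3 a e hξ hk1 hk2
      exact ⟨l₁, G₁, (hZ _).2 (Or.inr c1), c2⟩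

end

end Pool.Agent.LadderTree
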